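import Pool.Agent.H61.QF.Ke

/-!
Module As (uses the statements of Ke, Pl, Va): the counting condition `Cond` from primes in a
residue class.

PROOF. Fix `v` prime to `d` and `x` as in `Cond`, and suppose `cnt v b x < cnt v c x`. Let
`D` bound the degrees of the `q_i` (`i ≤ r`), `M = r m + D + r`, and `ns` an index with
`coeff ns A ≠ 0`, `A = (∏ binSer) * G` (`A ≠ 0`: the product of the `binSer` has constant
coefficient `1`, and `G ≠ 0`). By Dirichlet (`Nat.forall_exists_prime_gt_and_eq_mod` with the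
inverse of `v` in `ZMod d`) there are arbitrarily large primes `p` with `d ∣ p v - 1`. For all
large such `p` the hypotheses of `key_place` hold: finitely many algebraic numbers are in
`LocInt p` (`eventually_mem`: `a_i`, `a_i⁻¹`, `(a_i - a_j)⁻¹`, coefficients of `q_i`,
`(q_r(a_i))⁻¹`, `(coeff ns A)⁻¹`); `G` is integral up to `p` by `Tame` and `locInt_of_pow`
(`¬ p ∣ (max M_G n)!` for `n < p`, `M_G < p`); `f` by `GloballyBounded` and `locInt_of_pow`;
`κ_i = p pos v (μ_i) - μ_i` from `pos_spec` (`μ_i` is not an integer), and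
`κ_i + r ≤ p` since `pos v (μ_i) ≤ 1 - 1/d` (it is a multiple of `1/d`, less than `1` because
`v μ_i` is not an integer: `μ_i = u/d`, `d ∣ v u` would give `d ∣ u`); `rb`, `rc` from
`pos_spec`. Choose `n0 = ⌊x p⌋`. For large `p`:
`ns < n0`; `n0 + M ≤ p` (`x < 1`); for `n` in the window, `rc_j < n` iff `pos v (c_j) < x`
(if `pos < x`: `p pos - c_j < x p - 1 ≤ n0 ≤ n`; if `pos > x`:
`p pos - c_j > x p + M > n`), the same for `b_j`, so the filters have cardinalities
`cnt v b x < cnt v c x`. Hence `∑ κ_i < n0 ≤ x p`, i.e.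
`p ∑ pos v (μ_i) - ∑ μ_i < x p`, impossible for large `p` since `x < ∑ pos v (μ_i)`.
-/

set_option autoImplicit false

namespace Pool.H61.QF

theorem tame_of_gb (G : PowerSeries Kbar) (h : GloballyBounded G) : Tame G := by
  obtain ⟨N, hN, h⟩ := h
  refine ⟨N, fun n => ?_⟩
  obtain ⟨e, he⟩ := h n
  refine ⟨e, ?_⟩
  have hdvd : N ∣ (max N n).factorial :=
    Nat.dvd_factorial hN (le_max_left _ _)
  obtain ⟨t, ht⟩ := hdvd
  rw [ht]
  have h2 : IsIntegral ℤ (((t : ℕ) : Kbar) ^ e) := (isIntegral_nat t).pow e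
  have h3 := h2.mul he
  have e1 : (((N * t : ℕ) : Kbar)) ^ e * PowerSeries.coeff n G
      = ((t : ℕ) : Kbar) ^ e * ((N : Kbar) ^ e * PowerSeries.coeff n G) := by
    push_cast
    ring
  rw [e1]
  exact h3

/-- The product of the binomial series is a unit, so `A ≠ 0`. -/
theorem prod_ne_zero {m : ℕ} (μ : Fin m → ℚ) (a : Fin m → Kbar) (G : PowerSeries Kbar)
    (hG : G ≠ 0) : (∏ i, binSer (μ i) (a i)) * G ≠ 0 := by
  refine mul_ne_zero ?_ hG
  refine Finset.prod_ne_zero_iff.2 fun i _ h => ?_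
  have h1 := congrArg (PowerSeries.coeff 0) h
  simp [binSer, poch] at h1

private theorem nonint_mul (x : ℚ) (d : ℕ) (hdx : ∃ u : ℤ, (d : ℚ) * x = u) (v : ℤ)
    (hv : IsCoprime v (d : ℤ)) (hx : ∀ l : ℤ, x ≠ l) (l : ℤ) : (v : ℚ) * x ≠ l := by
  intro hl
  obtain ⟨u, hu⟩ := hdx
  obtain ⟨s, t, hst⟩ := hv
  apply hx (s * l + t * u)
  have hst' : (s : ℚ) * v + t * d = 1 := by exact_mod_cast hst
  push_cast
  rw [← hl, ← hu]
  linear_combination (-x) * hst'

theorem pos_bounds (x : ℚ) (d : ℕ) (hd : 0 < d) (hdx : ∃ u : ℤ, (d : ℚ) * x = u) (v : ℤ)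
    (hv : IsCoprime v (d : ℤ)) (hx : ∀ l : ℤ, x ≠ l) :
    (1 : ℚ) / d ≤ pos v x ∧ pos v x ≤ 1 - 1 / d ∧ pos v x = Int.fract ((v : ℚ) * x) := by
  have hni := nonint_mul x d hdx v hv hx
  set y : ℚ := (v : ℚ) * x with hy
  have hf0 : Int.fract y ≠ 0 := by
    intro h
    rw [Int.fract_eq_iff] at h
    obtain ⟨-, -, z, hz⟩ := h
    apply hni z
    linarith
  have hpos : pos v x = Int.fract y := by
    rw [pos, ← hy, Int.fract_neg hf0]
    ring
  have hfpos : 0 < Int.fract y := lt_of_le_of_ne (Int.fract_nonneg y) (Ne.symm hf0)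
  have hflt : Int.fract y < 1 := Int.fract_lt_one y
  obtain ⟨u, hu⟩ := hdx
  have hd' : (0 : ℚ) < d := by exact_mod_cast hd
  have hint : (d : ℚ) * Int.fract y = ((v * u - d * ⌊y⌋ : ℤ) : ℚ) := by
    have : Int.fract y = y - ⌊y⌋ := rfl
    rw [this]
    push_cast
    rw [← hu, hy]
    ring
  have h1 : (1 : ℤ) ≤ v * u - d * ⌊y⌋ := by
    have : (0 : ℚ) < ((v * u - d * ⌊y⌋ : ℤ) : ℚ) := by
      rw [← hint]; positivity
    have : 0 < v * u - d * ⌊y⌋ := by exact_mod_cast this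
    omega
  have h2 : v * u - d * ⌊y⌋ ≤ (d : ℤ) - 1 := by
    have : ((v * u - d * ⌊y⌋ : ℤ) : ℚ) < ((d : ℤ) : ℚ) := by
      rw [← hint]
      push_cast
      nlinarith
    have : v * u - d * ⌊y⌋ < (d : ℤ) := by exact_mod_cast this
    omega
  rw [hpos]
  refine ⟨?_, ?_, rfl⟩
  · rw [div_le_iff₀ hd', mul_comm, hint]
    exact_mod_cast h1
  · have h3 : (d : ℚ) * Int.fract y ≤ d - 1 := by
      rw [hint]
      have : ((v * u - d * ⌊y⌋ : ℤ) : ℚ) ≤ (((d : ℤ) - 1 : ℤ) : ℚ) := by exact_mod_cast h2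
      simpa using this
    have h4 : Int.fract y ≤ (d - 1) / d := by
      rw [le_div_iff₀ hd']
      linarith
    have h5 : ((d : ℚ) - 1) / d = 1 - 1 / d := by
      field_simp
    linarith

private theorem ev_large (δ C : ℚ) (hδ : 0 < δ) : ∀ᶠ p : ℕ in Filter.atTop, C ≤ δ * p := by
  have h : Filter.Tendsto (fun p : ℕ => δ * (p : ℚ)) Filter.atTop Filter.atTop :=
    (tendsto_natCast_atTop_atTop (R := ℚ)).const_mul_atTop hδ
  exact h.eventually_ge_atTop C

private theorem ev_mem (x : Kbar) :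
    ∀ᶠ p : ℕ in Filter.atTop, ∀ h : Fact p.Prime, x ∈ @LocInt p h := by
  obtain ⟨P0, h⟩ := eventually_mem x
  filter_upwards [Filter.eventually_ge_atTop P0] with p hp hf
  exact @h p hf hp

private theorem ev_pos (x : ℚ) (d : ℕ) (hd : 0 < d) (hdx : ∃ u : ℤ, (d : ℚ) * x = u)
    (hx : ∀ l : ℕ, x ≠ -(l : ℚ)) (v : ℤ) :
    ∀ᶠ p : ℕ in Filter.atTop, p.Prime → (d : ℤ) ∣ p * v - 1 →
      ∃ r : ℕ, (r : ℚ) = p * pos v x - x ∧ r < p ∧
        (∃ y : ℚ, x + r = p * y ∧ ¬ p ∣ y.den ∧ ¬ (p : ℤ) ∣ y.num) := by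
  obtain ⟨P0, h⟩ := pos_spec x d hd hdx hx
  filter_upwards [Filter.eventually_ge_atTop P0] with p hp h1 h2
  exact h p v h1 hp h2

private theorem frequently_prime (d : ℕ) (hd : 0 < d) (v : ℤ) (hv : IsCoprime v (d : ℤ)) :
    ∃ᶠ p : ℕ in Filter.atTop, p.Prime ∧ (d : ℤ) ∣ p * v - 1 := by
  have : NeZero d := ⟨hd.ne'⟩
  rw [Filter.frequently_atTop]
  intro n
  have hu : IsUnit ((v : ℤ) : ZMod d) := (ZMod.coe_int_isUnit_iff_isCoprime v d).2 hv.symm
  obtain ⟨U, hU⟩ := hu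
  obtain ⟨p, hpn, hpp, hpe⟩ :=
    Nat.forall_exists_prime_gt_and_eq_mod (q := d) (a := ((U⁻¹ : (ZMod d)ˣ) : ZMod d))
      (Units.isUnit _) n
  refine ⟨p, hpn.le, hpp, ?_⟩
  rw [← ZMod.intCast_zmod_eq_zero_iff_dvd]
  push_cast
  rw [hpe, ← hU]
  simp

theorem cond_of_gb {k m r : ℕ} (b c : Fin k → ℚ) (μ : Fin m → ℚ) (a : Fin m → Kbar)
    (q : ℕ → Polynomial Kbar) (G : PowerSeries Kbar)
    (ha0 : ∀ i, a i ≠ 0) (hainj : Function.Injective a)
    (hμ : ∀ i, ∀ l : ℤ, μ i ≠ l)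
    (hb : ∀ j, ∀ l : ℕ, b j ≠ -(l : ℚ)) (hc : ∀ j, ∀ l : ℤ, c j ≠ l)
    (hG : G ≠ 0) (hGt : Tame G)
    (hqa : ∀ i, (q r).eval (a i) ≠ 0)
    (hode : ∑ i ∈ Finset.range (r + 1), ((q i : Polynomial Kbar) : PowerSeries Kbar) *
      (⇑(PowerSeries.derivative Kbar))^[i] G = 0)
    (hf : GloballyBounded (had (hyp b c) ((∏ i, binSer (μ i) (a i)) * G)))
    (d : ℕ) (hd : 0 < d) (hdb : ∀ j, ∃ u : ℤ, (d : ℚ) * b j = u)
    (hdc : ∀ j, ∃ u : ℤ, (d : ℚ) * c j = u) (hdμ : ∀ i, ∃ u : ℤ, (d : ℚ) * μ i = u)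
    (v : ℤ) (hv : IsCoprime v (d : ℤ)) : Cond b c μ v := by
  classical
  intro x hx0 hx1 hxκ hne
  by_contra hlt
  push Not at hlt
  obtain ⟨N, hN, hNf⟩ := hf
  obtain ⟨MG, hMG⟩ := hGt
  have hA0 := prod_ne_zero μ a G hG
  obtain ⟨ns, hns⟩ : ∃ ns, PowerSeries.coeff ns ((∏ i, binSer (μ i) (a i)) * G) ≠ 0 := by
    by_contra hcon
    push Not at hcon
    exact hA0 (PowerSeries.ext fun n => by simpa using hcon n)
  set D : ℕ := ∑ i ∈ Finset.range (r + 1), (q i).natDegree with hD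
  have hDle : ∀ i ≤ r, (q i).natDegree ≤ D := by
    intro i hi
    rw [hD]
    exact Finset.single_le_sum (f := fun i => (q i).natDegree) (fun _ _ => Nat.zero_le _)
      (Finset.mem_range.2 (by omega))
  set M : ℕ := r * m + D + r with hM
  have hc' : ∀ j, ∀ l : ℕ, c j ≠ -(l : ℚ) := fun j l h => hc j (-(l : ℤ)) (by
    rw [h]; push_cast; ring)
  have hμ' : ∀ i, ∀ l : ℕ, μ i ≠ -(l : ℚ) := fun j l h => hμ j (-(l : ℤ)) (by
    rw [h]; push_cast; ring)
  -- the eventual facts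
  have e1 : ∀ᶠ p : ℕ in Filter.atTop, ∀ i, ∀ h : Fact p.Prime, a i ∈ @LocInt p h :=
    Filter.eventually_all.2 fun i => ev_mem (a i)
  have e2 : ∀ᶠ p : ℕ in Filter.atTop, ∀ i, ∀ h : Fact p.Prime, (a i)⁻¹ ∈ @LocInt p h :=
    Filter.eventually_all.2 fun i => ev_mem (a i)⁻¹
  have e3 : ∀ᶠ p : ℕ in Filter.atTop, ∀ i, ∀ j, ∀ h : Fact p.Prime,
      (a i - a j)⁻¹ ∈ @LocInt p h :=
    Filter.eventually_all.2 fun i => Filter.eventually_all.2 fun j => ev_mem (a i - a j)⁻¹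
  have e4 : ∀ᶠ p : ℕ in Filter.atTop, ∀ i ∈ Finset.range (r + 1),
      ∀ j ∈ Finset.range ((q i).natDegree + 1), ∀ h : Fact p.Prime,
      (q i).coeff j ∈ @LocInt p h := by
    rw [Filter.eventually_all_finset]
    intro i _
    rw [Filter.eventually_all_finset]
    intro j _
    exact ev_mem _
  have e5 : ∀ᶠ p : ℕ in Filter.atTop, ∀ i, ∀ h : Fact p.Prime,
      ((q r).eval (a i))⁻¹ ∈ @LocInt p h :=
    Filter.eventually_all.2 fun i => ev_mem _
  have e6 := ev_mem (PowerSeries.coeff ns ((∏ i, binSer (μ i) (a i)) * G))⁻¹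
  have e7 : ∀ᶠ p : ℕ in Filter.atTop, MG < p := Filter.eventually_gt_atTop MG
  have e8 : ∀ᶠ p : ℕ in Filter.atTop, N < p := Filter.eventually_gt_atTop N
  have e9b : ∀ᶠ p : ℕ in Filter.atTop, ∀ j, p.Prime → (d : ℤ) ∣ p * v - 1 →
      ∃ r : ℕ, (r : ℚ) = p * pos v (b j) - b j ∧ r < p ∧
        (∃ y : ℚ, b j + r = p * y ∧ ¬ p ∣ y.den ∧ ¬ (p : ℤ) ∣ y.num) :=
    Filter.eventually_all.2 fun j => ev_pos (b j) d hd (hdb j) (hb j) v
  have e9c : ∀ᶠ p : ℕ in Filter.atTop, ∀ j, p.Prime → (d : ℤ) ∣ p * v - 1 →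
      ∃ r : ℕ, (r : ℚ) = p * pos v (c j) - c j ∧ r < p ∧
        (∃ y : ℚ, c j + r = p * y ∧ ¬ p ∣ y.den ∧ ¬ (p : ℤ) ∣ y.num) :=
    Filter.eventually_all.2 fun j => ev_pos (c j) d hd (hdc j) (hc' j) v
  have e9m : ∀ᶠ p : ℕ in Filter.atTop, ∀ i, p.Prime → (d : ℤ) ∣ p * v - 1 →
      ∃ r : ℕ, (r : ℚ) = p * pos v (μ i) - μ i ∧ r < p ∧
        (∃ y : ℚ, μ i + r = p * y ∧ ¬ p ∣ y.den ∧ ¬ (p : ℤ) ∣ y.num) :=
    Filter.eventually_all.2 fun i => ev_pos (μ i) d hd (hdμ i) (hμ' i) v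
  have hdq : (0 : ℚ) < 1 / d := by
    have : (0 : ℚ) < d := by exact_mod_cast hd
    positivity
  have e10 : ∀ᶠ p : ℕ in Filter.atTop, ∀ i, (r : ℚ) - μ i ≤ 1 / d * p :=
    Filter.eventually_all.2 fun i => ev_large _ _ hdq
  have e11 : ∀ᶠ p : ℕ in Filter.atTop, (ns : ℚ) + 1 ≤ x * p := ev_large _ _ hx0
  have e12 : ∀ᶠ p : ℕ in Filter.atTop, (M : ℚ) ≤ (1 - x) * p := ev_large _ _ (by linarith)
  have e13 : ∀ (y : ℚ), pos v y ≠ x → ∀ᶠ p : ℕ in Filter.atTop,
      (pos v y < x → p * pos v y - y ≤ x * p - 1) ∧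
      (x < pos v y → x * p + M ≤ p * pos v y - y) := by
    intro y hy
    rcases lt_or_gt_of_ne hy with h | h
    · filter_upwards [ev_large (x - pos v y) (1 - y) (by linarith)] with p hp
      exact ⟨fun _ => by linarith, fun h' => absurd h' (by linarith)⟩
    · filter_upwards [ev_large (pos v y - x) (M + y) (by linarith)] with p hp
      exact ⟨fun h' => absurd h' (by linarith), fun _ => by linarith⟩
  have e13b : ∀ᶠ p : ℕ in Filter.atTop, ∀ j,
      (pos v (b j) < x → p * pos v (b j) - b j ≤ x * p - 1) ∧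
      (x < pos v (b j) → x * p + M ≤ p * pos v (b j) - b j) :=
    Filter.eventually_all.2 fun j => e13 (b j) (hne j).1
  have e13c : ∀ᶠ p : ℕ in Filter.atTop, ∀ j,
      (pos v (c j) < x → p * pos v (c j) - c j ≤ x * p - 1) ∧
      (x < pos v (c j) → x * p + M ≤ p * pos v (c j) - c j) :=
    Filter.eventually_all.2 fun j => e13 (c j) (hne j).2
  have e14 : ∀ᶠ p : ℕ in Filter.atTop,
      ∑ i, μ i ≤ (∑ i, pos v (μ i) - x) * p := ev_large _ _ (by linarith)
  obtain ⟨p, ⟨hpp, hpd⟩, h1, h2, h3, h4, h5, h6, h7, h8, h9b, h9c, h9m, h10, h11, h12, h13b,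
    h13c, h14⟩ := ((frequently_prime d hd v hv).and_eventually (e1.and (e2.and (e3.and (e4.and
      (e5.and (e6.and (e7.and (e8.and (e9b.and (e9c.and (e9m.and (e10.and (e11.and (e12.and
        (e13b.and (e13c.and e14))))))))))))))))).exists
  have hfact : Fact p.Prime := ⟨hpp⟩
  choose rb hrb1 hrb2 hrb3 using fun j => h9b j hpp hpd
  choose rc hrc1 hrc2 hrc3 using fun j => h9c j hpp hpd
  choose κ hκ1 hκ2 hκ3 using fun i => h9m i hpp hpd
  have hp0 : (0 : ℚ) < p := by exact_mod_cast hpp.pos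
  have hxp : 0 ≤ x * p := by positivity
  set n0 : ℕ := ⌊x * p⌋₊ with hn0
  have hn0le : (n0 : ℚ) ≤ x * p := Nat.floor_le hxp
  have hn0gt : x * p < n0 + 1 := Nat.lt_floor_add_one _
  have hkey := key_place b c μ a q G p D ns n0 ha0 hainj hb hc' hode
    (fun i => h1 i hfact) (fun i => h2 i hfact) (fun i j => h3 i j hfact)
    (fun i hi j => by
      by_cases hj : j ∈ Finset.range ((q i).natDegree + 1)
      · exact h4 i (Finset.mem_range.2 (by omega)) j hj hfact
      · rw [Finset.mem_range, not_lt] at hj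
        rw [Polynomial.coeff_eq_zero_of_natDegree_lt (by omega)]
        exact zero_mem _)
    hDle hqa (fun i => h5 i hfact)
    (fun n hn => by
      obtain ⟨e, he⟩ := hMG n
      refine locInt_of_pow p _ ?_ e _ he
      rw [hpp.dvd_factorial]
      have : max MG n < p := max_lt h7 hn
      omega)
    (fun n => by
      obtain ⟨e, he⟩ := hNf n
      refine locInt_of_pow p N ?_ e _ he
      intro hdvd
      have := Nat.le_of_dvd hN hdvd
      omega)
    hns (h6 hfact) κ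
    (fun i => by
      have hb1 := (pos_bounds (μ i) d hd (hdμ i) v hv (hμ i)).2.1
      have hb2 := h10 i
      have hb3 : (κ i : ℚ) + r ≤ p := by
        rw [hκ1 i]
        have : (p : ℚ) * pos v (μ i) ≤ p * (1 - 1 / d) :=
          mul_le_mul_of_nonneg_left hb1 hp0.le
        have h' : (p : ℚ) * (1 - 1 / d) = p - 1 / d * p := by ring
        linarith
      exact_mod_cast hb3)
    (fun i => by
      obtain ⟨y, hy1, hy2, -⟩ := hκ3 i
      exact ⟨y, hy1, hy2⟩)
    rb rc hrb2 hrc2 hrb3 hrc3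
    (by
      have : (ns : ℚ) < n0 := by linarith
      exact_mod_cast this)
    (by
      have : (n0 : ℚ) + M ≤ p := by linarith
      rw [← hM]
      exact_mod_cast this)
    (fun n hn1 hn2 => by
      rw [← hM] at hn2
      have hn1' : (n0 : ℚ) ≤ n := by exact_mod_cast hn1
      have hn2' : (n : ℚ) < n0 + M := by exact_mod_cast hn2
      have hb' : ∀ j, rb j < n ↔ pos v (b j) < x := by
        intro j
        constructor
        · intro h
          by_contra hcon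
          have hgt : x < pos v (b j) := lt_of_le_of_ne (not_lt.1 hcon) (Ne.symm (hne j).1)
          have h' := (h13b j).2 hgt
          rw [← hrb1 j] at h'
          have : (rb j : ℚ) < n := by exact_mod_cast h
          linarith
        · intro h
          have h' := (h13b j).1 h
          rw [← hrb1 j] at h'
          have : (rb j : ℚ) < n := by linarith
          exact_mod_cast this
      have hc'' : ∀ j, rc j < n ↔ pos v (c j) < x := by
        intro j
        constructor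
        · intro h
          by_contra hcon
          have hgt : x < pos v (c j) := lt_of_le_of_ne (not_lt.1 hcon) (Ne.symm (hne j).2)
          have h' := (h13c j).2 hgt
          rw [← hrc1 j] at h'
          have : (rc j : ℚ) < n := by exact_mod_cast h
          linarith
        · intro h
          have h' := (h13c j).1 h
          rw [← hrc1 j] at h'
          have : (rc j : ℚ) < n := by linarith
          exact_mod_cast this
      simp only [hb', hc'']
      exact hlt)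
  have hsum : ((∑ i, κ i : ℕ) : ℚ) = p * ∑ i, pos v (μ i) - ∑ i, μ i := by
    push_cast
    rw [Finset.mul_sum, ← Finset.sum_sub_distrib]
    exact Finset.sum_congr rfl fun i _ => hκ1 i
  have hkey' : ((∑ i, κ i : ℕ) : ℚ) < n0 := by exact_mod_cast hkey
  rw [hsum] at hkey'
  have : (∑ i, pos v (μ i) - x) * p = p * ∑ i, pos v (μ i) - x * p := by ring
  linarith

end Pool.H61.QF
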