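import Pool.Agent.H61.QF.Defs

/-!
Module Co (Mathlib only): consequences of the counting condition for all multipliers.

PROOF. Put `s = ∑ fract (w μ_i)`; all `w μ_i`, `w c_j`, `w (b_i - c_j)` are non-integers (`w`
prime to `d`, and `d` is a common denominator). With `v = -w`: `pos v y = 1 - fract (w y)`,
which is `fract (-(w y))` if `w y` is not an integer; `pos w y = 1 - fract (-(w y))`, which is
`fract (w y)` if `w y` is not an integer. So `∑ pos v μ_i = m - s` and `∑ pos w μ_i = s`.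

Step A. Suppose `s ≤ m - 1`. Then `Cond` for `v = -w` applies to all generic `x` in `(0,1)`.
Let `j0` maximise `γ_j = pos v (c_j)` and `γ = γ_{j0} < 1`. Claim: `β_j := pos v (b_j) < γ` for
all `j`. Otherwise `β_j > γ` (they are different because `b_j - c_{j0}` is not an integer);
choose `x` with `γ < x < min (β_j) 1` different from all the finitely many positions: then
`cnt v c x = k` and `cnt v b x ≤ k - 1`, contradiction. In particular `β_j < 1`, so `w b_j` is not
an integer and `β_j = fract (-(w b_j)) > 0`.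

Step B. Claim `γ ≤ 1 - s`. Otherwise `1 - γ < s`; choose `x` with `1 - γ < x`, `x < s`, `x < 1`,
`x < 1 - β_j` for all `j` (possible as `β_j < γ`) and `x` different from all `pos w (b_j)`,
`pos w (c_j)`. Now `pos w (c_{j0}) = 1 - γ < x`, so `cnt w c x ≥ 1`, while
`pos w (b_j) = 1 - β_j > x` for all `j`, so `cnt w b x = 0`: this contradicts `Cond` for `w`.
As `γ > 0`, we get `s < 1`.

So `s ≤ m - 1` implies `s < 1` and the conclusions. If `s < 1` then `s ≤ m - 1` (`m ≥ 2`). If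
`s ≥ 1`, then `∑ fract (-(w μ_i)) = m - s ≤ m - 1`, and the implication for `-w` gives `m - s < 1`.
-/

set_option autoImplicit false

namespace Pool.H61.QF

private theorem Co_nonint {d : ℕ} {x : ℚ} (hx : ∀ l : ℤ, x ≠ l) (hdx : ∃ u : ℤ, (d : ℚ) * x = u)
    {w : ℤ} (hw : IsCoprime w (d : ℤ)) : Int.fract ((w : ℚ) * x) ≠ 0 := by
  intro h0
  obtain ⟨a, b, hab⟩ := hw
  obtain ⟨u, hu⟩ := hdx
  have h1 : (w : ℚ) * x = (⌊(w : ℚ) * x⌋ : ℤ) := by
    have := Int.self_sub_floor ((w : ℚ) * x)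
    rw [h0] at this
    linarith
  have h2 : ((a : ℚ) * w + b * d) = 1 := by exact_mod_cast hab
  apply hx (a * ⌊(w : ℚ) * x⌋ + b * u)
  push_cast
  rw [← h1, ← hu]
  calc x = ((a : ℚ) * w + b * d) * x := by rw [h2, one_mul]
    _ = _ := by ring

private theorem Co_choose {a b : ℚ} (h : a < b) (S : Finset ℚ) : ∃ x, a < x ∧ x < b ∧ x ∉ S := by
  obtain ⟨x, hx, hxS⟩ := (Set.Ioo_infinite h).exists_notMem_finset S
  exact ⟨x, hx.1, hx.2, hxS⟩

private theorem Co_key {k m : ℕ} (b c : Fin k → ℚ) (μ : Fin m → ℚ) (d : ℕ)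
    (hk : 1 ≤ k) (hμ : ∀ i, ∀ l : ℤ, μ i ≠ l) (hc : ∀ j, ∀ l : ℤ, c j ≠ l)
    (hbc : ∀ i j, ∀ l : ℤ, b i - c j ≠ l)
    (hdb : ∀ j, ∃ u : ℤ, (d : ℚ) * b j = u) (hdc : ∀ j, ∃ u : ℤ, (d : ℚ) * c j = u)
    (hdμ : ∀ i, ∃ u : ℤ, (d : ℚ) * μ i = u)
    (hP : ∀ v : ℤ, IsCoprime v (d : ℤ) → Cond b c μ v) (w : ℤ) (hw : IsCoprime w (d : ℤ))
    (hs : ∑ i, Int.fract ((w : ℚ) * μ i) ≤ (m : ℚ) - 1) :
    ∑ i, Int.fract ((w : ℚ) * μ i) < 1 ∧ ∃ j0,
      (∀ j, 0 < Int.fract (-((w : ℚ) * b j)) ∧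
        Int.fract (-((w : ℚ) * b j)) < Int.fract (-((w : ℚ) * c j0))) ∧
      (∀ j, Int.fract (-((w : ℚ) * c j)) ≤ Int.fract (-((w : ℚ) * c j0))) ∧
      Int.fract (-((w : ℚ) * c j0)) ≤ 1 - ∑ i, Int.fract ((w : ℚ) * μ i) := by
  classical
  have hv : IsCoprime (-w) (d : ℤ) := hw.neg_left
  -- positions for the multiplier -w
  have hpos : ∀ y : ℚ, pos (-w) y = 1 - Int.fract ((w : ℚ) * y) := by
    intro y
    rw [pos]
    congr 2
    push_cast
    ring
  have hcf : ∀ j, Int.fract (-((w : ℚ) * c j)) = 1 - Int.fract ((w : ℚ) * c j) := fun j =>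
    Int.fract_neg (Co_nonint (hc j) (hdc j) hw)
  have hμf : ∀ i, Int.fract (-((w : ℚ) * μ i)) = 1 - Int.fract ((w : ℚ) * μ i) := fun i =>
    Int.fract_neg (Co_nonint (hμ i) (hdμ i) hw)
  have hsv : ∑ i, pos (-w) (μ i) = (m : ℚ) - ∑ i, Int.fract ((w : ℚ) * μ i) := by
    simp only [hpos]
    rw [Finset.sum_sub_distrib]
    simp
  have hsw : ∑ i, pos w (μ i) = ∑ i, Int.fract ((w : ℚ) * μ i) := by
    refine Finset.sum_congr rfl fun i _ => ?_
    rw [pos, hμf]
    ring
  have : Nonempty (Fin k) := ⟨⟨0, hk⟩⟩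
  obtain ⟨j0, _, hj0⟩ := Finset.exists_max_image (Finset.univ : Finset (Fin k))
    (fun j => pos (-w) (c j)) Finset.univ_nonempty
  obtain ⟨j1, _, hj1⟩ := Finset.exists_max_image (Finset.univ : Finset (Fin k))
    (fun j => pos (-w) (b j)) Finset.univ_nonempty
  have hγc : ∀ j, pos (-w) (c j) = Int.fract (-((w : ℚ) * c j)) := fun j => by
    rw [hpos, hcf]
  have hγ1 : pos (-w) (c j0) < 1 := by
    rw [hγc]
    exact Int.fract_lt_one _
  have hpp : ∀ y : ℚ, 0 < pos (-w) y := fun y => by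
    rw [hpos]
    have := Int.fract_lt_one ((w : ℚ) * y)
    linarith
  -- Step A
  have hA : ∀ j, pos (-w) (b j) < pos (-w) (c j0) := by
    intro j
    by_contra hcon
    rw [not_lt] at hcon
    have hne : pos (-w) (c j0) ≠ pos (-w) (b j) := by
      intro he
      rw [hpos, hpos] at he
      have he' : Int.fract ((w : ℚ) * b j) = Int.fract ((w : ℚ) * c j0) := by linarith
      rw [Int.fract_eq_fract] at he'
      obtain ⟨z, hz⟩ := he'
      apply Co_nonint (d := d) (hbc j j0) ?_ hw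
      · rw [mul_sub, hz]
        exact Int.fract_intCast z
      · obtain ⟨u1, hu1⟩ := hdb j
        obtain ⟨u2, hu2⟩ := hdc j0
        refine ⟨u1 - u2, ?_⟩
        rw [mul_sub, hu1, hu2]
        push_cast
        ring
    have hlt : pos (-w) (c j0) < pos (-w) (b j) := lt_of_le_of_ne hcon hne
    obtain ⟨x, hx1, hx2, hxS⟩ := Co_choose (lt_min hlt hγ1)
      ((Finset.univ.image fun j => pos (-w) (b j)) ∪ (Finset.univ.image fun j => pos (-w) (c j)))
    rw [lt_min_iff] at hx2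
    have hgen : ∀ j, pos (-w) (b j) ≠ x ∧ pos (-w) (c j) ≠ x := by
      intro i
      refine ⟨fun h => hxS ?_, fun h => hxS ?_⟩
      · rw [← h]
        exact Finset.mem_union_left _ (Finset.mem_image_of_mem _ (Finset.mem_univ _))
      · rw [← h]
        exact Finset.mem_union_right _ (Finset.mem_image_of_mem _ (Finset.mem_univ _))
    have h1 := hP (-w) hv x (lt_trans (hpp _) hx1) hx2.2 (by
      rw [hsv]
      linarith [hx2.2]) hgen
    have h2 : cnt (-w) c x = k := by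
      rw [cnt, Finset.filter_true_of_mem, Finset.card_univ, Fintype.card_fin]
      intro i hi
      exact lt_of_le_of_lt (hj0 i hi) hx1
    have h3 : cnt (-w) b x < k := by
      rw [cnt]
      calc _ < (Finset.univ : Finset (Fin k)).card := by
            apply Finset.card_lt_card
            rw [Finset.ssubset_univ_iff]
            intro he
            have : j ∈ Finset.univ.filter fun j => pos (-w) (b j) < x := by
              rw [he]
              exact Finset.mem_univ _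
            rw [Finset.mem_filter] at this
            exact absurd this.2 (not_lt.mpr hx2.1.le)
        _ = k := by rw [Finset.card_univ, Fintype.card_fin]
    omega
  have hbf : ∀ j, Int.fract (-((w : ℚ) * b j)) = pos (-w) (b j) := by
    intro j
    have h1 := lt_trans (hA j) hγ1
    rw [hpos] at h1 ⊢
    exact Int.fract_neg (by
      intro h0
      rw [h0] at h1
      linarith)
  -- Step B
  have hB : pos (-w) (c j0) ≤ 1 - ∑ i, Int.fract ((w : ℚ) * μ i) := by
    by_contra hcon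
    rw [not_le] at hcon
    have hu : 1 - pos (-w) (c j0) <
        min (∑ i, Int.fract ((w : ℚ) * μ i)) (min 1 (1 - pos (-w) (b j1))) := by
      refine lt_min (by linarith) (lt_min (by linarith [hpp (c j0)]) (by linarith [hA j1]))
    obtain ⟨x, hx1, hx2, hxS⟩ := Co_choose hu
      ((Finset.univ.image fun j => pos w (b j)) ∪ (Finset.univ.image fun j => pos w (c j)))
    rw [lt_min_iff, lt_min_iff] at hx2
    have hgen : ∀ j, pos w (b j) ≠ x ∧ pos w (c j) ≠ x := by
      intro i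
      refine ⟨fun h => hxS ?_, fun h => hxS ?_⟩
      · rw [← h]
        exact Finset.mem_union_left _ (Finset.mem_image_of_mem _ (Finset.mem_univ _))
      · rw [← h]
        exact Finset.mem_union_right _ (Finset.mem_image_of_mem _ (Finset.mem_univ _))
    have h1 := hP w hw x (by linarith) hx2.2.1 (by
      rw [hsw]
      exact hx2.1) hgen
    have h2 : 1 ≤ cnt w c x := by
      rw [cnt, Nat.one_le_iff_ne_zero, ← Nat.pos_iff_ne_zero, Finset.card_pos]
      refine ⟨j0, Finset.mem_filter.mpr ⟨Finset.mem_univ _, ?_⟩⟩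
      rw [pos, ← hγc]
      exact hx1
    have h3 : cnt w b x = 0 := by
      rw [cnt, Finset.card_eq_zero, Finset.filter_eq_empty_iff]
      intro i hi hlt
      rw [pos, hbf] at hlt
      have h4 := hj1 i hi
      linarith [hx2.2.2]
    omega
  refine ⟨by linarith [hpp (c j0)], j0, fun j => ⟨?_, ?_⟩, fun j => ?_, ?_⟩
  · rw [hbf]
    exact hpp _
  · rw [hbf, ← hγc]
    exact hA j
  · rw [← hγc, ← hγc]
    exact hj0 j (Finset.mem_univ _)
  · rw [← hγc]
    exact hB

theorem comb {k m : ℕ} (b c : Fin k → ℚ) (μ : Fin m → ℚ) (d : ℕ) (hd : 0 < d)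
    (hk : 1 ≤ k) (hm : 2 ≤ m) (hμ : ∀ i, ∀ l : ℤ, μ i ≠ l) (hc : ∀ j, ∀ l : ℤ, c j ≠ l)
    (hbc : ∀ i j, ∀ l : ℤ, b i - c j ≠ l)
    (hdb : ∀ j, ∃ u : ℤ, (d : ℚ) * b j = u) (hdc : ∀ j, ∃ u : ℤ, (d : ℚ) * c j = u)
    (hdμ : ∀ i, ∃ u : ℤ, (d : ℚ) * μ i = u)
    (hP : ∀ v : ℤ, IsCoprime v (d : ℤ) → Cond b c μ v) (w : ℤ) (hw : IsCoprime w (d : ℤ)) :
    (∑ i, Int.fract ((w : ℚ) * μ i) < 1 ∨ ∑ i, Int.fract (-((w : ℚ) * μ i)) < 1) ∧
    (∑ i, Int.fract ((w : ℚ) * μ i) < 1 → ∃ j0,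
      (∀ j, 0 < Int.fract (-((w : ℚ) * b j)) ∧
        Int.fract (-((w : ℚ) * b j)) < Int.fract (-((w : ℚ) * c j0))) ∧
      (∀ j, Int.fract (-((w : ℚ) * c j)) ≤ Int.fract (-((w : ℚ) * c j0))) ∧
      Int.fract (-((w : ℚ) * c j0)) ≤ 1 - ∑ i, Int.fract ((w : ℚ) * μ i)) := by
  have hμf : ∀ i, Int.fract (-((w : ℚ) * μ i)) = 1 - Int.fract ((w : ℚ) * μ i) := fun i =>
    Int.fract_neg (Co_nonint (hμ i) (hdμ i) hw)
  have hm' : (2 : ℚ) ≤ m := by exact_mod_cast hm
  refine ⟨?_, fun hs => ?_⟩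
  · by_cases hs : ∑ i, Int.fract ((w : ℚ) * μ i) ≤ (m : ℚ) - 1
    · exact Or.inl (Co_key b c μ d hk hμ hc hbc hdb hdc hdμ hP w hw hs).1
    · right
      simp only [hμf]
      rw [Finset.sum_sub_distrib]
      simp only [Finset.sum_const, Finset.card_univ, Fintype.card_fin, nsmul_eq_mul, mul_one]
      linarith
  · exact (Co_key b c μ d hk hμ hc hbc hdb hdc hdμ hP w hw (by linarith)).2

end Pool.H61.QF
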