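import Mathlib

/-!
Shared definitions for MP_40f29e_nt (integral power series solutions of Fuchsian equations).
-/

set_option autoImplicit false

namespace Pool.H61.QF

/-- The field of algebraic numbers. -/
abbrev Kbar := AlgebraicClosure ℚ

/-- The Pochhammer symbol `x (x+1) ... (x+n-1)`. -/
def poch (x : ℚ) (n : ℕ) : ℚ := ∏ i ∈ Finset.range n, (x + i)

/-- The hypergeometric coefficient `(b_1)_n ... (b_k)_n / ((c_1)_n ... (c_k)_n)`. -/
def hyp {k : ℕ} (b c : Fin k → ℚ) (n : ℕ) : ℚ := ∏ j, poch (b j) n / poch (c j) n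

/-- The binomial series `(1 - z/a)^(-μ)`. -/
noncomputable def binSer (μ : ℚ) (a : Kbar) : PowerSeries Kbar :=
  PowerSeries.mk fun n => ((poch μ n / (n.factorial : ℚ) : ℚ) : Kbar) * (a⁻¹) ^ n

/-- The Hadamard (coefficientwise) product of a power series with a rational sequence. -/
noncomputable def had (h : ℕ → ℚ) (A : PowerSeries Kbar) : PowerSeries Kbar :=
  PowerSeries.mk fun n => ((h n : ℚ) : Kbar) * PowerSeries.coeff n A

/-- All coefficients lie in `Zbar[1/N]` for some `N ≥ 1`. -/
def GloballyBounded (f : PowerSeries Kbar) : Prop :=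
  ∃ N : ℕ, 1 ≤ N ∧ ∀ n : ℕ, ∃ e : ℕ, IsIntegral ℤ ((N : Kbar) ^ e * PowerSeries.coeff n f)

/-- The denominator of the `n`-th coefficient has only prime factors `≤ max M n`. -/
def Tame (G : PowerSeries Kbar) : Prop :=
  ∃ M : ℕ, ∀ n : ℕ, ∃ e : ℕ,
    IsIntegral ℤ ((((max M n).factorial : ℕ) : Kbar) ^ e * PowerSeries.coeff n G)

theorem isIntegral_nat (s : ℕ) : IsIntegral ℤ ((s : ℕ) : Kbar) := by
  have h := isIntegral_algebraMap (R := ℤ) (A := Kbar) (x := (s : ℤ))
  simpa using h

/-- The algebraic numbers which are integral at all places above `p`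
(the integral closure of `Z_(p)` in the field of algebraic numbers). -/
def LocInt (p : ℕ) [hp : Fact p.Prime] : Subring Kbar where
  carrier := {x | ∃ s : ℕ, ¬ p ∣ s ∧ IsIntegral ℤ ((s : Kbar) * x)}
  mul_mem' := by
    rintro x y ⟨s, hs, hx⟩ ⟨t, ht, hy⟩
    refine ⟨s * t, fun h => ?_, ?_⟩
    · rcases (hp.out.dvd_mul).1 h with h | h
      · exact hs h
      · exact ht h
    · have := hx.mul hy
      have e : ((s * t : ℕ) : Kbar) * (x * y) = (s : Kbar) * x * ((t : Kbar) * y) := by
        push_cast; ring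
      rw [e]; exact this
  one_mem' := ⟨1, by
    intro h
    exact hp.out.one_lt.ne' (Nat.dvd_one.1 h), by
    simpa using (isIntegral_one : IsIntegral ℤ (1 : Kbar))⟩
  add_mem' := by
    rintro x y ⟨s, hs, hx⟩ ⟨t, ht, hy⟩
    refine ⟨s * t, fun h => ?_, ?_⟩
    · rcases (hp.out.dvd_mul).1 h with h | h
      · exact hs h
      · exact ht h
    · have h1 : IsIntegral ℤ ((t : Kbar) * ((s : Kbar) * x)) := (isIntegral_nat t).mul hx
      have h2 : IsIntegral ℤ ((s : Kbar) * ((t : Kbar) * y)) := (isIntegral_nat s).mul hy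
      have e : ((s * t : ℕ) : Kbar) * (x + y)
          = (t : Kbar) * ((s : Kbar) * x) + (s : Kbar) * ((t : Kbar) * y) := by
        push_cast; ring
      rw [e]; exact h1.add h2
  zero_mem' := ⟨1, by
    intro h
    exact hp.out.one_lt.ne' (Nat.dvd_one.1 h), by
    simpa using (isIntegral_zero : IsIntegral ℤ (0 : Kbar))⟩
  neg_mem' := by
    rintro x ⟨s, hs, hx⟩
    refine ⟨s, hs, ?_⟩
    have e : (s : Kbar) * (-x) = -((s : Kbar) * x) := by ring
    rw [e]; exact hx.neg

/-- Reduction of an algebraic number at a place above `p` (zero if not integral). -/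
noncomputable def rho {p : ℕ} [Fact p.Prime] {k : Type} [Field k] (φ : LocInt p →+* k)
    (x : Kbar) : k :=
  open Classical in if h : x ∈ LocInt p then φ ⟨x, h⟩ else 0

/-- Coefficientwise reduction of a power series. -/
noncomputable def redS {p : ℕ} [Fact p.Prime] {k : Type} [Field k] (φ : LocInt p →+* k)
    (F : PowerSeries Kbar) : PowerSeries k :=
  PowerSeries.mk fun n => rho φ (PowerSeries.coeff n F)

/-- Coefficientwise reduction of a polynomial. -/
noncomputable def redP {p : ℕ} [Fact p.Prime] {k : Type} [Field k] (φ : LocInt p →+* k)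
    (F : Polynomial Kbar) : Polynomial k :=
  ∑ i ∈ Finset.range (F.natDegree + 1), Polynomial.monomial i (rho φ (F.coeff i))

/-- The polynomial `∏ (1 - X / a_i)^(κ_i)` over a field. -/
noncomputable def eulP {k : Type} [Field k] {m : ℕ} (a : Fin m → k) (κ : Fin m → ℕ) :
    Polynomial k :=
  ∏ i, (1 - Polynomial.C (a i)⁻¹ * Polynomial.X) ^ (κ i)

/-- Position of the first factor divisible by `p`, in units of `p`: `1 - fract (-v x)`. -/
def pos (v : ℤ) (x : ℚ) : ℚ := 1 - Int.fract (-((v : ℚ) * x))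

/-- Number of indices whose position is smaller than `x`. -/
def cnt {k : ℕ} (v : ℤ) (b : Fin k → ℚ) (x : ℚ) : ℕ :=
  (Finset.univ.filter fun j => pos v (b j) < x).card

/-- The counting condition (P1) for the multiplier `v`. -/
def Cond {k m : ℕ} (b c : Fin k → ℚ) (μ : Fin m → ℚ) (v : ℤ) : Prop :=
  ∀ x : ℚ, 0 < x → x < 1 → x < ∑ i, pos v (μ i) →
    (∀ j, pos v (b j) ≠ x ∧ pos v (c j) ≠ x) → cnt v c x ≤ cnt v b x

end Pool.H61.QF
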