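import Pool.Agent.H61.QF.Pl

/-!
Eisenstein's theorem: an algebraic power series over the algebraic numbers is globally bounded.
-/

set_option autoImplicit false

namespace Pool.H61.QF

open Polynomial

/-- `f` is algebraic over the rational functions. -/
def AlgSeries (f : PowerSeries Kbar) : Prop :=
  ∃ d : ℕ, ∃ Q : ℕ → Polynomial Kbar,
    (∃ i ∈ Finset.range (d + 1), Q i ≠ 0) ∧
    ∑ i ∈ Finset.range (d + 1), ((Q i : Polynomial Kbar) : PowerSeries Kbar) * f ^ i = 0

/-- The ring `Zbar[1/N]`. -/
def RN (N : ℕ) : Subring Kbar where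
  carrier := {x | ∃ e : ℕ, IsIntegral ℤ ((N : Kbar) ^ e * x)}
  mul_mem' := by
    rintro x y ⟨s, hx⟩ ⟨t, hy⟩
    refine ⟨s + t, ?_⟩
    have e : (N : Kbar) ^ (s + t) * (x * y) = (N : Kbar) ^ s * x * ((N : Kbar) ^ t * y) := by
      rw [pow_add]; ring
    rw [e]; exact hx.mul hy
  one_mem' := ⟨0, by simpa using (isIntegral_one : IsIntegral ℤ (1 : Kbar))⟩
  add_mem' := by
    rintro x y ⟨s, hx⟩ ⟨t, hy⟩
    refine ⟨s + t, ?_⟩
    have h1 := ((isIntegral_nat N).pow t).mul hx
    have h2 := ((isIntegral_nat N).pow s).mul hy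
    have e : (N : Kbar) ^ (s + t) * (x + y)
        = (N : Kbar) ^ t * ((N : Kbar) ^ s * x) + (N : Kbar) ^ s * ((N : Kbar) ^ t * y) := by
      rw [pow_add]; ring
    rw [e]; exact h1.add h2
  zero_mem' := ⟨0, by simpa using (isIntegral_zero : IsIntegral ℤ (0 : Kbar))⟩
  neg_mem' := by
    rintro x ⟨s, hx⟩
    refine ⟨s, ?_⟩
    have e : (N : Kbar) ^ s * (-x) = -((N : Kbar) ^ s * x) := by ring
    rw [e]; exact hx.neg

theorem RN_mono {N N' : ℕ} (h : N ∣ N') {x : Kbar} (hx : x ∈ RN N) : x ∈ RN N' := by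
  obtain ⟨t, rfl⟩ := h
  obtain ⟨e, he⟩ := hx
  refine ⟨e, ?_⟩
  have h1 := ((isIntegral_nat t).pow e).mul he
  have e1 : ((N * t : ℕ) : Kbar) ^ e * x = (t : Kbar) ^ e * ((N : Kbar) ^ e * x) := by
    push_cast; ring
  rw [e1]; exact h1

theorem exists_RN (x : Kbar) : ∃ N : ℕ, 1 ≤ N ∧ x ∈ RN N := by
  have hx : IsAlgebraic ℚ x := (AlgebraicClosure.isAlgebraic ℚ).isAlgebraic x
  have hx' : IsAlgebraic ℤ x := (IsFractionRing.isAlgebraic_iff ℤ ℚ Kbar).2 hx
  obtain ⟨y, hy0, hy⟩ := hx'.exists_integral_multiple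
  refine ⟨y.natAbs, Int.natAbs_pos.2 hy0, 1, ?_⟩
  rw [zsmul_eq_mul] at hy
  rw [pow_one]
  rcases Int.natAbs_eq y with h | h
  · have e : ((y.natAbs : ℕ) : Kbar) = ((y : ℤ) : Kbar) := by
      rw [h]; simp
    rw [e]; exact hy
  · have e : ((y.natAbs : ℕ) : Kbar) * x = -(((y : ℤ) : Kbar) * x) := by
      have : ((y : ℤ) : Kbar) = -((y.natAbs : ℕ) : Kbar) := by
        conv_lhs => rw [h]
        simp
      rw [this]; ring
    rw [e]; exact hy.neg

/-- A common `N` for finitely many algebraic numbers. -/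
theorem exists_RN_finset {ι : Type} (s : Finset ι) (x : ι → Kbar) :
    ∃ N : ℕ, 1 ≤ N ∧ ∀ i ∈ s, x i ∈ RN N := by
  classical
  choose g hg1 hg2 using fun i => exists_RN (x i)
  refine ⟨∏ i ∈ s, g i, Finset.one_le_prod' fun i _ => hg1 i, fun i hi => ?_⟩
  exact RN_mono (Finset.dvd_prod_of_mem g hi) (hg2 i)

/-- Power series with coefficients in a subring. -/
def serRN (N : ℕ) : Subring (PowerSeries Kbar) where
  carrier := {F | ∀ n, PowerSeries.coeff n F ∈ RN N}
  mul_mem' := by
    intro F F' h h' n
    rw [PowerSeries.coeff_mul]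
    exact sum_mem fun x _ => mul_mem (h _) (h' _)
  one_mem' := by
    intro n
    rw [PowerSeries.coeff_one]
    split_ifs
    · exact one_mem _
    · exact zero_mem _
  add_mem' := by
    intro F F' h h' n
    rw [map_add]
    exact add_mem (h n) (h' n)
  zero_mem' := by
    intro n
    rw [map_zero]
    exact zero_mem _
  neg_mem' := by
    intro F h n
    rw [map_neg]
    exact neg_mem (h n)

theorem eisenstein (f : PowerSeries Kbar) (h : AlgSeries f) : GloballyBounded f := by
  classical
  -- a polynomial of minimal degree over Kbar[X]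
  let φ : Polynomial Kbar →+* PowerSeries Kbar := Polynomial.coeToPowerSeries.ringHom
  have hφ : ∀ q : Polynomial Kbar, φ q = (q : PowerSeries Kbar) := fun q => rfl
  have hex : ∃ e : ℕ, ∃ P : Polynomial (Polynomial Kbar), P ≠ 0 ∧ P.natDegree = e ∧
      P.eval₂ φ f = 0 := by
    obtain ⟨d, Q, ⟨i, hi, hQi⟩, hQ⟩ := h
    refine ⟨_, ∑ i ∈ Finset.range (d + 1), Polynomial.monomial i (Q i), ?_, rfl, ?_⟩
    · intro h0
      apply hQi
      have := congrArg (fun P : Polynomial (Polynomial Kbar) => P.coeff i) h0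
      simp only [Polynomial.finsetSum_coeff, Polynomial.coeff_monomial] at this
      rw [Finset.sum_ite_eq' (Finset.range (d + 1)) i Q, if_pos hi] at this
      simpa using this
    · rw [Polynomial.eval₂_finsetSum]
      simp only [Polynomial.eval₂_monomial, hφ]
      exact hQ
  obtain ⟨P, hP0, hPe, hPf⟩ := Nat.find_spec hex
  have hmin : ∀ P' : Polynomial (Polynomial Kbar), P' ≠ 0 → P'.natDegree < P.natDegree →
      P'.eval₂ φ f ≠ 0 := by
    intro P' h1 h2 h3
    rw [hPe] at h2
    exact Nat.find_min hex h2 ⟨P', h1, rfl, h3⟩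
  have hdeg : 0 < P.natDegree := by
    by_contra hcon
    have h0 : P.natDegree = 0 := by omega
    rw [Polynomial.natDegree_eq_zero] at h0
    obtain ⟨c, rfl⟩ := h0
    rw [Polynomial.eval₂_C] at hPf
    apply hP0
    have : c = 0 := by
      have h1 : ((c : Polynomial Kbar) : PowerSeries Kbar) = ((0 : Polynomial Kbar) :
          PowerSeries Kbar) := by
        rw [← hφ, hPf]; simp
      exact Polynomial.coe_injective Kbar h1
    rw [this, Polynomial.C_0]
  have hder0 : derivative P ≠ 0 := by
    intro h0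
    have := Polynomial.derivative_eq_zero.1 h0
    omega
  have hder : (derivative P).eval₂ φ f ≠ 0 :=
    hmin _ hder0 (Polynomial.natDegree_derivative_lt hdeg.ne')
  -- the polynomial over the power series ring
  set PP : Polynomial (PowerSeries Kbar) := P.map φ with hPP
  have hPPf : PP.eval f = 0 := by rw [hPP, Polynomial.eval_map]; exact hPf
  have hPPd : (derivative PP).eval f ≠ 0 := by
    rw [hPP, Polynomial.derivative_map, Polynomial.eval_map]; exact hder
  set g : PowerSeries Kbar := (derivative PP).eval f with hg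
  obtain ⟨s, hs1, hs2⟩ : ∃ s : ℕ, PowerSeries.coeff s g ≠ 0 ∧
      ∀ n < s, PowerSeries.coeff n g = 0 := by
    have hexs : ∃ s, PowerSeries.coeff s g ≠ 0 := by
      by_contra hcon
      push Not at hcon
      exact hPPd (PowerSeries.ext fun n => by simpa using hcon n)
    exact ⟨Nat.find hexs, Nat.find_spec hexs, fun n hn => by
      by_contra hh
      exact Nat.find_min hexs hn hh⟩
  -- the integer N
  obtain ⟨N1, hN1, h1⟩ := exists_RN_finset (Finset.range (s + 1))
    (fun n => PowerSeries.coeff n f)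
  obtain ⟨N2, hN2, h2⟩ := exists_RN (PowerSeries.coeff s g)⁻¹
  obtain ⟨N3, hN3, h3⟩ := exists_RN_finset
    (P.support.biUnion fun i => (P.coeff i).support.image fun j => (i, j))
    (fun x : ℕ × ℕ => (P.coeff x.1).coeff x.2)
  have hcoef : ∀ i j, (P.coeff i).coeff j ∈ RN N3 := by
    intro i j
    by_cases hi : i ∈ P.support
    · by_cases hj : j ∈ (P.coeff i).support
      · exact h3 (i, j) (Finset.mem_biUnion.2 ⟨i, hi, Finset.mem_image.2 ⟨j, hj, rfl⟩⟩)
      · rw [Polynomial.notMem_support_iff.1 hj]; exact zero_mem _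
    · rw [Polynomial.notMem_support_iff.1 hi, Polynomial.coeff_zero]; exact zero_mem _
  set N := N1 * N2 * N3 with hN
  have hNpos : 1 ≤ N := Nat.mul_pos (Nat.mul_pos hN1 hN2) hN3
  have hPN : ∀ i, PP.coeff i ∈ serRN N := by
    intro i n
    rw [hPP, Polynomial.coeff_map, hφ, Polynomial.coeff_coe]
    exact RN_mono (Dvd.intro_left _ rfl) (hcoef i n)
  have heval : ∀ F ∈ serRN N, PP.eval F ∈ serRN N := by
    intro F hF
    rw [Polynomial.eval_eq_sum]
    exact sum_mem fun i _ => mul_mem (hPN i) (pow_mem hF i)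
  have hu : (PowerSeries.coeff s g)⁻¹ ∈ RN N :=
    RN_mono (by rw [hN]; exact ⟨N1 * N3, by ring⟩) h2
  refine ⟨N, hNpos, fun n => ?_⟩
  change PowerSeries.coeff n f ∈ RN N
  induction n using Nat.strong_induction_on with
  | _ n ih =>
    by_cases hn : n ≤ s
    · exact RN_mono (by rw [hN]; exact ⟨N2 * N3, by ring⟩)
        (h1 n (Finset.mem_range.2 (by omega)))
    · push Not at hn
      set F : PowerSeries Kbar := PowerSeries.mk fun i =>
        if i < n then PowerSeries.coeff i f else 0 with hF
      have hFmem : F ∈ serRN N := by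
        intro i
        rw [hF, PowerSeries.coeff_mk]
        split_ifs with hi
        · exact ih i hi
        · exact zero_mem _
      have hdiff : ∀ i < n, PowerSeries.coeff i (f - F) = 0 := by
        intro i hi
        rw [map_sub, hF, PowerSeries.coeff_mk, if_pos hi, sub_self]
      have hdn : PowerSeries.coeff n (f - F) = PowerSeries.coeff n f := by
        rw [map_sub, hF, PowerSeries.coeff_mk, if_neg (lt_irrefl n), sub_zero]
      obtain ⟨Z, hZ⟩ := (PowerSeries.X_pow_dvd_iff (n := n) (φ := f - F)).2 hdiff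
      -- expansions
      obtain ⟨k1, hk1⟩ : ∃ k1, PP.eval f = PP.eval F + (derivative PP).eval F * (f - F)
          + k1 * (f - F) ^ 2 := by
        refine ⟨(PP.binomExpansion F (f - F)).1, ?_⟩
        have := (PP.binomExpansion F (f - F)).2
        rw [← this]
        congr 1
        ring
      obtain ⟨k2, hk2⟩ : ∃ k2, g = (derivative PP).eval F + k2 * (f - F) := by
        obtain ⟨c, hc⟩ := Polynomial.sub_dvd_eval_sub f F (derivative PP)
        exact ⟨c, by rw [hg]; linear_combination hc⟩
      have hmain : PP.eval F + g * (f - F) + (k1 - k2) * (f - F) ^ 2 = 0 := by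
        rw [← hPPf, hk1, hk2]; ring
      have hc1 : PowerSeries.coeff (n + s) (g * (f - F))
          = PowerSeries.coeff s g * PowerSeries.coeff n f := by
        rw [PowerSeries.coeff_mul, Finset.sum_eq_single (s, n)]
        · rw [hdn]
        · rintro ⟨i, j⟩ hij hne
          rw [Finset.HasAntidiagonal.mem_antidiagonal] at hij
          simp only at hij ⊢
          rcases lt_trichotomy i s with hlt | heq | hgt
          · rw [hs2 i hlt, zero_mul]
          · exfalso
            apply hne
            rw [Prod.mk.injEq]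
            exact ⟨heq, by omega⟩
          · rw [hdiff j (by omega), mul_zero]
        · intro hne
          exfalso
          apply hne
          rw [Finset.HasAntidiagonal.mem_antidiagonal]
          simp only
          omega
      have hc2 : PowerSeries.coeff (n + s) ((k1 - k2) * (f - F) ^ 2) = 0 := by
        have hdvd : (PowerSeries.X : PowerSeries Kbar) ^ (2 * n) ∣ (k1 - k2) * (f - F) ^ 2 := by
          refine Dvd.dvd.mul_left ?_ _
          rw [hZ]
          exact ⟨Z ^ 2, by rw [mul_comm 2 n, pow_mul]; ring⟩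
        exact (PowerSeries.X_pow_dvd_iff.1 hdvd) (n + s) (by omega)
      have hfin := congrArg (PowerSeries.coeff (n + s)) hmain
      rw [map_add, map_add, hc1, hc2, map_zero, add_zero] at hfin
      have hsol : PowerSeries.coeff n f
          = (PowerSeries.coeff s g)⁻¹ * -PowerSeries.coeff (n + s) (PP.eval F) := by
        rw [eq_comm, inv_mul_eq_iff_eq_mul₀ hs1]
        linear_combination -hfin
      rw [hsol]
      exact mul_mem hu (neg_mem (heval F hFmem (n + s)))

end Pool.H61.QF
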