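import Pool.Agent.H61.QF.Po1

/-!
Module Po2 (uses the definitions of Po1; any field `k` of characteristic `p`): orders at `a_i`.

PROOF of `pow_dvd_T`. Fix `i₀`, put `t = X - C a` with `a = a_{i₀}`, `κ = κ_{i₀}`. Suppose
`t^κ` does not divide `T`; since `T ≠ 0`, write `T = t^o T1` with `o < κ`, `T1(a) ≠ 0`
(`Polynomial.exists_eq_pow_rootMultiplicity_mul_and_not_dvd`). Write `Q = t Q1` with
`Q1(a) ≠ 0` (`1 - C a⁻¹ X = - C a⁻¹ t`; the other factors do not vanish at `a` because the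
`a_i` are distinct). Facts at `a`: `Q(a) = 0`, `Q'(a) = Q1(a)`, and `R(a) = κ Q1(a)` (only the
term `i = i₀` of `R` survives: `κ (-a⁻¹) ∏_{l ≠ i₀} (1 - a/a_l)`, and
`Q1 = - C a⁻¹ ∏_{l ≠ i₀}`).
Claim: for all `i` there is a polynomial `M i` with `numP i = t^o M i` and
`(M i)(a) = (∏_{j<i} (o - κ - j)) Q1(a)^i T1(a)`. Induction:
`Q (t^o M)' = t Q1 (o t^(o-1) M + t^o M') = t^o (o Q1 M + t Q1 M')` (for `o = 0` the first term
is zero as well), so `M (i+1) = o Q1 M i + t Q1 (M i)' - (R + i Q') M i`, with value at `a`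
`(o - κ - i) Q1(a) (M i)(a)`.
Then `0 = W = t^o ∑ q_i Q^(r-i) M i`; cancel `t^o` and evaluate at `a`: only `i = r` survives, so
`q_r(a) (M r)(a) = 0`. But `o - κ - j = -(κ - o + j)` with `1 ≤ κ - o + j ≤ κ + r - 1 < p`, so
it is nonzero in `k`. Contradiction (for `r = 0` the product is empty and `T1(a) ≠ 0`).

PROOF of `sum_le`: the `(X - C a_i)^(κ_i)` are pairwise coprime, so their product divides `T`
(`Finset.prod_dvd_of_coprime`), and it has degree `∑ κ_i` (it is monic).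
-/

set_option autoImplicit false

namespace Pool.H61.QF

open Polynomial

variable {k : Type} [Field k]

/-- The cofactor of `X - a_{i₀}` in `Q`. -/
private noncomputable def po2Q {m : ℕ} (a : Fin m → k) (i₀ : Fin m) : Polynomial k :=
  C (-(a i₀)⁻¹) * ∏ l ∈ Finset.univ.erase i₀, (1 - C (a l)⁻¹ * X)

private theorem po2_QP {m : ℕ} (a : Fin m → k) (i₀ : Fin m) (h0 : a i₀ ≠ 0) :
    QP a = (X - C (a i₀)) * po2Q a i₀ := by
  unfold QP po2Q
  rw [← Finset.mul_prod_erase Finset.univ _ (Finset.mem_univ i₀)]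
  have h1 : (1 - C (a i₀)⁻¹ * X : Polynomial k) = (X - C (a i₀)) * C (-(a i₀)⁻¹) := by
    have h2 : (C (a i₀) * C (a i₀)⁻¹ : Polynomial k) = 1 := by
      rw [← C_mul, mul_inv_cancel₀ h0, C_1]
    rw [C_neg]
    linear_combination -h2
  rw [h1]
  ring

private theorem po2_prod {m : ℕ} (a : Fin m → k) (ha0 : ∀ i, a i ≠ 0)
    (hinj : Function.Injective a) (i₀ : Fin m) :
    (∏ l ∈ Finset.univ.erase i₀, (1 - C (a l)⁻¹ * X : Polynomial k)).eval (a i₀) ≠ 0 := by
  rw [eval_prod, Finset.prod_ne_zero_iff]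
  intro l hl h
  rw [Finset.mem_erase] at hl
  simp only [eval_sub, eval_one, eval_mul, eval_C, eval_X] at h
  refine hl.1 (hinj ?_)
  have h1 : (a l)⁻¹ * a i₀ = 1 := (sub_eq_zero.mp h).symm
  calc a l = a l * ((a l)⁻¹ * a i₀) := by rw [h1, mul_one]
    _ = a i₀ := mul_inv_cancel_left₀ (ha0 l) _

private theorem po2_RP {m : ℕ} (a : Fin m → k) (κ : Fin m → ℕ) (i₀ : Fin m) (h0 : a i₀ ≠ 0) :
    (RP a κ).eval (a i₀) = (κ i₀ : k) * (po2Q a i₀).eval (a i₀) := by
  unfold RP po2Q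
  rw [eval_finsetSum, Finset.sum_eq_single i₀]
  · simp only [eval_mul, eval_C]
    ring
  · intro i _ hi
    rw [eval_mul, eval_prod]
    have h1 : i₀ ∈ Finset.univ.erase i := Finset.mem_erase.mpr ⟨hi.symm, Finset.mem_univ _⟩
    rw [Finset.prod_eq_zero h1, mul_zero]
    simp [h0]
  · intro h
    exact absurd (Finset.mem_univ _) h

/-- `numP i` divided by the power of `X - a_{i₀}`. -/
private noncomputable def po2M {m : ℕ} (a : Fin m → k) (κ : Fin m → ℕ) (i₀ : Fin m) (o : ℕ)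
    (T1 : Polynomial k) : ℕ → Polynomial k
  | 0 => T1
  | i + 1 => C (o : k) * po2Q a i₀ * po2M a κ i₀ o T1 i
      + (X - C (a i₀)) * po2Q a i₀ * derivative (po2M a κ i₀ o T1 i)
      - (RP a κ + (i : Polynomial k) * derivative (QP a)) * po2M a κ i₀ o T1 i

private theorem po2_num {m : ℕ} (a : Fin m → k) (κ : Fin m → ℕ) (i₀ : Fin m) (h0 : a i₀ ≠ 0)
    (o : ℕ) (T1 : Polynomial k) (i : ℕ) :
    numP a κ ((X - C (a i₀)) ^ o * T1) i = (X - C (a i₀)) ^ o * po2M a κ i₀ o T1 i := by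
  induction i with
  | zero => rfl
  | succ i ih =>
    rw [numP, ih, po2M]
    have h1 : (X - C (a i₀)) * derivative ((X - C (a i₀)) ^ o) =
        C (o : k) * (X - C (a i₀)) ^ o := by
      rcases o with _ | o
      · simp
      · rw [derivative_X_sub_C_pow, Nat.add_sub_cancel, pow_succ]
        simp only [map_natCast]
        ring
    rw [derivative_mul]
    have h2 := po2_QP a i₀ h0
    calc _ = po2Q a i₀ * po2M a κ i₀ o T1 i * ((X - C (a i₀)) *
            derivative ((X - C (a i₀)) ^ o)) +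
          (QP a - (X - C (a i₀)) * po2Q a i₀) * derivative ((X - C (a i₀)) ^ o) *
            po2M a κ i₀ o T1 i +
          QP a * ((X - C (a i₀)) ^ o * derivative (po2M a κ i₀ o T1 i)) -
          (RP a κ + (i : Polynomial k) * derivative (QP a)) *
            ((X - C (a i₀)) ^ o * po2M a κ i₀ o T1 i) := by ring
      _ = po2Q a i₀ * po2M a κ i₀ o T1 i * (C (o : k) * (X - C (a i₀)) ^ o) +
          (X - C (a i₀)) * po2Q a i₀ *
            ((X - C (a i₀)) ^ o * derivative (po2M a κ i₀ o T1 i)) -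
          (RP a κ + (i : Polynomial k) * derivative (QP a)) *
            ((X - C (a i₀)) ^ o * po2M a κ i₀ o T1 i) := by
          rw [h1, ← h2, sub_self, zero_mul, zero_mul, add_zero]
      _ = _ := by ring

private theorem po2_eval {m : ℕ} (a : Fin m → k) (κ : Fin m → ℕ) (i₀ : Fin m) (h0 : a i₀ ≠ 0)
    (o : ℕ) (T1 : Polynomial k) (i : ℕ) :
    (po2M a κ i₀ o T1 i).eval (a i₀) =
      (∏ j ∈ Finset.range i, ((o : k) - κ i₀ - j)) * (po2Q a i₀).eval (a i₀) ^ i *
        T1.eval (a i₀) := by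
  induction i with
  | zero => simp [po2M]
  | succ i ih =>
    have h1 : (derivative (QP a)).eval (a i₀) = (po2Q a i₀).eval (a i₀) := by
      rw [po2_QP a i₀ h0, derivative_mul]
      simp
    rw [po2M]
    simp only [eval_sub, eval_add, eval_mul, eval_C, eval_X, eval_natCast, sub_self, zero_mul,
      add_zero]
    rw [h1, po2_RP a κ i₀ h0, ih, Finset.prod_range_succ, pow_succ]
    ring

theorem pow_dvd_T (p : ℕ) [Fact p.Prime] [CharP k p] {m r : ℕ} (a : Fin m → k)
    (ha0 : ∀ i, a i ≠ 0) (hinj : Function.Injective a) (κ : Fin m → ℕ)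
    (hκ : ∀ i, κ i + r ≤ p) (q : ℕ → Polynomial k) (hqa : ∀ i, (q r).eval (a i) ≠ 0)
    (T : Polynomial k) (hT : T ≠ 0) (hW : WP a κ T r q = 0) (i₀ : Fin m) :
    (X - C (a i₀)) ^ (κ i₀) ∣ T := by
  by_contra hcon
  obtain ⟨T1, hT1, hT1'⟩ := exists_eq_pow_rootMultiplicity_mul_and_not_dvd T hT (a i₀)
  set o := rootMultiplicity (a i₀) T with ho
  have ho' : o < κ i₀ := by
    by_contra h
    refine hcon ?_
    rw [hT1]
    exact (pow_dvd_pow _ (not_lt.mp h)).mul_right _
  have hT1a : T1.eval (a i₀) ≠ 0 := by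
    intro h
    exact hT1' (dvd_iff_isRoot.mpr h)
  have h1 : WP a κ T r q = (X - C (a i₀)) ^ o *
      ∑ i ∈ Finset.range (r + 1), q i * QP a ^ (r - i) * po2M a κ i₀ o T1 i := by
    unfold WP
    rw [Finset.mul_sum]
    refine Finset.sum_congr rfl fun i _ => ?_
    have h2 : numP a κ T i = (X - C (a i₀)) ^ o * po2M a κ i₀ o T1 i := by
      conv_lhs => rw [hT1]
      exact po2_num a κ i₀ (ha0 i₀) o T1 i
    rw [h2]
    ring
  rw [h1] at hW
  have h3 : ∑ i ∈ Finset.range (r + 1), q i * QP a ^ (r - i) * po2M a κ i₀ o T1 i = 0 :=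
    (mul_eq_zero.mp hW).resolve_left (pow_ne_zero _ (X_sub_C_ne_zero _))
  have h4 := congrArg (fun F => eval (a i₀) F) h3
  simp only [eval_finsetSum, eval_zero] at h4
  have hQ0 : (QP a).eval (a i₀) = 0 := by
    rw [po2_QP a i₀ (ha0 i₀)]
    simp
  rw [Finset.sum_range_succ, Finset.sum_eq_zero, zero_add] at h4
  · rw [Nat.sub_self, pow_zero, mul_one, eval_mul, po2_eval a κ i₀ (ha0 i₀)] at h4
    have hQ1 : (po2Q a i₀).eval (a i₀) ≠ 0 := by
      unfold po2Q
      rw [eval_mul, eval_C]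
      exact mul_ne_zero (neg_ne_zero.mpr (inv_ne_zero (ha0 i₀))) (po2_prod a ha0 hinj i₀)
    have h5 : ∏ j ∈ Finset.range r, ((o : k) - κ i₀ - j) = 0 := by
      rcases mul_eq_zero.mp h4 with h | h
      · exact absurd h (hqa i₀)
      · rcases mul_eq_zero.mp h with h | h
        · rcases mul_eq_zero.mp h with h | h
          · exact h
          · exact absurd h (pow_ne_zero _ hQ1)
        · exact absurd h hT1a
    obtain ⟨j, hj, hj0⟩ := Finset.prod_eq_zero_iff.mp h5
    rw [Finset.mem_range] at hj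
    have h6 : ((κ i₀ - o + j : ℕ) : k) = 0 := by
      rw [Nat.cast_add, Nat.cast_sub ho'.le]
      linear_combination -hj0
    rw [CharP.cast_eq_zero_iff k p] at h6
    have h7 := Nat.le_of_dvd (by omega) h6
    have h8 := hκ i₀
    omega
  · intro i hi
    rw [Finset.mem_range] at hi
    rw [eval_mul, eval_mul, eval_pow, hQ0, zero_pow (by omega), mul_zero, zero_mul]

theorem sum_le {m : ℕ} (a : Fin m → k) (hinj : Function.Injective a) (κ : Fin m → ℕ)
    (T : Polynomial k) (hT : T ≠ 0) (h : ∀ i, (X - C (a i)) ^ (κ i) ∣ T) :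
    ∑ i, κ i ≤ T.natDegree := by
  have h1 : ∏ i, (X - C (a i)) ^ (κ i) ∣ T := by
    refine Finset.prod_dvd_of_coprime ?_ fun i _ => h i
    intro i _ j _ hij
    exact (pairwise_coprime_X_sub_C hinj hij).pow
  have h2 := natDegree_le_of_dvd h1 hT
  rw [natDegree_prod_of_monic _ _ fun i _ => (monic_X_sub_C (a i)).pow (κ i)] at h2
  refine le_trans (le_of_eq (Finset.sum_congr rfl fun i _ => ?_)) h2
  rw [natDegree_pow, natDegree_X_sub_C, mul_one]

end Pool.H61.QF
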