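import Pool.Agent.H61.QF.Defs

/-!
Module Pl (Mathlib only): the ring `LocInt p` and its residue fields.

PROOFS.
* `locInt_rat`: take `s = x.den`; `x.den * x = x.num` is an integer.
* `eventually_mem`: `x` is algebraic over `ℚ` (hence over `ℤ`), so there is `M ≥ 1` (a natural
  number) with `M x` integral (`exists_integral_multiple` / `IsAlgebraic` lemmas; sign of the
  integer is irrelevant, use natAbs). For a prime `p ≥ M + 1` we have `¬ p ∣ M`.
* `not_unit`: if `p y = 1` with `y` in `LocInt p`, then `s y` is integral with `¬ p ∣ s` and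
  `s y = s / p` is a rational number integral over `ℤ`, hence an integer, so `p ∣ s`.
* `exists_res`: a maximal ideal `M` of `LocInt p` containing `p` exists by `not_unit`; take
  `k = LocInt p ⧸ M`; `p = 0` in `k`, so the characteristic is `p`.
* `locInt_of_pow`: `N^e` is not divisible by `p`.
-/

set_option autoImplicit false

namespace Pool.H61.QF

theorem locInt_rat (p : ℕ) [Fact p.Prime] (x : ℚ) (h : ¬ p ∣ x.den) :
    ((x : ℚ) : Kbar) ∈ LocInt p := by
  refine ⟨x.den, h, ?_⟩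
  have e : ((x.den : ℕ) : Kbar) * ((x : ℚ) : Kbar) = ((x.num : ℤ) : Kbar) := by
    have h1 : (x.den : ℚ) * x = x.num := by rw [mul_comm, Rat.mul_den_eq_num]
    exact_mod_cast congrArg (fun z : ℚ => (z : Kbar)) h1
  rw [e]
  have h2 := isIntegral_algebraMap (R := ℤ) (A := Kbar) (x := x.num)
  simpa using h2

theorem locInt_of_pow (p : ℕ) [hp : Fact p.Prime] (N : ℕ) (hN : ¬ p ∣ N) (e : ℕ) (x : Kbar)
    (h : IsIntegral ℤ ((N : Kbar) ^ e * x)) : x ∈ LocInt p := by
  refine ⟨N ^ e, fun hd => hN (hp.out.dvd_of_dvd_pow hd), ?_⟩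
  push_cast
  exact h

theorem eventually_mem (x : Kbar) :
    ∃ P0 : ℕ, ∀ (p : ℕ) [Fact p.Prime], P0 ≤ p → x ∈ LocInt p := by
  have hx : IsAlgebraic ℚ x := (AlgebraicClosure.isAlgebraic ℚ).isAlgebraic x
  have hx' : IsAlgebraic ℤ x := (IsFractionRing.isAlgebraic_iff ℤ ℚ Kbar).2 hx
  obtain ⟨y, hy0, hy⟩ := hx'.exists_integral_multiple
  refine ⟨y.natAbs + 1, fun p hp hle => ⟨y.natAbs, ?_, ?_⟩⟩
  · intro hdvd
    have h1 : 0 < y.natAbs := Int.natAbs_pos.2 hy0
    have := Nat.le_of_dvd h1 hdvd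
    omega
  · rw [zsmul_eq_mul] at hy
    rcases Int.natAbs_eq y with h | h
    · have e : ((y.natAbs : ℕ) : Kbar) = ((y : ℤ) : Kbar) := by
        rw [h]; simp
      rw [e]; exact hy
    · have e : ((y.natAbs : ℕ) : Kbar) * x = -(((y : ℤ) : Kbar) * x) := by
        have : ((y : ℤ) : Kbar) = -((y.natAbs : ℕ) : Kbar) := by
          conv_lhs => rw [h]
          simp
        rw [this]; ring
      rw [e]; exact hy.neg

theorem not_unit (p : ℕ) [hp : Fact p.Prime] (y : Kbar) (hy : y ∈ LocInt p) :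
    (p : Kbar) * y ≠ 1 := by
  intro h
  obtain ⟨s, hs, hint⟩ := hy
  have hp0 : (p : Kbar) ≠ 0 := by exact_mod_cast hp.out.ne_zero
  have hy' : y = ((p : Kbar))⁻¹ := by
    field_simp
    rw [mul_comm]; exact h
  have e : (s : Kbar) * y = algebraMap ℚ Kbar ((s : ℚ) / p) := by
    rw [hy']
    simp [div_eq_mul_inv]
  rw [e] at hint
  have hint' : IsIntegral ℤ ((s : ℚ) / p) :=
    (isIntegral_algebraMap_iff (algebraMap ℚ Kbar).injective).1 hint
  obtain ⟨z, hz⟩ := IsIntegrallyClosed.algebraMap_eq_of_integral hint'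
  have hp0' : (p : ℚ) ≠ 0 := by exact_mod_cast hp.out.ne_zero
  have hz' : (z : ℚ) * p = s := by
    have : (z : ℚ) = (s : ℚ) / p := by simpa using hz
    rw [this]; field_simp
  have hz'' : z * (p : ℤ) = (s : ℤ) := by exact_mod_cast hz'
  apply hs
  have : (p : ℤ) ∣ (s : ℤ) := ⟨z, by rw [← hz'']; ring⟩
  exact_mod_cast this

theorem exists_res (p : ℕ) [hp : Fact p.Prime] :
    ∃ (k : Type) (_ : Field k) (_ : CharP k p), Nonempty (LocInt p →+* k) := by
  have hpm : ((p : ℕ) : LocInt p) ∈ nonunits (LocInt p) := by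
    rw [mem_nonunits_iff]
    intro hu
    obtain ⟨y, hy⟩ := hu.exists_right_inv
    have h1 := congrArg (fun z : LocInt p => (z : Kbar)) hy
    apply not_unit p (y : Kbar) y.2
    simpa using h1
  obtain ⟨I, hI, hpI⟩ := exists_max_ideal_of_mem_nonunits hpm
  let _ : Field (LocInt p ⧸ I) := Ideal.Quotient.field I
  have h0 : ((p : ℕ) : LocInt p ⧸ I) = 0 := by
    have := Ideal.Quotient.eq_zero_iff_mem.2 hpI
    simpa using this
  have hchar : CharP (LocInt p ⧸ I) p := by
    rcases CharP.exists (LocInt p ⧸ I) with ⟨c, hc⟩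
    have hdvd : c ∣ p := (CharP.cast_eq_zero_iff (LocInt p ⧸ I) c p).1 h0
    rcases (Nat.dvd_prime hp.out).1 hdvd with h | h
    · exfalso
      rw [h] at hc
      exact CharP.char_ne_one (LocInt p ⧸ I) 1 rfl
    · subst h; exact hc
  exact ⟨LocInt p ⧸ I, inferInstance, hchar, ⟨Ideal.Quotient.mk I⟩⟩

end Pool.H61.QF
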