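import Pool.Agent.H61.QF.Rd1
import Pool.Agent.H61.QF.Pl

/-!
Module Rd2 (uses the statements of Rd1 and Pl): reduction of `∏ binSer * G` and of the
differential equation modulo a place above `p`.

PROOFS.
* `binSer_red`: for `n < p` the number `n!` is prime to `p` and `poch μ n / n!` has denominator
  prime to `p` (the denominator of `μ` is prime to `p` because `μ = p y - κ`). Modulo `p`,
  `μ + i = p y - κ + i` reduces to `-κ + i`, so `poch μ n / n!` reduces to
  `∏_{i<n} (i - κ) / n! = (-1)^n choose κ n` in `k`. The coefficient of `X^n` in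
  `(1 - C a⁻¹ X)^κ` is `choose κ n * (-a⁻¹)^n`. (Multiply by `n!`, nonzero in `k`.)
* `reduction`: first part from `binSer_red`, `redS_prod`, `redS_mul`. Second part: the
  coefficients `n` with `n + r < p` of `q_i * D^i G` reduce by `redS_mul` (with `L = p - r`)
  and `redS_deriv`; `redS φ (q_i) = redP φ (q_i)` as power series; sum over `i`.
-/

set_option autoImplicit false

namespace Pool.H61.QF

variable {p : ℕ} [hp : Fact p.Prime] {k : Type} [Field k] [CharP k p] (φ : LocInt p →+* k)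

omit hp in
/-- equality of the coefficients below `L` is preserved by products -/
private theorem rd2_mul {R : Type} [CommRing R] {L : ℕ} {F F' G G' : PowerSeries R}
    (h : ∀ n < L, PowerSeries.coeff n F = PowerSeries.coeff n F')
    (h' : ∀ n < L, PowerSeries.coeff n G = PowerSeries.coeff n G') :
    ∀ n < L, PowerSeries.coeff n (F * G) = PowerSeries.coeff n (F' * G') := by
  intro n hn
  rw [PowerSeries.coeff_mul, PowerSeries.coeff_mul]
  refine Finset.sum_congr rfl fun x hx => ?_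
  have hx' := Finset.HasAntidiagonal.mem_antidiagonal.1 hx
  rw [h x.1 (by omega), h' x.2 (by omega)]

omit hp in
private theorem rd2_prod {R : Type} [CommRing R] {L : ℕ} {ι : Type} (s : Finset ι)
    (F F' : ι → PowerSeries R)
    (h : ∀ i ∈ s, ∀ n < L, PowerSeries.coeff n (F i) = PowerSeries.coeff n (F' i)) :
    ∀ n < L, PowerSeries.coeff n (∏ i ∈ s, F i) = PowerSeries.coeff n (∏ i ∈ s, F' i) := by
  classical
  induction s using Finset.induction_on with
  | empty => intro n _; simp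
  | insert a s ha ih =>
    rw [Finset.prod_insert ha, Finset.prod_insert ha]
    exact rd2_mul (h a (Finset.mem_insert_self a s))
      (ih fun i hi => h i (Finset.mem_insert_of_mem hi))

omit [CharP k p] in
private theorem rd2_nat_mem (n : ℕ) : ((n : ℕ) : Kbar) ∈ LocInt p := natCast_mem (LocInt p) n

theorem rho_rat_zero (x y : ℚ) (h : x = p * y) (hy : ¬ p ∣ y.den) :
    rho φ ((x : ℚ) : Kbar) = 0 := by
  have e : ((x : ℚ) : Kbar) = ((p : ℕ) : Kbar) * ((y : ℚ) : Kbar) := by
    rw [h]; push_cast; rfl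
  rw [e, rho_mul φ (natCast_mem (LocInt p) p) (locInt_rat p y hy), rho_natCast,
    CharP.cast_eq_zero, zero_mul]

private theorem rd2_mu (μ : ℚ) (κ : ℕ) (hκ : ∃ y : ℚ, μ + κ = p * y ∧ ¬ p ∣ y.den) :
    ((μ : ℚ) : Kbar) ∈ LocInt p ∧ rho φ ((μ : ℚ) : Kbar) = -(κ : k) := by
  obtain ⟨y, hy, hyd⟩ := hκ
  have e : ((μ : ℚ) : Kbar) = ((p : ℕ) : Kbar) * ((y : ℚ) : Kbar) - ((κ : ℕ) : Kbar) := by
    have h1 : μ = p * y - κ := by linarith
    rw [h1]; push_cast; ring
  have hp1 : ((p : ℕ) : Kbar) ∈ LocInt p := natCast_mem (LocInt p) p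
  have hk1 : ((κ : ℕ) : Kbar) ∈ LocInt p := natCast_mem (LocInt p) κ
  have hy1 := locInt_rat p y hyd
  have hpy := (LocInt p).mul_mem hp1 hy1
  refine ⟨?_, ?_⟩
  · rw [e]; exact (LocInt p).sub_mem hpy hk1
  · rw [e, rho_sub φ hpy hk1, rho_mul φ hp1 hy1, rho_natCast, rho_natCast, CharP.cast_eq_zero,
      zero_mul, zero_sub]

private theorem rd2_poch (μ : ℚ) (κ : ℕ) (hκ : ∃ y : ℚ, μ + κ = p * y ∧ ¬ p ∣ y.den) (n : ℕ) :
    ((poch μ n : ℚ) : Kbar) ∈ LocInt p ∧
      rho φ ((poch μ n : ℚ) : Kbar) = ∏ i ∈ Finset.range n, (-(κ : k) + i) := by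
  obtain ⟨hm, hr⟩ := rd2_mu φ μ κ hκ
  induction n with
  | zero =>
    have e : ((poch μ 0 : ℚ) : Kbar) = 1 := by simp [poch]
    rw [e]
    exact ⟨(LocInt p).one_mem, by rw [rho_one]; simp⟩
  | succ n ih =>
    have e : ((poch μ (n + 1) : ℚ) : Kbar) =
        ((poch μ n : ℚ) : Kbar) * (((μ : ℚ) : Kbar) + ((n : ℕ) : Kbar)) := by
      unfold poch
      rw [Finset.prod_range_succ]
      push_cast
      rfl
    have hn : ((n : ℕ) : Kbar) ∈ LocInt p := natCast_mem (LocInt p) n
    have h1 := (LocInt p).add_mem hm hn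
    rw [e]
    refine ⟨(LocInt p).mul_mem ih.1 h1, ?_⟩
    rw [rho_mul φ ih.1 h1, ih.2, rho_add φ hm hn, hr, rho_natCast, Finset.prod_range_succ]

omit hp in
private theorem rd2_coeff {K : Type} [Field K] (α : K) (κ n : ℕ) :
    ((1 - Polynomial.C α * Polynomial.X : Polynomial K) ^ κ).coeff n =
      (κ.choose n : K) * (-α) ^ n := by
  have e : (1 - Polynomial.C α * Polynomial.X : Polynomial K) ^ κ =
      ((1 + Polynomial.X : Polynomial K) ^ κ).comp (Polynomial.C (-α) * Polynomial.X) := by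
    rw [Polynomial.pow_comp, Polynomial.add_comp, Polynomial.one_comp, Polynomial.X_comp,
      Polynomial.C_neg]
    ring
  rw [e, Polynomial.comp_C_mul_X_coeff, Polynomial.coeff_one_add_X_pow]

omit hp in
private theorem rd2_desc {K : Type} [Field K] (κ n : ℕ) :
    ∏ i ∈ Finset.range n, (-(κ : K) + i) =
      (-1) ^ n * ((n.factorial : K) * (κ.choose n : K)) := by
  have h1 : ((κ.descFactorial n : ℕ) : K) = ∏ i ∈ Finset.range n, ((κ : K) - i) := by
    rw [← descPochhammer_eval_eq_descFactorial, descPochhammer_eval_eq_prod_range]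
  have h2 : ((κ.descFactorial n : ℕ) : K) = (n.factorial : K) * (κ.choose n : K) := by
    rw [Nat.descFactorial_eq_factorial_mul_choose]; push_cast; rfl
  rw [← h2, h1]
  have h3 : ∀ i ∈ Finset.range n, (-(κ : K) + i) = (-1) * ((κ : K) - i) := by
    intro i _; ring
  rw [Finset.prod_congr rfl h3, Finset.prod_mul_distrib, Finset.prod_const, Finset.card_range]

theorem binSer_red (μ : ℚ) (a : Kbar) (κ : ℕ) (hκ : ∃ y : ℚ, μ + κ = p * y ∧ ¬ p ∣ y.den)
    (ha0 : a ≠ 0) (ha : a ∈ LocInt p) (hai : a⁻¹ ∈ LocInt p) :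
    ∀ n < p, PowerSeries.coeff n (binSer μ a) ∈ LocInt p ∧
      rho φ (PowerSeries.coeff n (binSer μ a))
        = ((1 - Polynomial.C (rho φ a)⁻¹ * Polynomial.X : Polynomial k) ^ κ).coeff n := by
  intro n hn
  have hfac : ¬ p ∣ n.factorial := by
    rw [hp.out.dvd_factorial]; omega
  have hfk : (n.factorial : k) ≠ 0 := by
    rw [Ne, CharP.cast_eq_zero_iff k p]
    exact hfac
  have hfK : ((n.factorial : ℕ) : Kbar) ≠ 0 := by
    exact_mod_cast n.factorial_ne_zero
  have hinv : (((n.factorial : ℕ) : Kbar))⁻¹ ∈ LocInt p :=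
    ⟨n.factorial, hfac, by rw [mul_inv_cancel₀ hfK]; exact isIntegral_one⟩
  obtain ⟨hpm, hpr⟩ := rd2_poch φ μ κ hκ n
  have e1 : ((poch μ n / (n.factorial : ℚ) : ℚ) : Kbar) =
      ((poch μ n : ℚ) : Kbar) * (((n.factorial : ℕ) : Kbar))⁻¹ := by
    rw [Rat.cast_div, Rat.cast_natCast, div_eq_mul_inv]
  have hcm : ((poch μ n / (n.factorial : ℚ) : ℚ) : Kbar) ∈ LocInt p := by
    rw [e1]; exact (LocInt p).mul_mem hpm hinv
  have hcr : rho φ ((poch μ n / (n.factorial : ℚ) : ℚ) : Kbar) =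
      (-1) ^ n * (κ.choose n : k) := by
    have h1 : (n.factorial : k) * rho φ ((poch μ n / (n.factorial : ℚ) : ℚ) : Kbar) =
        rho φ ((poch μ n : ℚ) : Kbar) := by
      rw [← rho_natCast φ n.factorial, ← rho_mul φ (natCast_mem (LocInt p) _) hcm, e1]
      congr 1
      field_simp
    rw [hpr, rd2_desc] at h1
    refine mul_left_cancel₀ hfk ?_
    rw [h1]; ring
  have hpow : (a⁻¹) ^ n ∈ LocInt p := (LocInt p).pow_mem hai n
  have e2 : PowerSeries.coeff n (binSer μ a) =
      ((poch μ n / (n.factorial : ℚ) : ℚ) : Kbar) * (a⁻¹) ^ n := by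
    unfold binSer
    rw [PowerSeries.coeff_mk]
  rw [e2]
  refine ⟨(LocInt p).mul_mem hcm hpow, ?_⟩
  rw [rho_mul φ hcm hpow, rho_pow φ hai, rho_inv φ ha hai ha0, hcr, rd2_coeff, neg_pow]
  ring

theorem reduction {m r : ℕ} (μ : Fin m → ℚ) (a : Fin m → Kbar) (q : ℕ → Polynomial Kbar)
    (G : PowerSeries Kbar) (κ : Fin m → ℕ)
    (hκ : ∀ i, ∃ y : ℚ, μ i + κ i = p * y ∧ ¬ p ∣ y.den)
    (ha0 : ∀ i, a i ≠ 0) (ha : ∀ i, a i ∈ LocInt p) (hai : ∀ i, (a i)⁻¹ ∈ LocInt p)
    (hq : ∀ i ≤ r, ∀ j, (q i).coeff j ∈ LocInt p)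
    (hG : ∀ n < p, PowerSeries.coeff n G ∈ LocInt p)
    (hode : ∑ i ∈ Finset.range (r + 1), ((q i : Polynomial Kbar) : PowerSeries Kbar) *
      (⇑(PowerSeries.derivative Kbar))^[i] G = 0) :
    (∀ n < p, PowerSeries.coeff n ((∏ i, binSer (μ i) (a i)) * G) ∈ LocInt p ∧
      PowerSeries.coeff n
        (((eulP (fun i => rho φ (a i)) κ : Polynomial k) : PowerSeries k) * redS φ G)
        = rho φ (PowerSeries.coeff n ((∏ i, binSer (μ i) (a i)) * G))) ∧
    (∀ n, n + r < p → PowerSeries.coeff n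
      (∑ i ∈ Finset.range (r + 1), ((redP φ (q i) : Polynomial k) : PowerSeries k) *
        (⇑(PowerSeries.derivative k))^[i] (redS φ G)) = 0) := by
  have hb := fun i => binSer_red φ (μ i) (a i) (κ i) (hκ i) (ha0 i) (ha i) (hai i)
  have hprod := redS_prod φ (L := p) (fun i => binSer (μ i) (a i)) (fun i n hn => (hb i n hn).1)
  refine ⟨fun n hn => ⟨coeff_mul_mem hprod.1 hG n hn, ?_⟩, ?_⟩
  · rw [redS_mul φ hprod.1 hG n hn]
    refine rd2_mul (L := p) ?_ (fun _ _ => rfl) n hn
    intro j hj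
    have h1 : PowerSeries.coeff j (redS φ (∏ i, binSer (μ i) (a i))) =
        rho φ (PowerSeries.coeff j (∏ i, binSer (μ i) (a i))) := by
      unfold redS
      rw [PowerSeries.coeff_mk]
    rw [h1, hprod.2 j hj]
    unfold eulP
    have h2 : ((∏ i, (1 - Polynomial.C (rho φ (a i))⁻¹ * Polynomial.X) ^ (κ i) : Polynomial k) :
        PowerSeries k) = ∏ i, (((1 - Polynomial.C (rho φ (a i))⁻¹ * Polynomial.X) ^ (κ i) :
          Polynomial k) : PowerSeries k) := by
      have h := map_prod (Polynomial.coeToPowerSeries.ringHom (R := k))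
        (fun i => (1 - Polynomial.C (rho φ (a i))⁻¹ * Polynomial.X) ^ (κ i)) Finset.univ
      simpa only [Polynomial.coeToPowerSeries.ringHom_apply] using h
    rw [h2]
    refine rd2_prod (L := p) Finset.univ _ _ ?_ j hj
    intro i _ l hl
    rw [Polynomial.coeff_coe]
    have h3 : PowerSeries.coeff l (redS φ (binSer (μ i) (a i))) =
        rho φ (PowerSeries.coeff l (binSer (μ i) (a i))) := by
      unfold redS
      rw [PowerSeries.coeff_mk]
    rw [h3, (hb i l hl).2]
  · intro n hn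
    have hF : ∀ i ≤ r, ∀ j < p - r,
        PowerSeries.coeff j (((q i : Polynomial Kbar) : PowerSeries Kbar)) ∈ LocInt p := by
      intro i hi j _
      rw [Polynomial.coeff_coe]
      exact hq i hi j
    have hD : ∀ i ≤ r, ∀ j < p - r,
        PowerSeries.coeff j ((⇑(PowerSeries.derivative Kbar))^[i] G) ∈ LocInt p ∧
        PowerSeries.coeff j (redS φ ((⇑(PowerSeries.derivative Kbar))^[i] G)) =
          PowerSeries.coeff j ((⇑(PowerSeries.derivative k))^[i] (redS φ G)) := by
      intro i hi j hj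
      obtain ⟨h1, h2⟩ := redS_deriv φ G hG i j (by omega)
      refine ⟨h1, ?_⟩
      unfold redS at h2 ⊢
      rw [PowerSeries.coeff_mk]
      exact h2
    have hnL : n < p - r := by omega
    have h0 : rho φ (PowerSeries.coeff n (∑ i ∈ Finset.range (r + 1),
        ((q i : Polynomial Kbar) : PowerSeries Kbar) *
          (⇑(PowerSeries.derivative Kbar))^[i] G)) = 0 := by
      rw [hode, map_zero, rho_zero]
    rw [map_sum, rho_sum φ] at h0
    · rw [map_sum, ← h0]
      refine Finset.sum_congr rfl fun i hi => ?_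
      have hir : i ≤ r := Nat.lt_succ_iff.1 (Finset.mem_range.1 hi)
      rw [redS_mul φ (hF i hir) (fun j hj => (hD i hir j hj).1) n hnL]
      refine rd2_mul (L := p - r) ?_ (fun j hj => (hD i hir j hj).2.symm) n hnL
      intro j _
      unfold redS
      rw [Polynomial.coeff_coe, redP_coeff, PowerSeries.coeff_mk, Polynomial.coeff_coe]
    · intro i hi
      have hir : i ≤ r := Nat.lt_succ_iff.1 (Finset.mem_range.1 hi)
      exact coeff_mul_mem (hF i hir) (fun j hj => (hD i hir j hj).1) n hnL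

end Pool.H61.QF
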