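import Pool.Agent.H61.QF.Defs

/-!
Module Va (Mathlib only): `p`-adic valuation of Pochhammer symbols.

PROOF of `pos_spec`. Write `x = u/d`. `-(v x) = -(v u)/d`, so `fract (-(v x)) = s/d` with
`0 ≤ s < d` (an integer), and `pos v x = t/d` with `t = d - s`, `1 ≤ t ≤ d`, `t ≡ v u mod d`
(in particular `pos v x ≥ 1/d`; and `t = d` only if `d ∣ v u`, i.e. `d ∣ u` (as `v` is prime to
`d`), i.e. `x` is an integer, and then `x > 0`). `p t - u ≡ p v u - u ≡ 0 mod d`, so
`r := (p t - u)/d` is an integer with `x + r = p t/d`. For large `p`: `r ≥ 0` as `p ≥ |u|`, and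
`r < p` as `p (d - t) > -u` (if `t < d` this holds for `p > |u|`; if `t = d` then `u > 0`).
Finally `v_p(x + r) = v_p(p t / d) = 1` as `1 ≤ t ≤ d < p`, and `¬ p ∣ (t/d).den`.

PROOF of `poch_val`: for `i < p`, `i ≠ r`: `x + i = (x + r) + (i - r)` where
`v_p(x + r) = 1` and `v_p(i - r) = 0` (`0 < |i - r| < p`), so `v_p(x + i) = 0` (the valuation of
a sum of two rationals with different valuations is the smaller one); `x + i ≠ 0`. So
`v_p(poch x n) = ∑_{i<n} v_p(x+i)` is `1` if `r < n` and `0` otherwise (`n ≤ p`).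
-/

set_option autoImplicit false

namespace Pool.H61.QF

theorem pos_spec (x : ℚ) (d : ℕ) (hd : 0 < d) (hdx : ∃ u : ℤ, (d : ℚ) * x = u)
    (hx : ∀ l : ℕ, x ≠ -(l : ℚ)) :
    ∃ P0 : ℕ, ∀ (p : ℕ) (v : ℤ), p.Prime → P0 ≤ p → (d : ℤ) ∣ p * v - 1 →
      ∃ r : ℕ, (r : ℚ) = p * pos v x - x ∧ r < p ∧
        (∃ y : ℚ, x + r = p * y ∧ ¬ p ∣ y.den ∧ ¬ (p : ℤ) ∣ y.num) := by
  obtain ⟨u, hu⟩ := hdx
  refine ⟨u.natAbs + d + 1, ?_⟩
  intro p v hp hP hdv
  have hdQ : (0 : ℚ) < d := by exact_mod_cast hd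
  have hdZ : (0 : ℤ) < d := by exact_mod_cast hd
  have hxe : x = u / d := by field_simp; linarith
  set s : ℤ := (-(v * u)) % (d : ℤ) with hs
  have hs0 : 0 ≤ s := Int.emod_nonneg _ hdZ.ne'
  have hsd : s < d := Int.emod_lt_of_pos _ hdZ
  have hfr : Int.fract (-((v : ℚ) * x)) = (s : ℚ) / d := by
    have e : -((v : ℚ) * x) = ((-(v * u) : ℤ) : ℚ) / ((d : ℕ) : ℚ) := by
      rw [hxe]; push_cast; ring
    rw [e, Int.fract_div_intCast_eq_div_intCast_mod]
  have hpos : pos v x = ((d - s : ℤ) : ℚ) / d := by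
    rw [pos, hfr]
    push_cast
    field_simp
  set t : ℤ := d - s with ht
  have ht1 : 1 ≤ t := by omega
  have htd : t ≤ d := by omega
  -- divisibility
  have hmod : (d : ℤ) ∣ p * t - u := by
    have h1 : (d : ℤ) ∣ (-(v * u)) - s := by
      rw [hs]; exact Int.dvd_self_sub_emod
    obtain ⟨a, ha⟩ := h1
    obtain ⟨b, hb⟩ := hdv
    refine ⟨p + p * a + b * u, ?_⟩
    have : (p : ℤ) * t - u = p * d + p * (-(v * u) - s) + (p * v - 1) * u := by
      rw [ht]; ring
    rw [this, ha, hb]; ring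
  obtain ⟨R, hR⟩ := hmod
  have hpu : (u.natAbs : ℤ) + d + 1 ≤ p := by exact_mod_cast hP
  have hua : |u| = (u.natAbs : ℤ) := Int.abs_eq_natAbs u
  have hule : u ≤ |u| := le_abs_self u
  have hule' : -u ≤ |u| := neg_le_abs u
  have hp0 : (0 : ℤ) < p := by exact_mod_cast hp.pos
  have hpt : (p : ℤ) ≤ p * t := by nlinarith
  have hR0 : 0 ≤ R := by
    by_contra hcon
    push Not at hcon
    have : (d : ℤ) * R < 0 := mul_neg_of_pos_of_neg hdZ hcon
    omega
  have hRp : R < p := by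
    by_contra hcon
    push Not at hcon
    have h1 : (d : ℤ) * p ≤ d * R := mul_le_mul_of_nonneg_left hcon hdZ.le
    rcases lt_or_eq_of_le htd with h | h
    · have h2 : (p : ℤ) * t ≤ p * (d - 1) := mul_le_mul_of_nonneg_left (by omega) hp0.le
      have h3 : (p : ℤ) * (d - 1) = d * p - p := by ring
      omega
    · -- t = d
      have hs00 : s = 0 := by omega
      have hdvu : (d : ℤ) ∣ v * u := by
        have : (d : ℤ) ∣ -(v * u) := Int.dvd_of_emod_eq_zero (by rw [← hs]; exact hs00)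
        exact (dvd_neg).1 this
      have hcop : IsCoprime (d : ℤ) v := by
        obtain ⟨b, hb⟩ := hdv
        refine ⟨-b, p, ?_⟩
        linarith
      have hdu : (d : ℤ) ∣ u := hcop.dvd_of_dvd_mul_left hdvu
      obtain ⟨w, hw⟩ := hdu
      have hxw : x = w := by
        rw [hxe, hw]; push_cast; field_simp
      have hw0 : 0 < w := by
        by_contra hcon'
        push Not at hcon'
        apply hx w.natAbs
        rw [hxw]
        have : (w.natAbs : ℤ) = -w := by omega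
        have h5 : ((w.natAbs : ℤ) : ℚ) = ((-w : ℤ) : ℚ) := by rw [this]
        push_cast at h5
        rw [← Int.cast_natCast, Int.natCast_natAbs] 
        have h6 : |w| = -w := abs_of_nonpos hcon'
        rw [h6]; push_cast; ring
      have hu0 : 0 < u := by rw [hw]; positivity
      have h4 : (p : ℤ) * t = d * p := by rw [h]; ring
      omega
  have hRn : ((R.toNat : ℕ) : ℤ) = R := Int.toNat_of_nonneg hR0
  have hRq : ((R.toNat : ℕ) : ℚ) = (R : ℚ) := by
    have : (((R.toNat : ℕ) : ℤ) : ℚ) = (R : ℚ) := by rw [hRn]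
    rwa [Int.cast_natCast] at this
  have hRe : (R : ℚ) = p * pos v x - x := by
    rw [hpos, hxe]
    have h7 : ((p * t - u : ℤ) : ℚ) = ((d * R : ℤ) : ℚ) := by rw [hR]
    push_cast at h7
    field_simp
    push_cast
    linarith
  refine ⟨R.toNat, ?_, ?_, pos v x, ?_, ?_, ?_⟩
  · rw [hRq, hRe]
  · omega
  · rw [hRq, hRe]; ring
  · intro hdiv
    have h8 : ((pos v x).den : ℤ) ∣ d := by
      have := Rat.den_dvd t d
      rwa [Rat.divInt_eq_div, Int.cast_natCast, ← hpos] at this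
    have h9 : (p : ℤ) ∣ d := dvd_trans (by exact_mod_cast hdiv) h8
    have := Int.le_of_dvd hdZ h9
    omega
  · intro hdiv
    have h8 : (pos v x).num ∣ t := by
      have := Rat.num_dvd t (b := (d : ℤ)) hdZ.ne'
      rwa [Rat.divInt_eq_div, Int.cast_natCast, ← hpos] at this
    have h9 : (p : ℤ) ∣ t := dvd_trans hdiv h8
    have := Int.le_of_dvd (by omega) h9
    omega

private theorem val_ne (x : ℚ) (hx : ∀ l : ℕ, x ≠ -(l : ℚ)) (i : ℕ) : x + i ≠ 0 := by
  intro h
  exact hx i (by linarith)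

private theorem val_y (p : ℕ) (hp : p.Prime) (y : ℚ) (h1 : ¬ p ∣ y.den)
    (h2 : ¬ (p : ℤ) ∣ y.num) : padicValRat p y = 0 := by
  rw [padicValRat]
  have e1 : padicValInt p y.num = 0 := padicValInt.eq_zero_of_not_dvd h2
  have e2 : padicValNat p y.den = 0 := padicValNat.eq_zero_of_not_dvd h1
  rw [e1, e2]; simp

private theorem val_r (x : ℚ) (hx : ∀ l : ℕ, x ≠ -(l : ℚ)) (p r : ℕ) (hp : p.Prime)
    (h : ∃ y : ℚ, x + r = p * y ∧ ¬ p ∣ y.den ∧ ¬ (p : ℤ) ∣ y.num) :
    padicValRat p (x + r) = 1 := by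
  have := Fact.mk hp
  obtain ⟨y, hy, h1, h2⟩ := h
  have hy0 : y ≠ 0 := by
    rintro rfl
    exact val_ne x hx r (by rw [hy]; ring)
  have hp0 : (p : ℚ) ≠ 0 := by exact_mod_cast hp.ne_zero
  rw [hy, padicValRat.mul hp0 hy0, val_y p hp y h1 h2, padicValRat.self hp.one_lt]
  norm_num

private theorem val_i (x : ℚ) (hx : ∀ l : ℕ, x ≠ -(l : ℚ)) (p r : ℕ) (hp : p.Prime) (hr : r < p)
    (h : ∃ y : ℚ, x + r = p * y ∧ ¬ p ∣ y.den ∧ ¬ (p : ℤ) ∣ y.num) (i : ℕ) (hi : i < p)
    (hir : i ≠ r) :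
    padicValRat p (x + i) = 0 := by
  have := Fact.mk hp
  have hr1 := val_r x hx p r hp h
  have e : x + i = (((i : ℤ) - (r : ℤ) : ℤ) : ℚ) + (x + r) := by push_cast; ring
  have hz : ((i : ℤ) - (r : ℤ)) ≠ 0 := by
    intro h0
    apply hir
    omega
  have hzq : (((i : ℤ) - (r : ℤ) : ℤ) : ℚ) ≠ 0 := by exact_mod_cast hz
  have hv0 : padicValRat p (((i : ℤ) - (r : ℤ) : ℤ) : ℚ) = 0 := by
    rw [padicValRat.of_int]
    have : padicValInt p ((i : ℤ) - (r : ℤ)) = 0 := by
      apply padicValInt.eq_zero_of_not_dvd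
      intro hdv
      have h1 : (p : ℤ) ≤ |(i : ℤ) - r| := Int.le_of_dvd (abs_pos.2 hz) ((dvd_abs _ _).2 hdv)
      have h2 : |(i : ℤ) - r| < p := by
        rw [abs_lt]; constructor <;> omega
      omega
    rw [this]; rfl
  rw [e, padicValRat.add_eq_of_lt, hv0]
  · rw [← e]; exact val_ne x hx i
  · exact hzq
  · exact val_ne x hx r
  · rw [hv0, hr1]; norm_num

theorem poch_val (x : ℚ) (hx : ∀ l : ℕ, x ≠ -(l : ℚ)) (p r : ℕ) (hp : p.Prime) (hr : r < p)
    (h : ∃ y : ℚ, x + r = p * y ∧ ¬ p ∣ y.den ∧ ¬ (p : ℤ) ∣ y.num) :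
    ∀ n ≤ p, poch x n ≠ 0 ∧ padicValRat p (poch x n) = if r < n then 1 else 0 := by
  have := Fact.mk hp
  intro n
  induction n with
  | zero => intro _; simp [poch]
  | succ n ih =>
    intro hn
    obtain ⟨h0, hv⟩ := ih (by omega)
    have e : poch x (n + 1) = poch x n * (x + n) := by
      rw [poch, Finset.prod_range_succ]; rfl
    rw [e]
    refine ⟨mul_ne_zero h0 (val_ne x hx n), ?_⟩
    rw [padicValRat.mul h0 (val_ne x hx n), hv]
    by_cases hrn : n = r
    · subst hrn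
      rw [val_r x hx p n hp h]
      simp
    · rw [val_i x hx p r hp hr h n (by omega) hrn]
      by_cases h1 : r < n
      · rw [if_pos h1, if_pos (by omega)]; norm_num
      · rw [if_neg h1, if_neg (by omega)]; norm_num

private theorem val_prod (p : ℕ) (hp : p.Prime) {k : ℕ} (f : Fin k → ℚ) (s : Finset (Fin k))
    (hf : ∀ j, f j ≠ 0) :
    padicValRat p (∏ j ∈ s, f j) = ∑ j ∈ s, padicValRat p (f j) := by
  have := Fact.mk hp
  classical
  induction s using Finset.induction_on with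
  | empty => simp
  | insert a s ha ih =>
    rw [Finset.prod_insert ha, Finset.sum_insert ha,
      padicValRat.mul (hf a) (Finset.prod_ne_zero_iff.2 fun j _ => hf j), ih]

private theorem val_den (p : ℕ) (hp : p.Prime) (y : ℚ) (h : 0 ≤ padicValRat p y) :
    ¬ p ∣ y.den := by
  have := Fact.mk hp
  intro hd
  rw [padicValRat] at h
  have h1 : ¬ (p : ℤ) ∣ y.num := by
    intro hn
    have h2 : p ∣ y.num.natAbs := Int.natCast_dvd.1 hn
    have h3 := Nat.dvd_gcd h2 hd
    rw [y.reduced.gcd_eq_one] at h3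
    exact hp.one_lt.ne' (Nat.dvd_one.1 h3)
  have e1 : padicValInt p y.num = 0 := padicValInt.eq_zero_of_not_dvd h1
  have e2 : 1 ≤ padicValNat p y.den :=
    one_le_padicValNat_of_dvd y.den_nz hd
  rw [e1] at h
  omega

/-- If the denominator parameters win, the inverse of the coefficient is divisible by `p`. -/
theorem hyp_val {k : ℕ} (b c : Fin k → ℚ) (hb : ∀ j, ∀ l : ℕ, b j ≠ -(l : ℚ))
    (hc : ∀ j, ∀ l : ℕ, c j ≠ -(l : ℚ)) (p : ℕ) (hp : p.Prime) (rb rc : Fin k → ℕ)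
    (hrb : ∀ j, rb j < p) (hrc : ∀ j, rc j < p)
    (hb' : ∀ j, ∃ y : ℚ, b j + rb j = p * y ∧ ¬ p ∣ y.den ∧ ¬ (p : ℤ) ∣ y.num)
    (hc' : ∀ j, ∃ y : ℚ, c j + rc j = p * y ∧ ¬ p ∣ y.den ∧ ¬ (p : ℤ) ∣ y.num)
    (n : ℕ) (hn : n ≤ p)
    (hlt : (Finset.univ.filter fun j => rb j < n).card
      < (Finset.univ.filter fun j => rc j < n).card) :
    hyp b c n ≠ 0 ∧ ∃ y : ℚ, (hyp b c n)⁻¹ = p * y ∧ ¬ p ∣ y.den := by
  have := Fact.mk hp
  have hp0 : (p : ℚ) ≠ 0 := by exact_mod_cast hp.ne_zero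
  have hB : ∀ j, poch (b j) n ≠ 0 ∧ padicValRat p (poch (b j) n) = if rb j < n then 1 else 0 :=
    fun j => poch_val (b j) (hb j) p (rb j) hp (hrb j) (hb' j) n hn
  have hC : ∀ j, poch (c j) n ≠ 0 ∧ padicValRat p (poch (c j) n) = if rc j < n then 1 else 0 :=
    fun j => poch_val (c j) (hc j) p (rc j) hp (hrc j) (hc' j) n hn
  have hf : ∀ j, poch (b j) n / poch (c j) n ≠ 0 := fun j => div_ne_zero (hB j).1 (hC j).1
  have h0 : hyp b c n ≠ 0 := Finset.prod_ne_zero_iff.2 fun j _ => hf j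
  have hv : padicValRat p (hyp b c n)
      = ((Finset.univ.filter fun j => rb j < n).card : ℤ)
        - ((Finset.univ.filter fun j => rc j < n).card : ℤ) := by
    rw [hyp, val_prod p hp _ _ hf]
    have e : ∀ j, padicValRat p (poch (b j) n / poch (c j) n)
        = (if rb j < n then 1 else 0) - (if rc j < n then 1 else 0) := by
      intro j
      rw [padicValRat.div (hB j).1 (hC j).1, (hB j).2, (hC j).2]
    simp only [e, Finset.sum_sub_distrib, Finset.sum_boole]
  refine ⟨h0, (hyp b c n)⁻¹ / p, by field_simp, ?_⟩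
  apply val_den p hp
  rw [padicValRat.div (inv_ne_zero h0) hp0, padicValRat.inv, hv, padicValRat.self hp.one_lt]
  have : ((Finset.univ.filter fun j => rb j < n).card : ℤ)
      < ((Finset.univ.filter fun j => rc j < n).card : ℤ) := by exact_mod_cast hlt
  omega

end Pool.H61.QF
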