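import Pool.Agent.H61.QF.Pl
import Pool.Agent.H61.QF.Rd2
import Pool.Agent.H61.QF.Po2
import Pool.Agent.H61.QF.Va

/-!
Module Ke (uses the statements of Pl, Rd1, Rd2, Po1, Po2, Va): the window theorem.

PROOF of `key_place` (fixed prime `p`, everything integral). Suppose the valuation of `hyp` is negative on the
window `[n0, n0 + M)` with `M = r m + D + r`, `n0 + M ≤ p`. Take `k`, `φ` from `exists_res`.
For `n` in the window, `hyp b c n ≠ 0`, `(hyp b c n)⁻¹ = p y`, so
`coeff n A = p y * coeff n f` with `coeff n f` and `y` locally integral, hence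
`rho φ (coeff n A) = 0` (`rho φ p = 0`). Let `T = ∑_{n<n0} monomial n (rho φ (coeff n A))`:
`natDegree T < n0` (`n0 > ns ≥ 0`), `T ≠ 0` because its coefficient at `ns < n0` is nonzero
(`rho_ne_zero`). By `reduction`, `coeff n (E * redS φ G) = T.coeff n` for `n < L := n0 + M`
(for `n0 ≤ n < L` both sides vanish). `W_eq_zero` (with `q̄ i = redP φ (q i)`,
`redP_natDegree_le`), then `pow_dvd_T` (the values `q̄_r (ā_i) = rho φ (q_r(a_i))` are nonzero by
`redP_eval`, `rho_ne_zero`; the `ā_i` are nonzero and distinct since `a_i - a_j` is a unit) and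
`sum_le` give `∑ κ_i ≤ natDegree T < n0`.
-/

set_option autoImplicit false

namespace Pool.H61.QF

theorem key_place {k m r : ℕ} (b c : Fin k → ℚ) (μ : Fin m → ℚ) (a : Fin m → Kbar)
    (q : ℕ → Polynomial Kbar) (G : PowerSeries Kbar) (p : ℕ) [Fact p.Prime] (D ns n0 : ℕ)
    (ha0 : ∀ i, a i ≠ 0) (hainj : Function.Injective a)
    (hb : ∀ j, ∀ l : ℕ, b j ≠ -(l : ℚ)) (hc : ∀ j, ∀ l : ℕ, c j ≠ -(l : ℚ))
    (hode : ∑ i ∈ Finset.range (r + 1), ((q i : Polynomial Kbar) : PowerSeries Kbar) *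
      (⇑(PowerSeries.derivative Kbar))^[i] G = 0)
    -- local integrality
    (ha : ∀ i, a i ∈ LocInt p) (hai : ∀ i, (a i)⁻¹ ∈ LocInt p)
    (haa : ∀ i j, (a i - a j)⁻¹ ∈ LocInt p)
    (hq : ∀ i ≤ r, ∀ j, (q i).coeff j ∈ LocInt p) (hD : ∀ i ≤ r, (q i).natDegree ≤ D)
    (hqa : ∀ i, (q r).eval (a i) ≠ 0) (hqai : ∀ i, ((q r).eval (a i))⁻¹ ∈ LocInt p)
    (hG : ∀ n < p, PowerSeries.coeff n G ∈ LocInt p)
    (hf : ∀ n, PowerSeries.coeff n (had (hyp b c) ((∏ i, binSer (μ i) (a i)) * G)) ∈ LocInt p)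
    (hns : PowerSeries.coeff ns ((∏ i, binSer (μ i) (a i)) * G) ≠ 0)
    (hnsi : (PowerSeries.coeff ns ((∏ i, binSer (μ i) (a i)) * G))⁻¹ ∈ LocInt p)
    -- the residues
    (κ : Fin m → ℕ) (hκ : ∀ i, κ i + r ≤ p)
    (hκ' : ∀ i, ∃ y : ℚ, μ i + κ i = p * y ∧ ¬ p ∣ y.den)
    (rb rc : Fin k → ℕ) (hrb : ∀ j, rb j < p) (hrc : ∀ j, rc j < p)
    (hb' : ∀ j, ∃ y : ℚ, b j + rb j = p * y ∧ ¬ p ∣ y.den ∧ ¬ (p : ℤ) ∣ y.num)
    (hc' : ∀ j, ∃ y : ℚ, c j + rc j = p * y ∧ ¬ p ∣ y.den ∧ ¬ (p : ℤ) ∣ y.num)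
    -- the window
    (hn0 : ns < n0) (hw : n0 + (r * m + D + r) ≤ p)
    (hneg : ∀ n, n0 ≤ n → n < n0 + (r * m + D + r) →
      (Finset.univ.filter fun j => rb j < n).card
        < (Finset.univ.filter fun j => rc j < n).card) :
    ∑ i, κ i < n0 := by
  classical
  obtain ⟨k', hF, hC, ⟨φ⟩⟩ := exists_res p
  set A : PowerSeries Kbar := (∏ i, binSer (μ i) (a i)) * G with hA
  have hred := reduction φ μ a q G κ hκ' ha0 ha hai hq hG hode
  rw [← hA] at hred
  obtain ⟨hred1, hred2⟩ := hred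
  have hpL : ((p : ℕ) : Kbar) ∈ LocInt p := natCast_mem _ _
  -- vanishing on the window
  have hwin : ∀ n, n0 ≤ n → n < n0 + (r * m + D + r) →
      rho φ (PowerSeries.coeff n A) = 0 := by
    intro n hn1 hn2
    obtain ⟨hne, y, hy, hyd⟩ := hyp_val b c hb hc p Fact.out rb rc hrb hrc hb' hc' n
      (by omega) (hneg n hn1 hn2)
    have hfn : PowerSeries.coeff n (had (hyp b c) A)
        = ((hyp b c n : ℚ) : Kbar) * PowerSeries.coeff n A := by
      simp [had]
    have hne' : ((hyp b c n : ℚ) : Kbar) ≠ 0 := by exact_mod_cast hne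
    have hy' : ((hyp b c n : ℚ) : Kbar)⁻¹ = ((p : ℕ) : Kbar) * ((y : ℚ) : Kbar) := by
      have := congrArg (fun z : ℚ => (z : Kbar)) hy
      simpa using this
    have hcoef : PowerSeries.coeff n A
        = ((p : ℕ) : Kbar) * (((y : ℚ) : Kbar) * PowerSeries.coeff n (had (hyp b c) A)) := by
      rw [← mul_assoc, ← hy', hfn, ← mul_assoc, inv_mul_cancel₀ hne', one_mul]
    have hyL : ((y : ℚ) : Kbar) ∈ LocInt p := locInt_rat p y hyd
    rw [hcoef, rho_mul φ hpL ((LocInt p).mul_mem hyL (hf n)), rho_natCast, CharP.cast_eq_zero,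
      zero_mul]
  set T : Polynomial k' :=
    ∑ n ∈ Finset.range n0, Polynomial.monomial n (rho φ (PowerSeries.coeff n A)) with hT
  have hTc : ∀ n, T.coeff n = if n < n0 then rho φ (PowerSeries.coeff n A) else 0 := by
    intro n
    rw [hT, Polynomial.finsetSum_coeff]
    simp only [Polynomial.coeff_monomial]
    rw [Finset.sum_ite_eq']
    simp
  have hTne : T ≠ 0 := by
    intro h
    have h1 := hTc ns
    rw [h, if_pos hn0, Polynomial.coeff_zero] at h1
    exact rho_ne_zero φ (hred1 ns (by omega)).1 hnsi hns h1.symm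
  have hdeg : T.natDegree < n0 := by
    by_contra hcon
    have h1 := hTc T.natDegree
    rw [if_neg hcon] at h1
    exact hTne (Polynomial.leadingCoeff_eq_zero.1 h1)
  have hEG : ∀ n < n0 + (r * m + D + r), PowerSeries.coeff n
      (((eulP (fun i => rho φ (a i)) κ : Polynomial k') : PowerSeries k') * redS φ G)
        = T.coeff n := by
    intro n hn
    rw [(hred1 n (by omega)).2, hTc n]
    by_cases h : n < n0
    · rw [if_pos h]
    · rw [if_neg h]
      exact hwin n (by omega) hn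
  have hW := W_eq_zero (fun i => rho φ (a i)) κ (fun i => redP φ (q i)) D
    (fun i hi => (redP_natDegree_le φ (q i)).trans (hD i hi)) T (redS φ G) n0
    (n0 + (r * m + D + r)) hdeg (by omega) hEG (fun n hn => hred2 n (by omega))
  have ha0' : ∀ i, rho φ (a i) ≠ 0 := fun i => rho_ne_zero φ (ha i) (hai i) (ha0 i)
  have hinj' : Function.Injective (fun i => rho φ (a i)) := by
    intro i j hij
    by_contra hne
    have hsub : a i - a j ≠ 0 := sub_ne_zero.2 fun h => hne (hainj h)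
    have h1 := rho_ne_zero φ ((LocInt p).sub_mem (ha i) (ha j)) (haa i j) hsub
    rw [rho_sub φ (ha i) (ha j)] at h1
    exact h1 (sub_eq_zero.2 hij)
  have hqa' : ∀ i, (redP φ (q r)).eval (rho φ (a i)) ≠ 0 := by
    intro i
    obtain ⟨h1, h2⟩ := redP_eval φ (q r) (fun n => hq r le_rfl n) (ha i)
    rw [h1]
    exact rho_ne_zero φ h2 (hqai i) (hqa i)
  have hdvd := pow_dvd_T p (fun i => rho φ (a i)) ha0' hinj' κ hκ (fun i => redP φ (q i)) hqa' T
    hTne hW
  have hle := sum_le (fun i => rho φ (a i)) hinj' κ T hTne hdvd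
  omega

end Pool.H61.QF
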