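import Pool.Agent.H61.QF.LJ

/-!
Module LC (uses the statements of Mi, Sh, Sm, LJ): five rationals.

PROOF. Replace `d` by the minimal `d0` with `u` (`min_denom`). Class I: `∑ fract (w x_j) = 1`;
class II: `∑ fract (-(w x_j)) = 1`, i.e. `∑ (1 - fract (w x_j)) = 1`, `∑ fract (w x_j) = 4`.
If `d0 ∣ 6` we are done. Otherwise take `p` from `bad_prime`. The number `f = fF` of `j` with
`¬ p ∣ u_j` is `≥ 1` by minimality and `≠ 1` because `∑ x_j` is an integer (from class I or II for
`w = 1`), so `∑ u_j ≡ 0 mod d0`, hence mod `p`. So `2 ≤ f ≤ 5`.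

Let `w` be any multiplier of class I. `shift` data `S`, `n = card T`, `T1`, `T2` the parts of
class I, II, `0 ∈ T1`, `n1 + n2 = n`. `lower`: (I) `1 ≥ Y + f (n1-1)/(2p) + P`. If `n2 ≥ 1`, `upper`:
(II) `1 ≥ (5-f) - Y + f (n2-1)/(2p) + f/p - P`; sum: `2 ≥ 5 - f + f n/(2p)`.
* `n = p`: `2 ≥ 5 - f/2`, `f ≥ 6`, impossible.
* `n = p - 1`, `p ≥ 5`: `2 ≥ 5 - f (p+1)/(2p)`, i.e. `f (p+1) ≥ 6 p`, so `p = 5`, `f = 5`, `n = 4`,
  `Y = 0`. (I) `P ≤ (3 - n1)/2`, (II) `P ≥ (n2 - 1)/2 = (3 - n1)/2`. So `P = (3-n1)/2`. For `t ∈ T1`: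
  `∑_j R_j(t) = 5 (1 - P) = 5 (n1 - 1)/2` is an integer, so `n1` is odd: `n1 = 1` gives `P = 1`,
  but `P < f/p = 1`. `n1 = 3`: `P = 0`, all `ρ_j = 0`; `fract (W t x_j) > 0` gives `R_j(t) ≥ 1`; for each
  `j` the three numbers `R_j(t)`, `t ∈ T1`, are distinct and `≥ 1`, sum `≥ 6`; total `≥ 30`, but the
  total is `3 * 5 = 15`.
So `n2 = 0`, `n1 = n`, for every `w` of class I: `1 ≥ Y + f (n-1)/(2p) + P`.
Let `J = {j | p ∣ u_j}`, `card J = 5 - f`, `Y_w = ∑_{J} fract (w x_j)`, positive if `J` is nonempty.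
* `n = p` (`p^2 ∣ d0`, `P > 0`): `Y < 1 - f (p-1)/(2p)`. `f = 5`: `0 < 1 - 5/4`, false.
  `f = 4`: `Y < 1 - 2 (p-1)/p ≤ 0` false. `f = 3`: `Y < 1 - 3 (p-1)/(2p)`; `p ≥ 3` gives `Y < 0`
  false (`p = 3`: `Y < 0`); `p = 2`: `Y < 1/4`. `f = 2`: `Y < 1/p ≤ 1/2`.
* `n = p - 1`, `p ≥ 5`: `Y ≤ 1 - f (p-2)/(2p)`. `f = 5`, `f = 4`: negative, false. `f = 3`:
  `Y ≤ (6-p)/(2p) ≤ 1/10 < 1/4`. `f = 2`: `Y ≤ 2/p ≤ 2/5 < 1/2`.
So with `θ = 1/2` (`f = 2`, `card J = 3`) or `θ = 1/4` (`f = 3`, `card J = 2`): for every `w` of class I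
`∑_J fract (w x_j) < θ`; for `w` of class II, `-w` is of class I, so
`∑_J fract (-(w x_j)) < θ`. `lemmaJ` for the subtype `J` gives the contradiction.
-/

set_option autoImplicit false

namespace Pool.H61.QF

section aux

variable {x : Fin 5 → ℚ} {d p : ℕ} {u : Fin 5 → ℤ}

private theorem nonint (hu : ∀ j, (d : ℚ) * x j = u j) (hx : ∀ j, ∀ l : ℤ, x j ≠ l) {w : ℤ}
    (hw : IsCoprime w (d : ℤ)) (j : Fin 5) (l : ℤ) : (w : ℚ) * x j ≠ l := by
  intro h
  obtain ⟨a, b, hab⟩ := hw
  apply hx j (a * l + b * u j)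
  have h1 : (a : ℚ) * w + b * d = 1 := by exact_mod_cast hab
  push_cast
  rw [← h, ← hu j]
  linear_combination (-(x j)) * h1

private theorem fF_eq : fF p u = (Finset.univ.filter fun j => ¬ (p : ℤ) ∣ u j).card := by
  unfold fF
  congr

private theorem YY_eq (w : ℤ) : YY x p u w
    = ∑ j ∈ Finset.univ.filter (fun j => (p : ℤ) ∣ u j), Int.fract ((w : ℚ) * x j) := by
  unfold YY
  congr

private theorem card_fix : (Finset.univ.filter fun j => (p : ℤ) ∣ u j).card + fF p u = 5 := by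
  rw [fF_eq]
  have := Finset.card_filter_add_card_filter_not (s := (Finset.univ : Finset (Fin 5)))
    (fun j => (p : ℤ) ∣ u j)
  simpa using this

private theorem YY_nonneg (w : ℤ) : 0 ≤ YY x p u w := by
  rw [YY_eq]
  exact Finset.sum_nonneg fun j _ => Int.fract_nonneg _

private theorem YY_zero (w : ℤ) (hf : fF p u = 5) : YY x p u w = 0 := by
  rw [YY_eq]
  have h := card_fix (p := p) (u := u)
  rw [hf] at h
  have h2 : (Finset.univ.filter fun j => (p : ℤ) ∣ u j) = ∅ := by
    rw [← Finset.card_eq_zero]; omega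
  rw [h2, Finset.sum_empty]

/-- Sum of distinct positive naturals, three of them. -/
private theorem sum_three (S : Finset ℕ) (R : ℕ → ℕ) (h : Set.InjOn R S) (h3 : S.card = 3)
    (hpos : ∀ t ∈ S, 1 ≤ R t) : (6 : ℚ) ≤ ∑ t ∈ S, (R t : ℚ) := by
  have h1 : Set.InjOn (fun t => R t - 1) S := by
    intro a ha b hb hab
    apply h ha hb
    have := hpos a ha
    have := hpos b hb
    simp only at hab
    omega
  have h2 := sum_distinct S (fun t => R t - 1) h1
  rw [h3] at h2
  have h4 : ∑ t ∈ S, ((R t - 1 : ℕ) : ℚ) = ∑ t ∈ S, (R t : ℚ) - 3 := by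
    have h5 : ∑ t ∈ S, ((R t - 1 : ℕ) : ℚ) = ∑ t ∈ S, ((R t : ℚ) - 1) := by
      refine Finset.sum_congr rfl fun t ht => ?_
      rw [Nat.cast_sub (hpos t ht)]
      simp
    rw [h5, Finset.sum_sub_distrib]
    simp [h3]
  rw [h4] at h2
  norm_num at h2
  linarith

/-- The exceptional case `p = 5`, `f = 5`, four multipliers, is impossible. -/
private theorem no_five (hp : p.Prime) (hu : ∀ j, (d : ℚ) * x j = u j)
    (hx : ∀ j, ∀ l : ℤ, x j ≠ l) {w : ℤ} (S : SD x d p u w) (h5 : p = 5) (hf : fF p u = 5)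
    (T1 : Finset ℕ) (hT1 : T1 ⊆ S.T) (h0 : 0 ∈ T1)
    (hone : ∀ t ∈ T1, ∑ j, Int.fract ((S.W t : ℚ) * x j) = 1)
    (hn1 : T1.card ≤ 3) (hP : PP S = (3 - (T1.card : ℚ)) / 2) : False := by
  have hmove : ∀ j, ¬ (p : ℤ) ∣ u j := by
    have h := card_fix (p := p) (u := u)
    rw [hf] at h
    have h2 : (Finset.univ.filter fun j => (p : ℤ) ∣ u j) = ∅ := by
      rw [← Finset.card_eq_zero]; omega
    intro j hj
    have : j ∈ (Finset.univ.filter fun j => (p : ℤ) ∣ u j) := by simp [hj]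
    rw [h2] at this
    simp at this
  have hPP : PP S = ∑ j, S.ρ j := by
    unfold PP
    refine Finset.sum_congr ?_ fun _ _ => rfl
    ext j
    simp [hmove j]
  have hp5 : (p : ℚ) = 5 := by exact_mod_cast h5
  have hsum : ∀ t ∈ T1, ∑ j, (S.R j t : ℚ) = 5 - 5 * PP S := by
    intro t ht
    have h1 := hone t ht
    have h2 : ∑ j, Int.fract ((S.W t : ℚ) * x j) = ∑ j, ((S.R j t : ℚ) / p + S.ρ j) :=
      Finset.sum_congr rfl fun j _ => S.mov j (hmove j) t (hT1 ht)
    rw [h2, Finset.sum_add_distrib, ← Finset.sum_div, ← hPP, hp5] at h1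
    linarith
  have hpos1 : 1 ≤ T1.card := Finset.card_pos.2 ⟨0, h0⟩
  have hb := PP_bounds hp S
  have hcases : T1.card = 1 ∨ T1.card = 2 ∨ T1.card = 3 := by omega
  rcases hcases with hc | hc | hc
  · -- `P = 1` contradicts `P < f / p`
    have h1 := hb.2.1 (by omega)
    rw [hf, hp5, hP, hc] at h1
    norm_num at h1
  · -- parity
    have h1 := hsum 0 h0
    rw [hP, hc] at h1
    have h2 : ((2 * ∑ j, S.R j 0 : ℕ) : ℚ) = ((5 : ℕ) : ℚ) := by
      push_cast
      rw [h1]
      norm_num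
    have h3 : 2 * ∑ j, S.R j 0 = 5 := by exact_mod_cast h2
    omega
  · -- all `ρ` vanish
    have hP0 : PP S = 0 := by rw [hP, hc]; norm_num
    have hρ : ∀ j, S.ρ j = 0 := by
      rw [hPP] at hP0
      intro j
      exact (Finset.sum_eq_zero_iff_of_nonneg (fun i _ => S.ρ_nonneg i)).1 hP0 j
        (Finset.mem_univ j)
    have hRpos : ∀ j, ∀ t ∈ T1, 1 ≤ S.R j t := by
      intro j t ht
      by_contra hlt
      have h0' : S.R j t = 0 := by omega
      have h1 := S.mov j (hmove j) t (hT1 ht)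
      rw [h0', hρ j] at h1
      simp only [Nat.cast_zero, zero_div, add_zero] at h1
      have h2 := nonint hu hx (S.cop t (hT1 ht)) j ⌊(S.W t : ℚ) * x j⌋
      apply h2
      have h3 := Int.floor_add_fract ((S.W t : ℚ) * x j)
      rw [h1, add_zero] at h3
      exact h3.symm
    have htot : ∑ j, ∑ t ∈ T1, (S.R j t : ℚ) = 15 := by
      rw [Finset.sum_comm]
      have : ∑ t ∈ T1, ∑ j, (S.R j t : ℚ) = ∑ t ∈ T1, (5 : ℚ) := by
        refine Finset.sum_congr rfl fun t ht => ?_
        rw [hsum t ht, hP0]; norm_num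
      rw [this]
      simp only [Finset.sum_const, hc, nsmul_eq_mul]
      norm_num
    have hlow : ∀ j, (6 : ℚ) ≤ ∑ t ∈ T1, (S.R j t : ℚ) := fun j =>
      sum_three T1 (S.R j) ((S.inj j (hmove j)).mono (by exact_mod_cast hT1)) hc (hRpos j)
    have : (30 : ℚ) ≤ ∑ j : Fin 5, ∑ t ∈ T1, (S.R j t : ℚ) := by
      calc (30 : ℚ) = ∑ _j : Fin 5, (6 : ℚ) := by simp; norm_num
        _ ≤ _ := Finset.sum_le_sum fun j _ => hlow j
    linarith

/-- The bound for the fixed indices. -/
private theorem key (hd : 0 < d) (hp : p.Prime) (hpd : p ∣ d) (hu : ∀ j, (d : ℚ) * x j = u j)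
    (hx : ∀ j, ∀ l : ℤ, x j ≠ l) (hf2 : 2 ≤ fF p u)
    (hcase : p ^ 2 ∣ d ∨ (5 ≤ p ∧ ¬ p ^ 2 ∣ d))
    (H : ∀ w : ℤ, IsCoprime w (d : ℤ) →
      ∑ j, Int.fract ((w : ℚ) * x j) = 1 ∨ ∑ j, Int.fract (-((w : ℚ) * x j)) = 1)
    (w : ℤ) (hw : IsCoprime w (d : ℤ)) (h1 : ∑ j, Int.fract ((w : ℚ) * x j) = 1) :
    (fF p u = 2 ∧ YY x p u w < 1 / 2) ∨ (fF p u = 3 ∧ YY x p u w < 1 / 4) := by
  classical
  obtain ⟨S⟩ := shift x d p hd hp hpd u hu w hw
  have hf5 : fF p u ≤ 5 := by
    have := card_fix (p := p) (u := u)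
    omega
  have hp2 : 2 ≤ p := hp.two_le
  have hp2Q : (2 : ℚ) ≤ p := by exact_mod_cast hp2
  have hpQ : (0 : ℚ) < p := by linarith
  set f := fF p u with hfdef
  set Y := YY x p u w with hY
  set P := PP S with hPdef
  have hY0 : 0 ≤ Y := YY_nonneg w
  obtain ⟨hP0, hP1, hP2⟩ := PP_bounds hp S
  set T1 := S.T.filter (fun t => ∑ j, Int.fract ((S.W t : ℚ) * x j) = 1) with hT1
  set T2 := S.T.filter (fun t => ¬ ∑ j, Int.fract ((S.W t : ℚ) * x j) = 1) with hT2
  have h01 : 0 ∈ T1 := by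
    rw [hT1, Finset.mem_filter]
    exact ⟨S.zero_mem, by rw [S.W0]; exact h1⟩
  have hn : T1.card + T2.card = S.T.card := Finset.card_filter_add_card_filter_not _
  have hn1 : 1 ≤ T1.card := Finset.card_pos.2 ⟨0, h01⟩
  have hone : ∀ t ∈ T1, ∑ j, Int.fract ((S.W t : ℚ) * x j) = 1 := fun t ht =>
    (Finset.mem_filter.1 ht).2
  have hL : Y + f * ((T1.card : ℚ) - 1) / (2 * p) + P ≤ 1 := by
    have h2 := lower hp S T1 (Finset.filter_subset _ _)
    rw [Finset.sum_congr rfl hone] at h2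
    simp only [Finset.sum_const, nsmul_eq_mul, mul_one] at h2
    have h3 : (0 : ℚ) < T1.card := by exact_mod_cast hn1
    by_contra hlt
    push Not at hlt
    have := mul_lt_mul_of_pos_left hlt h3
    rw [mul_one] at this
    linarith
  have hfQ5 : (f : ℚ) ≤ 5 := by exact_mod_cast hf5
  have hfQ2 : (2 : ℚ) ≤ f := by exact_mod_cast hf2
  -- the second class does not occur
  have hT2e : T2.card = 0 := by
    by_contra hne
    have hn2 : 1 ≤ T2.card := by omega
    have hU : (5 - (f : ℚ)) - Y + f * ((T2.card : ℚ) - 1) / (2 * p) + f / p - P ≤ 1 := by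
      have h2 := upper hp S T2 (Finset.filter_subset _ _)
      have h4 : ∀ t ∈ T2, ∑ j, (1 - Int.fract ((S.W t : ℚ) * x j)) = 1 := by
        intro t ht
        obtain ⟨ht1, ht2⟩ := Finset.mem_filter.1 ht
        have hc := S.cop t ht1
        rcases H _ hc with h5 | h5
        · exact absurd h5 ht2
        · refine Eq.trans (Finset.sum_congr rfl fun j _ => ?_) h5
          rw [fract_neg' _ (nonint hu hx hc j)]
      rw [Finset.sum_congr rfl h4] at h2
      simp only [Finset.sum_const, nsmul_eq_mul, mul_one, Fintype.card_fin] at h2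
      have h3 : (0 : ℚ) < T2.card := by exact_mod_cast hn2
      by_contra hlt
      push Not at hlt
      have := mul_lt_mul_of_pos_left hlt h3
      rw [mul_one] at this
      push_cast at h2
      linarith
    have hnQ : (T1.card : ℚ) + T2.card = S.T.card := by exact_mod_cast hn
    -- the sum of both inequalities
    have hsum : 5 - (f : ℚ) + f * (S.T.card : ℚ) / (2 * p) ≤ 2 := by
      have e : f * ((T1.card : ℚ) - 1) / (2 * p) + (f * ((T2.card : ℚ) - 1) / (2 * p) + f / p)
          = f * (S.T.card : ℚ) / (2 * p) := by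
        rw [← hnQ]; field_simp; ring
      linarith
    rcases hcase with hsq | ⟨hp5, hnsq⟩
    · rw [S.card_sq hsq] at hsum
      have e : f * (p : ℚ) / (2 * p) = f / 2 := by field_simp
      rw [e] at hsum
      linarith
    · have hc1 := S.card_not_sq hnsq
      have hcQ : (S.T.card : ℚ) = p - 1 := by
        rw [hc1, Nat.cast_sub (by omega)]; simp
      rw [hcQ] at hsum
      have h6 : 6 * (p : ℚ) ≤ f * (p + 1) := by
        have e : 5 - (f : ℚ) + f * ((p : ℚ) - 1) / (2 * p)
            = (10 * p - f * (p + 1)) / (2 * p) := by field_simp; ring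
        rw [e, div_le_iff₀ (by positivity)] at hsum
        linarith
      have h7 : 6 * p ≤ f * (p + 1) := by exact_mod_cast h6
      have hp5' : p = 5 := by nlinarith
      have hf5' : f = 5 := by
        rw [hp5'] at h7; omega
      have hYz : Y = 0 := YY_zero w hf5'
      have hpq : (p : ℚ) = 5 := by exact_mod_cast hp5'
      have hfq : (f : ℚ) = 5 := by exact_mod_cast hf5'
      have hT4 : (T1.card : ℚ) + T2.card = 4 := by rw [hnQ, hcQ, hpq]; norm_num
      rw [hYz, hpq, hfq] at hL hU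
      have hPval : P = (3 - (T1.card : ℚ)) / 2 := by
        apply le_antisymm
        · linarith
        · linarith
      have hT1c : T1.card ≤ 3 := by
        have : T1.card + T2.card = 4 := by exact_mod_cast hT4
        omega
      exact no_five hp hu hx S hp5' hf5' T1 (Finset.filter_subset _ _) h01 hone hT1c hPval
  have hT1n : T1.card = S.T.card := by omega
  rw [hT1n] at hL
  rcases hcase with hsq | ⟨hp5, hnsq⟩
  · have hPpos : 0 < P := hP2 hsq (by omega)
    rw [S.card_sq hsq] at hL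
    have hL' : Y + f * ((p : ℚ) - 1) / (2 * p) < 1 := by linarith
    have hL2 : Y * (2 * p) + f * ((p : ℚ) - 1) < 2 * p := by
      have e : Y + f * ((p : ℚ) - 1) / (2 * p) = (Y * (2 * p) + f * ((p : ℚ) - 1)) / (2 * p) := by
        field_simp
      rw [e, div_lt_one (by positivity)] at hL'
      exact hL'
    have hYp : 0 ≤ Y * (2 * p) := by positivity
    have hf4 : f = 2 ∨ f = 3 := by
      by_contra hne
      have hf4 : 4 ≤ f := by omega
      have hf4Q : (4 : ℚ) ≤ f := by exact_mod_cast hf4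
      nlinarith
    rcases hf4 with h | h
    · left
      refine ⟨h, ?_⟩
      have hq : (f : ℚ) = 2 := by exact_mod_cast h
      rw [hq] at hL2
      nlinarith
    · right
      refine ⟨h, ?_⟩
      have hq : (f : ℚ) = 3 := by exact_mod_cast h
      rw [hq] at hL2
      have hp3 : p < 3 := by
        by_contra hge
        have : (3 : ℚ) ≤ p := by exact_mod_cast (not_lt.1 hge)
        nlinarith
      have hp2' : (p : ℚ) = 2 := by
        have : p = 2 := by omega
        exact_mod_cast this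
      rw [hp2'] at hL2
      linarith
  · have hc1 := S.card_not_sq hnsq
    have hcQ : (S.T.card : ℚ) = p - 1 := by
      rw [hc1, Nat.cast_sub (by omega)]; simp
    rw [hcQ] at hL
    have hp5Q : (5 : ℚ) ≤ p := by exact_mod_cast hp5
    have hL2 : Y * (2 * p) + f * ((p : ℚ) - 2) ≤ 2 * p := by
      have hL' : Y + f * ((p : ℚ) - 1 - 1) / (2 * p) ≤ 1 := by linarith
      have e : Y + f * ((p : ℚ) - 1 - 1) / (2 * p)
          = (Y * (2 * p) + f * ((p : ℚ) - 2)) / (2 * p) := by
        field_simp; ring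
      rw [e, div_le_one (by positivity)] at hL'
      exact hL'
    have hYp : 0 ≤ Y * (2 * p) := by positivity
    have hf4 : f = 2 ∨ f = 3 := by
      by_contra hne
      have hf4 : 4 ≤ f := by omega
      have hf4Q : (4 : ℚ) ≤ f := by exact_mod_cast hf4
      nlinarith
    rcases hf4 with h | h
    · left
      refine ⟨h, ?_⟩
      have hq : (f : ℚ) = 2 := by exact_mod_cast h
      rw [hq] at hL2
      nlinarith
    · right
      refine ⟨h, ?_⟩
      have hq : (f : ℚ) = 3 := by exact_mod_cast h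
      rw [hq] at hL2
      nlinarith

end aux

theorem five (x : Fin 5 → ℚ) (d : ℕ) (hd : 0 < d) (hdx : ∀ j, ∃ u : ℤ, (d : ℚ) * x j = u)
    (hx : ∀ j, ∀ l : ℤ, x j ≠ l)
    (H : ∀ w : ℤ, IsCoprime w (d : ℤ) →
      ∑ j, Int.fract ((w : ℚ) * x j) = 1 ∨ ∑ j, Int.fract (-((w : ℚ) * x j)) = 1) :
    ∀ j, ∃ l : ℤ, 6 * x j = l := by
  classical
  obtain ⟨d0, u, hd0, hu, hmin, hlift⟩ := min_denom x d hd hdx
  have H0 : ∀ w : ℤ, IsCoprime w (d0 : ℤ) →
      ∑ j, Int.fract ((w : ℚ) * x j) = 1 ∨ ∑ j, Int.fract (-((w : ℚ) * x j)) = 1 := by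
    intro w hw
    obtain ⟨w', hw', h1⟩ := hlift w hw
    rcases H w' hw' with h | h
    · left
      rw [← h]
      exact Finset.sum_congr rfl fun j _ => ((h1 j).1).symm
    · right
      rw [← h]
      exact Finset.sum_congr rfl fun j _ => ((h1 j).2).symm
  rcases bad_prime d0 hd0 with h6 | ⟨p, hp, hpd, hcase⟩
  · intro j
    obtain ⟨c, hc⟩ := h6
    refine ⟨c * u j, ?_⟩
    have h7 : (6 : ℚ) = d0 * c := by exact_mod_cast hc
    rw [h7]
    push_cast
    rw [← hu j]
    ring
  · exfalso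
    -- at least one moving index
    have hf1 : 1 ≤ fF p u := by
      obtain ⟨j, hj⟩ := hmin p hp hpd
      rw [fF_eq]
      exact Finset.card_pos.2 ⟨j, by simp [hj]⟩
    -- the sum of the `u j` is divisible by `p`
    have hsum : (p : ℤ) ∣ ∑ j, u j := by
      have hint : ∃ N : ℤ, ∑ j, x j = N := by
        rcases H0 1 isCoprime_one_left with h | h
        · refine ⟨∑ j, ⌊x j⌋ + 1, ?_⟩
          have h1 : ∑ j, x j = ∑ j, ((⌊x j⌋ : ℚ) + Int.fract (x j)) :=
            Finset.sum_congr rfl fun j _ => (Int.floor_add_fract (x j)).symm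
          rw [h1, Finset.sum_add_distrib]
          simp only [Int.cast_one, one_mul] at h
          rw [h]
          push_cast
          ring
        · refine ⟨-(∑ j, ⌊-x j⌋ + 1), ?_⟩
          have h1 : ∑ j, -x j = ∑ j, ((⌊-x j⌋ : ℚ) + Int.fract (-x j)) :=
            Finset.sum_congr rfl fun j _ => (Int.floor_add_fract (-x j)).symm
          rw [Finset.sum_add_distrib] at h1
          simp only [Int.cast_one, one_mul] at h
          rw [h, Finset.sum_neg_distrib] at h1
          push_cast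
          linarith
      obtain ⟨N, hN⟩ := hint
      have h2 : ∑ j, u j = d0 * N := by
        have : ((∑ j, u j : ℤ) : ℚ) = ((d0 * N : ℤ) : ℚ) := by
          push_cast
          rw [← hN, Finset.mul_sum]
          exact Finset.sum_congr rfl fun j _ => (hu j).symm
        exact_mod_cast this
      rw [h2]
      exact Dvd.dvd.mul_right (by exact_mod_cast hpd) N
    have hf2 : 2 ≤ fF p u := by
      by_contra hlt
      have hf : fF p u = 1 := by omega
      rw [fF_eq, Finset.card_eq_one] at hf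
      obtain ⟨i, hi⟩ := hf
      have hi1 : ¬ (p : ℤ) ∣ u i := by
        have : i ∈ (Finset.univ.filter fun j => ¬ (p : ℤ) ∣ u j) := by rw [hi]; simp
        simpa using this
      apply hi1
      have h3 : ∑ j, u j = u i + ∑ j ∈ Finset.univ.erase i, u j :=
        (Finset.add_sum_erase _ _ (Finset.mem_univ i)).symm
      have h4 : (p : ℤ) ∣ ∑ j ∈ Finset.univ.erase i, u j := by
        refine Finset.dvd_sum fun j hj => ?_
        by_contra hnd
        have : j ∈ (Finset.univ.filter fun j => ¬ (p : ℤ) ∣ u j) := by simp [hnd]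
        rw [hi, Finset.mem_singleton] at this
        exact (Finset.mem_erase.1 hj).1 this
      rw [h3] at hsum
      exact (dvd_add_left h4).1 hsum
    have K := key hd0 hp hpd hu hx hf2 hcase H0
    -- the fixed indices
    have hYs : ∀ w : ℤ, YY x p u w
        = ∑ j : {j : Fin 5 // (p : ℤ) ∣ u j}, Int.fract ((w : ℚ) * x j.1) := by
      intro w
      rw [YY_eq]
      exact Finset.sum_subtype _ (by simp) _
    have hcardJ : Fintype.card {j : Fin 5 // (p : ℤ) ∣ u j} + fF p u = 5 := by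
      rw [Fintype.card_subtype]
      exact card_fix
    have hall : ∀ θ : ℚ, (∀ w : ℤ, IsCoprime w (d0 : ℤ) →
          ∑ j, Int.fract ((w : ℚ) * x j) = 1 → YY x p u w < θ) →
        ∀ w : ℤ, IsCoprime w (d0 : ℤ) →
          ∑ j : {j : Fin 5 // (p : ℤ) ∣ u j}, Int.fract ((w : ℚ) * x j.1) < θ ∨
          ∑ j : {j : Fin 5 // (p : ℤ) ∣ u j}, Int.fract (-((w : ℚ) * x j.1)) < θ := by
      intro θ hθ w hw
      rcases H0 w hw with h | h
      · left
        rw [← hYs]
        exact hθ w hw h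
      · right
        have h8 : ∀ j, ((-w : ℤ) : ℚ) * x j = -((w : ℚ) * x j) := by
          intro j; push_cast; ring
        have h9 := hθ (-w) hw.neg_left (by
          rw [← h]
          exact Finset.sum_congr rfl fun j _ => by rw [h8])
        rw [hYs] at h9
        calc ∑ j : {j : Fin 5 // (p : ℤ) ∣ u j}, Int.fract (-((w : ℚ) * x j.1))
            = ∑ j : {j : Fin 5 // (p : ℤ) ∣ u j}, Int.fract (((-w : ℤ) : ℚ) * x j.1) :=
              Finset.sum_congr rfl fun j _ => by rw [h8]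
          _ < θ := h9
    by_cases hfc : fF p u = 2
    · refine lemmaJ (ι := {j : Fin 5 // (p : ℤ) ∣ u j}) (fun j => x j.1) (1 / 2)
        (Or.inl ⟨by omega, rfl⟩) (fun j => hx j.1) d0 hd0 (fun j => ⟨u j.1, hu j.1⟩)
        (hall (1 / 2) fun w hw h => ?_)
      rcases K w hw h with h1 | h1
      · exact h1.2
      · exact absurd h1.1 (by omega)
    · have hf3 : fF p u = 3 := by
        have hex : ∃ w : ℤ, IsCoprime w (d0 : ℤ) ∧ ∑ j, Int.fract ((w : ℚ) * x j) = 1 := by
          rcases H0 1 isCoprime_one_left with h | h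
          · exact ⟨1, isCoprime_one_left, h⟩
          · refine ⟨-1, isCoprime_one_left.neg_left, ?_⟩
            rw [← h]
            refine Finset.sum_congr rfl fun j _ => ?_
            congr 1
            push_cast
            ring
        obtain ⟨w, hw, h⟩ := hex
        rcases K w hw h with h1 | h1
        · exact absurd h1.1 hfc
        · exact h1.1
      refine lemmaJ (ι := {j : Fin 5 // (p : ℤ) ∣ u j}) (fun j => x j.1) (1 / 4)
        (Or.inr ⟨by omega, rfl⟩) (fun j => hx j.1) d0 hd0 (fun j => ⟨u j.1, hu j.1⟩)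
        (hall (1 / 4) fun w hw h => ?_)
      rcases K w hw h with h1 | h1
      · exact absurd h1.1 hfc
      · exact h1.2

end Pool.H61.QF
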