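import Pool.Agent.H61.QF.Sh

/-!
Module Sm (uses the statements of Sh): the two inequalities for shift data.

Notation for `S : SD x d p u w`: `fF` = number of moving indices (`¬ p ∣ u_j`), `YY` = sum of
`fract (w x_j)` over the fixed indices, `PP` = sum of `ρ_j` over the moving indices.

PROOFS. `lower`: `∑_{t ∈ T1} ∑_j fract (W t x_j)`; a fixed index contributes
`card T1 * fract (w x_j)`; a moving index contributes
`∑_{t ∈ T1} (R_j(t)/p + ρ_j) ≥ n (n-1)/(2p) + n ρ_j` (`sum_distinct`, `n = card T1`).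
`upper`: a fixed index contributes `n (1 - fract (w x_j))`; a moving one
`∑ (1 - R_j(t)/p - ρ_j) = ∑ ((p - 1 - R_j(t))/p + 1/p - ρ_j) ≥ n (n-1)/(2p) + n (1/p - ρ_j)`.
-/

set_option autoImplicit false

namespace Pool.H61.QF

variable {ι : Type} [Fintype ι] {x : ι → ℚ} {d p : ℕ} {u : ι → ℤ} {w : ℤ}

/-- The number of moving indices. -/
noncomputable def fF (p : ℕ) (u : ι → ℤ) : ℕ :=
  open Classical in (Finset.univ.filter fun j => ¬ (p : ℤ) ∣ u j).card

/-- Sum of the fractional parts of the fixed indices. -/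
noncomputable def YY (x : ι → ℚ) (p : ℕ) (u : ι → ℤ) (w : ℤ) : ℚ :=
  open Classical in ∑ j ∈ Finset.univ.filter (fun j => (p : ℤ) ∣ u j), Int.fract ((w : ℚ) * x j)

/-- Sum of the `ρ_j` over the moving indices. -/
noncomputable def PP (S : SD x d p u w) : ℚ :=
  open Classical in ∑ j ∈ Finset.univ.filter (fun j => ¬ (p : ℤ) ∣ u j), S.ρ j

private theorem Sm_lo (hp : p.Prime) (S : SD x d p u w) (T1 : Finset ℕ) (h1 : T1 ⊆ S.T) (j : ι)
    (hj : ¬ (p : ℤ) ∣ u j) :
    (T1.card : ℚ) * (T1.card - 1) / (2 * p) + T1.card * S.ρ j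
      ≤ ∑ t ∈ T1, Int.fract ((S.W t : ℚ) * x j) := by
  have hp0 : (0 : ℚ) < p := by exact_mod_cast hp.pos
  have e1 : ∑ t ∈ T1, Int.fract ((S.W t : ℚ) * x j)
      = (∑ t ∈ T1, (S.R j t : ℚ)) / p + T1.card * S.ρ j := by
    rw [Finset.sum_congr rfl fun t ht => S.mov j hj t (h1 ht), Finset.sum_add_distrib,
      Finset.sum_div, Finset.sum_const, nsmul_eq_mul]
  have e2 := sum_distinct T1 (S.R j) ((S.inj j hj).mono (by exact_mod_cast h1))
  have e3 : ((T1.card : ℚ) * (T1.card - 1)) / 2 / p ≤ (∑ t ∈ T1, (S.R j t : ℚ)) / p :=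
    div_le_div_of_nonneg_right e2 hp0.le
  have e4 : (T1.card : ℚ) * (T1.card - 1) / (2 * p) = ((T1.card : ℚ) * (T1.card - 1)) / 2 / p := by
    rw [div_div]
  rw [e1, e4]
  linarith

private theorem Sm_up (hp : p.Prime) (S : SD x d p u w) (T2 : Finset ℕ) (h2 : T2 ⊆ S.T) (j : ι)
    (hj : ¬ (p : ℤ) ∣ u j) :
    (T2.card : ℚ) * (T2.card - 1) / (2 * p) + T2.card * (1 / p - S.ρ j)
      ≤ ∑ t ∈ T2, (1 - Int.fract ((S.W t : ℚ) * x j)) := by
  have hp0 : (0 : ℚ) < p := by exact_mod_cast hp.pos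
  have e1 : ∑ t ∈ T2, (1 - Int.fract ((S.W t : ℚ) * x j))
      = (∑ t ∈ T2, ((p : ℚ) - 1 - S.R j t)) / p + T2.card * (1 / p - S.ρ j) := by
    rw [Finset.sum_div, ← nsmul_eq_mul, ← Finset.sum_const, ← Finset.sum_add_distrib]
    refine Finset.sum_congr rfl fun t ht => ?_
    rw [S.mov j hj t (h2 ht)]
    field_simp
    ring
  have e2 := sum_distinct' T2 (S.R j) ((S.inj j hj).mono (by exact_mod_cast h2)) p
    (fun t ht => S.R_lt j hj t (h2 ht))
  have e3 : ((T2.card : ℚ) * (T2.card - 1)) / 2 / p ≤ (∑ t ∈ T2, ((p : ℚ) - 1 - S.R j t)) / p :=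
    div_le_div_of_nonneg_right e2 hp0.le
  have e4 : (T2.card : ℚ) * (T2.card - 1) / (2 * p) = ((T2.card : ℚ) * (T2.card - 1)) / 2 / p := by
    rw [div_div]
  rw [e1, e4]
  linarith

theorem PP_bounds (hp : p.Prime) (S : SD x d p u w) :
    0 ≤ PP S ∧ (0 < fF p u → PP S < fF p u / p) ∧ (p ^ 2 ∣ d → 0 < fF p u → 0 < PP S) := by
  classical
  refine ⟨?_, ?_, ?_⟩
  · unfold PP
    exact Finset.sum_nonneg fun j _ => S.ρ_nonneg j
  · intro h
    unfold fF at h
    have hne := Finset.card_pos.1 h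
    have h1 : PP S < ∑ _j ∈ Finset.univ.filter (fun j => ¬ (p : ℤ) ∣ u j), (1 / (p : ℚ)) := by
      unfold PP
      exact Finset.sum_lt_sum_of_nonempty (by convert hne) fun j _ => S.ρ_lt j
    rw [Finset.sum_const, nsmul_eq_mul, mul_one_div] at h1
    unfold fF
    convert h1
  · intro hd h
    unfold fF at h
    have hne := Finset.card_pos.1 h
    unfold PP
    refine Finset.sum_pos (fun j hj => S.ρ_pos hd j ?_) (by convert hne)
    exact (Finset.mem_filter.1 hj).2

theorem lower (hp : p.Prime) (S : SD x d p u w) (T1 : Finset ℕ) (h1 : T1 ⊆ S.T) :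
    (T1.card : ℚ) * (YY x p u w + fF p u * (T1.card - 1) / (2 * p) + PP S)
      ≤ ∑ t ∈ T1, ∑ j, Int.fract ((S.W t : ℚ) * x j) := by
  classical
  rw [Finset.sum_comm, ← Finset.sum_filter_add_sum_filter_not Finset.univ
    (fun j => (p : ℤ) ∣ u j)]
  have e1 : ∑ j ∈ Finset.univ.filter (fun j => (p : ℤ) ∣ u j),
      ∑ t ∈ T1, Int.fract ((S.W t : ℚ) * x j) = T1.card * YY x p u w := by
    unfold YY
    rw [Finset.mul_sum]
    refine Finset.sum_congr (by congr) fun j hj => ?_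
    rw [Finset.sum_congr rfl fun t ht => S.fix j (Finset.mem_filter.1 hj).2 t (h1 ht),
      Finset.sum_const, nsmul_eq_mul]
  have e2 : (fF p u : ℚ) * ((T1.card : ℚ) * (T1.card - 1) / (2 * p)) + T1.card * PP S
      ≤ ∑ j ∈ Finset.univ.filter (fun j => ¬ (p : ℤ) ∣ u j),
        ∑ t ∈ T1, Int.fract ((S.W t : ℚ) * x j) := by
    have e3 : (fF p u : ℚ) * ((T1.card : ℚ) * (T1.card - 1) / (2 * p)) + T1.card * PP S
        = ∑ j ∈ Finset.univ.filter (fun j => ¬ (p : ℤ) ∣ u j),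
          ((T1.card : ℚ) * (T1.card - 1) / (2 * p) + T1.card * S.ρ j) := by
      rw [Finset.sum_add_distrib, Finset.sum_const, nsmul_eq_mul, ← Finset.mul_sum]
      unfold fF PP
      congr!
    rw [e3]
    exact Finset.sum_le_sum fun j hj => Sm_lo hp S T1 h1 j (Finset.mem_filter.1 hj).2
  rw [e1]
  refine le_trans (le_of_eq ?_) (add_le_add_right e2 _)
  ring

theorem upper (hp : p.Prime) (S : SD x d p u w) (T2 : Finset ℕ) (h2 : T2 ⊆ S.T) :
    (T2.card : ℚ) * ((Fintype.card ι - fF p u) - YY x p u w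
        + fF p u * (T2.card - 1) / (2 * p) + fF p u / p - PP S)
      ≤ ∑ t ∈ T2, ∑ j, (1 - Int.fract ((S.W t : ℚ) * x j)) := by
  classical
  rw [Finset.sum_comm, ← Finset.sum_filter_add_sum_filter_not Finset.univ
    (fun j => (p : ℤ) ∣ u j)]
  have hcard : ((Finset.univ.filter (fun j => (p : ℤ) ∣ u j)).card : ℚ)
      = Fintype.card ι - fF p u := by
    have h := Finset.card_filter_add_card_filter_not (s := (Finset.univ : Finset ι))
      (fun j => (p : ℤ) ∣ u j)
    rw [Finset.card_univ] at h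
    have h3 : fF p u = (Finset.univ.filter (fun j => ¬ (p : ℤ) ∣ u j)).card := by
      unfold fF
      congr!
    rw [h3, ← h]
    push_cast
    ring
  have e1 : ∑ j ∈ Finset.univ.filter (fun j => (p : ℤ) ∣ u j),
      ∑ t ∈ T2, (1 - Int.fract ((S.W t : ℚ) * x j))
        = T2.card * ((Fintype.card ι - fF p u) - YY x p u w) := by
    have e4 : ∑ j ∈ Finset.univ.filter (fun j => (p : ℤ) ∣ u j),
        ∑ t ∈ T2, (1 - Int.fract ((S.W t : ℚ) * x j))
        = ∑ j ∈ Finset.univ.filter (fun j => (p : ℤ) ∣ u j),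
          (T2.card : ℚ) * (1 - Int.fract ((w : ℚ) * x j)) := by
      refine Finset.sum_congr rfl fun j hj => ?_
      rw [Finset.sum_congr rfl fun t ht => by
        rw [S.fix j (Finset.mem_filter.1 hj).2 t (h2 ht)], Finset.sum_const, nsmul_eq_mul]
    rw [e4, ← Finset.mul_sum, Finset.sum_sub_distrib, Finset.sum_const, nsmul_eq_mul, mul_one,
      hcard]
    unfold YY
    congr!
  have e2 : (fF p u : ℚ) * ((T2.card : ℚ) * (T2.card - 1) / (2 * p))
      + T2.card * (fF p u / p - PP S)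
      ≤ ∑ j ∈ Finset.univ.filter (fun j => ¬ (p : ℤ) ∣ u j),
        ∑ t ∈ T2, (1 - Int.fract ((S.W t : ℚ) * x j)) := by
    have e3 : (fF p u : ℚ) * ((T2.card : ℚ) * (T2.card - 1) / (2 * p))
        + T2.card * (fF p u / p - PP S)
        = ∑ j ∈ Finset.univ.filter (fun j => ¬ (p : ℤ) ∣ u j),
          ((T2.card : ℚ) * (T2.card - 1) / (2 * p) + T2.card * (1 / p - S.ρ j)) := by
      rw [Finset.sum_add_distrib, Finset.sum_const, nsmul_eq_mul, ← Finset.mul_sum,
        Finset.sum_sub_distrib, Finset.sum_const, nsmul_eq_mul, mul_one_div]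
      unfold fF PP
      congr!
    rw [e3]
    exact Finset.sum_le_sum fun j hj => Sm_up hp S T2 h2 j (Finset.mem_filter.1 hj).2
  rw [e1]
  refine le_trans (le_of_eq ?_) (add_le_add_right e2 _)
  ring

end Pool.H61.QF
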