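import Pool.Agent.H61.QF.Mi
import Pool.Agent.H61.QF.Sm

/-!
Module LJ (uses the statements of Mi, Sh, Sm): Lemma J.

PROOF. `g = card ι`, `(g, θ) = (3, 1/2)` or `(2, 1/4)`. Replace `d` by the minimal `d0`
(`min_denom`); the hypothesis holds for all `w` prime to `d0`. All `w x_j` are non-integers,
so `fract (-(w x_j)) = 1 - fract (w x_j)`. Call `w` of class A if `∑ fract (w x_j) < θ`, else
class B: `∑ (1 - fract (w x_j)) < θ` (not both: the two sums add up to `g > 2θ`).
If `d0 ∣ 6`: `fract (x_j), 1 - fract (x_j) ≥ 1/6` (`frac_lower`), so with `w = 1` we get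
`g/6 < θ`, false in both cases. Otherwise take `p` from `bad_prime`; `1` or `-1` is of class A,
call it `w`. Take `S` from `shift`, `n = card T` (`n = p` if `p^2 ∣ d0`, else `n = p - 1` and
`p ≥ 5`), `f = fF ≥ 1` (minimality of `d0`), `f ≤ g`; `T1`, `T2` = the `t ∈ T` with `W t` of
class A, B; `0 ∈ T1`. `n1 + n2 = n`. `lower` gives `θ > Y + f (n1-1)/(2p) + P`. If `n2 ≥ 1`,
`upper` gives `θ > (g - f) - Y + f (n2 - 1)/(2p) + f/p - P`; the sum is
`2θ > g - f + f n/(2p)`. Case `n = p`: `2θ > g - f/2 ≥ g/2`: `g = 3`: `1 > 3/2` false; `g = 2`: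
`1/2 > 1` false. Case `n = p - 1`, `p ≥ 5`: `2θ > g - f (p+1)/(2p) ≥ g - g * 6/10 = 2g/5`:
`g = 3`: `1 > 6/5` false; `g = 2`: `1/2 > 4/5` false. So `n2 = 0`, `T = T1`. Take a moving `j`; by
`exists_large` there is `t ∈ T` with `R_j(t) ≥ n - 1`, so
`1/2 ≥ θ > fract (W t x_j) ≥ (n-1)/p`. If `n = p` this says `1/2 > (p-1)/p`, false for `p ≥ 2`; if
`n = p - 1`, `p ≥ 5`: `1/2 > (p-2)/p`, false.
-/

set_option autoImplicit false

namespace Pool.H61.QF

private theorem sum_lt_card {T : Finset ℕ} (F : ℕ → ℚ) {θ : ℚ} (hT : T.Nonempty)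
    (h : ∀ t ∈ T, F t < θ) : ∑ t ∈ T, F t < (T.card : ℚ) * θ := by
  calc ∑ t ∈ T, F t < ∑ _t ∈ T, θ := Finset.sum_lt_sum_of_nonempty hT h
    _ = _ := by rw [Finset.sum_const, nsmul_eq_mul]

theorem lemmaJ {ι : Type} [Fintype ι] (x : ι → ℚ) (θ : ℚ)
    (hcard : (Fintype.card ι = 3 ∧ θ = 1 / 2) ∨ (Fintype.card ι = 2 ∧ θ = 1 / 4))
    (hx : ∀ j, ∀ l : ℤ, x j ≠ l) (d : ℕ) (hd : 0 < d)
    (hdx : ∀ j, ∃ u : ℤ, (d : ℚ) * x j = u)
    (H : ∀ w : ℤ, IsCoprime w (d : ℤ) →
      ∑ j, Int.fract ((w : ℚ) * x j) < θ ∨ ∑ j, Int.fract (-((w : ℚ) * x j)) < θ) :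
    False := by
  classical
  obtain ⟨d0, u, hd0, hu, hmin, hlift⟩ := min_denom x d hd hdx
  -- multiples are not integers
  have hni : ∀ w : ℤ, IsCoprime w (d0 : ℤ) → ∀ j, ∀ l : ℤ, (w : ℚ) * x j ≠ l := by
    intro w hw j l hl
    obtain ⟨a, b, hab⟩ := hw
    refine hx j (a * l + b * u j) ?_
    have h1 : ((a * w + b * (d0 : ℤ) : ℤ) : ℚ) = 1 := by rw [hab]; norm_num
    push_cast at h1 ⊢
    calc x j = (a * w + b * (d0 : ℚ)) * x j := by rw [h1, one_mul]
      _ = a * (w * x j) + b * ((d0 : ℚ) * x j) := by ring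
      _ = _ := by rw [hl, hu]
  have H1 : ∀ w : ℤ, IsCoprime w (d0 : ℤ) →
      ∑ j, Int.fract ((w : ℚ) * x j) < θ ∨ ∑ j, (1 - Int.fract ((w : ℚ) * x j)) < θ := by
    intro w hw
    obtain ⟨w', hw', h⟩ := hlift w hw
    rcases H w' hw' with h1 | h1
    · left
      rwa [Finset.sum_congr rfl fun j _ => (h j).1] at h1
    · right
      rw [Finset.sum_congr rfl fun j _ => (h j).2] at h1
      rwa [Finset.sum_congr rfl fun j _ => fract_neg' _ (hni w hw j)] at h1
  have hcop1 : IsCoprime (1 : ℤ) (d0 : ℤ) := isCoprime_one_left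
  have hg : (Fintype.card ι : ℚ) = 3 ∧ θ = 1 / 2 ∨ (Fintype.card ι : ℚ) = 2 ∧ θ = 1 / 4 := by
    rcases hcard with ⟨h1, h2⟩ | ⟨h1, h2⟩
    · left; exact ⟨by rw [h1]; norm_num, h2⟩
    · right; exact ⟨by rw [h1]; norm_num, h2⟩
  rcases bad_prime d0 hd0 with h6 | ⟨p, hp, hpd, hpp⟩
  · -- the denominator divides 6
    obtain ⟨e, he⟩ := h6
    have h6x : ∀ j, ∃ l : ℤ, 6 * x j = l := by
      intro j
      refine ⟨e * u j, ?_⟩
      have h1 : (6 : ℚ) = d0 * e := by exact_mod_cast he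
      push_cast
      rw [← hu, h1]; ring
    have ha : ∀ j, 1 / 6 ≤ Int.fract (x j) := fun j => frac_lower _ (h6x j) (hx j)
    have hb : ∀ j, 1 / 6 ≤ 1 - Int.fract (x j) := by
      intro j
      rw [← fract_neg' _ (hx j)]
      refine frac_lower _ ?_ ?_
      · obtain ⟨l, hl⟩ := h6x j
        exact ⟨-l, by push_cast; rw [← hl]; ring⟩
      · intro l hl
        exact hx j (-l) (by push_cast; rw [← hl]; ring)
    have hsum : ∀ F : ι → ℚ, (∀ j, 1 / 6 ≤ F j) → (Fintype.card ι : ℚ) / 6 ≤ ∑ j, F j := by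
      intro F hF
      calc (Fintype.card ι : ℚ) / 6 = ∑ _j : ι, (1 / 6 : ℚ) := by
            rw [Finset.sum_const, nsmul_eq_mul, Finset.card_univ]; ring
        _ ≤ _ := Finset.sum_le_sum fun j _ => hF j
    have h1 := H1 1 hcop1
    simp only [Int.cast_one, one_mul] at h1
    have h2 := hsum _ ha
    have h3 := hsum _ hb
    rcases hg with ⟨h4, h5⟩ | ⟨h4, h5⟩ <;> rcases h1 with h1 | h1 <;> rw [h4] at h2 h3 <;>
      rw [h5] at h1 <;> linarith
  · -- a multiplier of class A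
    obtain ⟨w, hw, hwA⟩ : ∃ w : ℤ, IsCoprime w (d0 : ℤ) ∧ ∑ j, Int.fract ((w : ℚ) * x j) < θ := by
      rcases H1 1 hcop1 with h1 | h1
      · exact ⟨1, hcop1, h1⟩
      · refine ⟨-1, hcop1.neg_left, ?_⟩
        rw [Finset.sum_congr rfl fun j _ => ?_] at h1
        · exact h1
        · have := fract_neg' _ (hni 1 hcop1 j)
          rw [← this]
          congr 1
          push_cast; ring
    obtain ⟨S⟩ := shift x d0 p hd0 hp hpd u hu w hw
    have hp0 : (0 : ℚ) < p := by exact_mod_cast hp.pos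
    have hp2 : (2 : ℚ) ≤ p := by exact_mod_cast hp.two_le
    obtain ⟨j0, hj0⟩ := hmin p hp hpd
    have hf1 : (1 : ℚ) ≤ fF p u := by
      have : 0 < fF p u := Finset.card_pos.mpr ⟨j0, by simpa using hj0⟩
      exact_mod_cast this
    have hfg : (fF p u : ℚ) ≤ Fintype.card ι := by
      have : fF p u ≤ Fintype.card ι := (Finset.card_filter_le _ _).trans (le_of_eq rfl)
      exact_mod_cast this
    set T1 := S.T.filter (fun t => ∑ j, Int.fract ((S.W t : ℚ) * x j) < θ) with hT1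
    set T2 := S.T.filter (fun t => ¬ ∑ j, Int.fract ((S.W t : ℚ) * x j) < θ) with hT2
    have hn : (T1.card : ℚ) + T2.card = S.T.card := by
      exact_mod_cast Finset.card_filter_add_card_filter_not (s := S.T)
        (fun t => ∑ j, Int.fract ((S.W t : ℚ) * x j) < θ)
    have h0 : 0 ∈ T1 := by
      rw [hT1, Finset.mem_filter]
      refine ⟨S.zero_mem, ?_⟩
      rw [S.W0]; exact hwA
    have hT1ne : T1.Nonempty := ⟨0, h0⟩
    have hn1 : (0 : ℚ) < T1.card := by exact_mod_cast Finset.card_pos.mpr hT1ne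
    have hlow : YY x p u w + fF p u * (T1.card - 1) / (2 * p) + PP S < θ := by
      have h1 := lower hp S T1 (Finset.filter_subset _ _)
      have h2 := sum_lt_card (T := T1) (fun t => ∑ j, Int.fract ((S.W t : ℚ) * x j)) hT1ne
        (fun t ht => (Finset.mem_filter.mp ht).2)
      exact lt_of_mul_lt_mul_left (h1.trans_lt h2) hn1.le
    -- the size of `T`
    have hsize : (S.T.card : ℚ) = p ∨ (5 : ℚ) ≤ p ∧ (S.T.card : ℚ) = p - 1 := by
      rcases hpp with h1 | ⟨h1, h2⟩
      · left; rw [S.card_sq h1]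
      · right
        refine ⟨by exact_mod_cast h1, ?_⟩
        rw [S.card_not_sq h2, Nat.cast_sub hp.one_le, Nat.cast_one]
    rcases T2.eq_empty_or_nonempty with hT2e | hT2ne
    · -- all shifts are of class A
      have hall : ∀ t ∈ S.T, ∑ j, Int.fract ((S.W t : ℚ) * x j) < θ := by
        intro t ht
        by_contra hcon
        have : t ∈ T2 := by rw [hT2, Finset.mem_filter]; exact ⟨ht, hcon⟩
        rw [hT2e] at this
        exact absurd this (Finset.notMem_empty _)
      obtain ⟨t, ht, hR⟩ := exists_large S.T (S.R j0) (S.inj j0 hj0) ⟨0, S.zero_mem⟩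
      have h1 := hall t ht
      have h2 : Int.fract ((S.W t : ℚ) * x j0) ≤ ∑ j, Int.fract ((S.W t : ℚ) * x j) :=
        Finset.single_le_sum (f := fun j => Int.fract ((S.W t : ℚ) * x j))
          (fun j _ => Int.fract_nonneg _) (Finset.mem_univ j0)
      rw [S.mov j0 hj0 t ht] at h2
      have h3 := S.ρ_nonneg j0
      have h4 : ((S.T.card : ℚ) - 1) / p ≤ (S.R j0 t : ℚ) / p := by
        refine div_le_div_of_nonneg_right ?_ hp0.le
        have h5 : S.T.card ≤ S.R j0 t + 1 := by omega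
        have h6 : (S.T.card : ℚ) ≤ S.R j0 t + 1 := by exact_mod_cast h5
        linarith
      have h5 : ((S.T.card : ℚ) - 1) / p < 1 / 2 := by
        rcases hg with ⟨-, h6⟩ | ⟨-, h6⟩ <;> rw [h6] at h1 <;> linarith
      rw [div_lt_iff₀ hp0] at h5
      rcases hsize with h6 | ⟨h6, h7⟩
      · rw [h6] at h5; linarith
      · rw [h7] at h5; linarith
    · -- both classes occur
      have hn2 : (0 : ℚ) < T2.card := by exact_mod_cast Finset.card_pos.mpr hT2ne
      have hup : ((Fintype.card ι : ℚ) - fF p u) - YY x p u w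
          + fF p u * (T2.card - 1) / (2 * p) + fF p u / p - PP S < θ := by
        have h1 := upper hp S T2 (Finset.filter_subset _ _)
        have h2 := sum_lt_card (T := T2) (fun t => ∑ j, (1 - Int.fract ((S.W t : ℚ) * x j)))
          hT2ne (fun t ht => by
            obtain ⟨h3, h4⟩ := Finset.mem_filter.mp ht
            exact (H1 (S.W t) (S.cop t h3)).resolve_left h4)
        exact lt_of_mul_lt_mul_left (h1.trans_lt h2) hn2.le
      have hsum : (Fintype.card ι : ℚ) - fF p u + fF p u * S.T.card / (2 * p) < 2 * θ := by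
        have h1 : (fF p u : ℚ) * (T1.card - 1) / (2 * p) + (fF p u * (T2.card - 1) / (2 * p)
            + fF p u / p) = fF p u * S.T.card / (2 * p) := by
          rw [← hn]; field_simp; ring
        linarith
      rcases hsize with h6 | ⟨h6, h7⟩
      · rw [h6] at hsum
        have h8 : (fF p u : ℚ) * p / (2 * p) = fF p u / 2 := by field_simp
        rw [h8] at hsum
        rcases hg with ⟨h9, h10⟩ | ⟨h9, h10⟩ <;> rw [h9] at hsum hfg <;> rw [h10] at hsum <;>
          linarith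
      · rw [h7] at hsum
        have h8 : (fF p u : ℚ) * (4 / 10) ≤ (fF p u : ℚ) * (p - 1) / (2 * p) := by
          rw [le_div_iff₀ (by positivity)]
          nlinarith
        rcases hg with ⟨h9, h10⟩ | ⟨h9, h10⟩ <;> rw [h9] at hsum hfg <;> rw [h10] at hsum <;>
          linarith

end Pool.H61.QF
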