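import Pool.Agent.H61.QF.Defs

/-!
Module Or (Mathlib only): a power series solution of a linear differential equation with
polynomial coefficients which is nonsingular at `0` is `Tame`.

PROOF. The coefficient of `X^n` in `∑ q_i D^i G` is
`∑_i ∑_{j ≤ n} coeff j q_i * ((n-j+1) ... (n-j+i)) * coeff (n-j+i) G = 0`. The only term that
involves `coeff (n+r) G` is `i = r`, `j = 0`:
`q_r(0) (n+1) ... (n+r) coeff (n+r) G = - (sum of terms with index < n + r)`.
Choose `M ≥ 1` such that `M^1`-multiples... precisely: the finitely many numbers `coeff j q_i`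
(`i ≤ r`), `q_r(0)⁻¹`, `coeff i G` (`i < r`) all lie in the ring
`Z_M = {x | ∃ e, IsIntegral ℤ (M! ^ e * x)}` for some `M` (each algebraic number `x` has an
integer multiple `M_x x` that is integral; take `M` larger than all the `M_x`). For `K ≥ M` let
`Z_K = {x | ∃ e, IsIntegral ℤ (K! ^ e * x)}`; these sets are subrings, increasing in `K`, and
contain `1/j` for `1 ≤ j ≤ K`. By strong induction `coeff n G ∈ Z_{max M n}`: for `n < r` by
the choice of `M`; for `n + r` use the recursion, all factors `1/(n+i)`, `1 ≤ i ≤ r`, lie in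
`Z_{n+r}`.
-/

set_option autoImplicit false

namespace Pool.H61.QF

/-- The ring `Z_K`. -/
private def orZ (K : ℕ) : Subring Kbar where
  carrier := {x | ∃ e : ℕ, IsIntegral ℤ (((K.factorial : ℕ) : Kbar) ^ e * x)}
  mul_mem' := by
    rintro x y ⟨s, hx⟩ ⟨t, hy⟩
    refine ⟨s + t, ?_⟩
    have e : ((K.factorial : ℕ) : Kbar) ^ (s + t) * (x * y)
        = ((K.factorial : ℕ) : Kbar) ^ s * x * (((K.factorial : ℕ) : Kbar) ^ t * y) := by
      rw [pow_add]; ring
    rw [e]; exact hx.mul hy
  one_mem' := ⟨0, by simpa using (isIntegral_one : IsIntegral ℤ (1 : Kbar))⟩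
  add_mem' := by
    rintro x y ⟨s, hx⟩ ⟨t, hy⟩
    refine ⟨s + t, ?_⟩
    have e : ((K.factorial : ℕ) : Kbar) ^ (s + t) * (x + y)
        = ((K.factorial : ℕ) : Kbar) ^ t * (((K.factorial : ℕ) : Kbar) ^ s * x)
          + ((K.factorial : ℕ) : Kbar) ^ s * (((K.factorial : ℕ) : Kbar) ^ t * y) := by
      rw [pow_add]; ring
    rw [e]
    exact (((isIntegral_nat _).pow t).mul hx).add (((isIntegral_nat _).pow s).mul hy)
  zero_mem' := ⟨0, by simpa using (isIntegral_zero : IsIntegral ℤ (0 : Kbar))⟩
  neg_mem' := by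
    rintro x ⟨s, hx⟩
    refine ⟨s, ?_⟩
    have e : ((K.factorial : ℕ) : Kbar) ^ s * (-x) = -(((K.factorial : ℕ) : Kbar) ^ s * x) := by
      ring
    rw [e]; exact hx.neg

private theorem orZ_mem {K : ℕ} {x : Kbar} :
    x ∈ orZ K ↔ ∃ e : ℕ, IsIntegral ℤ (((K.factorial : ℕ) : Kbar) ^ e * x) := Iff.rfl

private theorem orZ_mono {K K' : ℕ} (h : K ≤ K') {x : Kbar} (hx : x ∈ orZ K) : x ∈ orZ K' := by
  obtain ⟨e, he⟩ := hx
  obtain ⟨m, hm⟩ := Nat.factorial_dvd_factorial h
  refine ⟨e, ?_⟩
  have : ((K'.factorial : ℕ) : Kbar) ^ e * x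
      = ((m : ℕ) : Kbar) ^ e * (((K.factorial : ℕ) : Kbar) ^ e * x) := by
    rw [hm]; push_cast; ring
  rw [this]
  exact ((isIntegral_nat _).pow e).mul he

private theorem orZ_inv {K d : ℕ} (hd : d ∣ K.factorial) : ((d : ℕ) : Kbar)⁻¹ ∈ orZ K := by
  obtain ⟨m, hm⟩ := hd
  have hd0 : (d : Kbar) ≠ 0 := by
    intro h
    have : d = 0 := by exact_mod_cast h
    rw [this, zero_mul] at hm
    exact K.factorial_ne_zero hm
  refine ⟨1, ?_⟩
  have : ((K.factorial : ℕ) : Kbar) ^ 1 * ((d : ℕ) : Kbar)⁻¹ = ((m : ℕ) : Kbar) := by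
    rw [hm]; push_cast; field_simp
  rw [this]
  exact isIntegral_nat m

private theorem orZ_exists (x : Kbar) : ∃ M : ℕ, x ∈ orZ M := by
  have hx : IsAlgebraic ℤ x := by
    rw [IsFractionRing.isAlgebraic_iff ℤ ℚ Kbar]
    have h : Algebra.IsAlgebraic ℚ (AlgebraicClosure ℚ) := AlgebraicClosure.isAlgebraic ℚ
    exact h.isAlgebraic x
  obtain ⟨y, hy0, hy⟩ := hx.exists_integral_multiple
  refine ⟨y.natAbs, 1, ?_⟩
  have hpos : 0 < y.natAbs := Int.natAbs_pos.2 hy0
  obtain ⟨m, hm⟩ := Nat.dvd_factorial hpos le_rfl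
  have h2 : IsIntegral ℤ ((y.natAbs : Kbar) * x) := by
    rcases Int.natAbs_eq y with h | h
    · have e : ((y.natAbs : ℕ) : Kbar) * x = y • x := by
        rw [zsmul_eq_mul]
        congr 1
        conv_rhs => rw [h]
        simp
      rw [e]; exact hy
    · have e : ((y.natAbs : ℕ) : Kbar) * x = -(y • x) := by
        rw [zsmul_eq_mul, ← neg_mul]
        congr 1
        conv_rhs => rw [h]
        simp
      rw [e]; exact hy.neg
  have h3 : ((y.natAbs.factorial : ℕ) : Kbar) ^ 1 * x = (m : Kbar) * ((y.natAbs : Kbar) * x) := by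
    rw [hm]; push_cast; ring
  rw [h3]
  exact (isIntegral_nat m).mul h2

private theorem orZ_finite (F : Finset Kbar) : ∃ M : ℕ, ∀ x ∈ F, x ∈ orZ M := by
  choose μ hμ using orZ_exists
  exact ⟨F.sup μ, fun x hx => orZ_mono (Finset.le_sup hx) (hμ x)⟩

private theorem or_coeff_iter (G : PowerSeries Kbar) (i : ℕ) : ∀ n : ℕ,
    PowerSeries.coeff n ((⇑(PowerSeries.derivative Kbar))^[i] G)
      = (((n + 1).ascFactorial i : ℕ) : Kbar) * PowerSeries.coeff (n + i) G := by
  induction i with
  | zero => intro n; simp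
  | succ i ih =>
    intro n
    rw [Function.iterate_succ_apply', PowerSeries.coeff_derivative, ih]
    have h1 : (n + 1).ascFactorial (i + 1) = (n + 1) * (n + 1 + 1).ascFactorial i := by
      rw [Nat.ascFactorial_succ, ← Nat.succ_ascFactorial]
    rw [h1]
    have h2 : n + 1 + i = n + (i + 1) := by omega
    rw [h2]
    push_cast
    ring

theorem tame_of_ordinary {r : ℕ} (q : ℕ → Polynomial Kbar) (G : PowerSeries Kbar)
    (hq0 : (q r).eval 0 ≠ 0)
    (hode : ∑ i ∈ Finset.range (r + 1), ((q i : Polynomial Kbar) : PowerSeries Kbar) *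
      (⇑(PowerSeries.derivative Kbar))^[i] G = 0) : Tame G := by
  classical
  obtain ⟨M, hM⟩ := orZ_finite
    (((Finset.range (r + 1)).biUnion (fun i => (q i).support.image (q i).coeff)) ∪
      {((q r).coeff 0)⁻¹} ∪ (Finset.range r).image (fun i => PowerSeries.coeff i G))
  have hMq : ∀ i ∈ Finset.range (r + 1), ∀ j, (q i).coeff j ∈ orZ M := by
    intro i hi j
    by_cases hj : (q i).coeff j = 0
    · rw [hj]; exact (orZ M).zero_mem
    · refine hM _ ?_
      rw [Finset.mem_union, Finset.mem_union]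
      refine Or.inl (Or.inl (Finset.mem_biUnion.2 ⟨i, hi, Finset.mem_image.2 ⟨j, ?_, rfl⟩⟩))
      exact Polynomial.mem_support_iff.2 hj
  have hMi : ((q r).coeff 0)⁻¹ ∈ orZ M := by
    refine hM _ ?_
    rw [Finset.mem_union, Finset.mem_union]
    exact Or.inl (Or.inr (Finset.mem_singleton_self _))
  have hMG : ∀ i < r, PowerSeries.coeff i G ∈ orZ M := by
    intro i hi
    refine hM _ ?_
    rw [Finset.mem_union]
    exact Or.inr (Finset.mem_image.2 ⟨i, Finset.mem_range.2 hi, rfl⟩)
  have hq0' : (q r).coeff 0 ≠ 0 := by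
    rwa [Polynomial.coeff_zero_eq_eval_zero]
  refine ⟨M, fun m => ?_⟩
  show PowerSeries.coeff m G ∈ orZ (max M m)
  induction m using Nat.strong_induction_on with
  | _ m ih =>
    rcases Nat.lt_or_ge m r with hm | hm
    · exact orZ_mono (le_max_left _ _) (hMG m hm)
    obtain ⟨n, rfl⟩ := Nat.exists_eq_add_of_le' hm
    set K := max M (n + r) with hK
    have hMK : M ≤ K := le_max_left _ _
    have hprev : ∀ l < n + r, PowerSeries.coeff l G ∈ orZ K := fun l hl =>
      orZ_mono (max_le_max le_rfl hl.le) (ih l hl)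
    have hterm : ∀ i ∈ Finset.range (r + 1), ∀ j l : ℕ, l + i < n + r →
        PowerSeries.coeff j ((q i : Polynomial Kbar) : PowerSeries Kbar) *
          PowerSeries.coeff l ((⇑(PowerSeries.derivative Kbar))^[i] G) ∈ orZ K := by
      intro i hi j l hl
      rw [Polynomial.coeff_coe, or_coeff_iter]
      exact (orZ K).mul_mem (orZ_mono hMK (hMq i hi j))
        ((orZ K).mul_mem (natCast_mem _ _) (hprev _ hl))
    have hcoef := congrArg (PowerSeries.coeff n) hode
    rw [map_sum, map_zero, Finset.sum_range_succ] at hcoef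
    have hlow : ∑ i ∈ Finset.range r, PowerSeries.coeff n
        (((q i : Polynomial Kbar) : PowerSeries Kbar) *
          (⇑(PowerSeries.derivative Kbar))^[i] G) ∈ orZ K := by
      refine sum_mem fun i hi => ?_
      rw [PowerSeries.coeff_mul]
      refine sum_mem fun p hp => ?_
      have hp' := Finset.HasAntidiagonal.mem_antidiagonal.1 hp
      have hi' := Finset.mem_range.1 hi
      exact hterm i (Finset.mem_range.2 (by omega)) p.1 p.2 (by omega)
    rw [PowerSeries.coeff_mul,
      ← Finset.add_sum_erase _ _ (Finset.HasAntidiagonal.mem_antidiagonal.2 (zero_add n) :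
        ((0 : ℕ), n) ∈ Finset.HasAntidiagonal.antidiagonal n)] at hcoef
    have hrest : ∑ p ∈ (Finset.HasAntidiagonal.antidiagonal n).erase (0, n),
        PowerSeries.coeff p.1 ((q r : Polynomial Kbar) : PowerSeries Kbar) *
          PowerSeries.coeff p.2 ((⇑(PowerSeries.derivative Kbar))^[r] G) ∈ orZ K := by
      refine sum_mem fun p hp => ?_
      have hp1 := (Finset.mem_erase.1 hp).1
      have hp2 := Finset.HasAntidiagonal.mem_antidiagonal.1 (Finset.mem_erase.1 hp).2
      have hne : p.1 ≠ 0 := by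
        intro h
        apply hp1
        ext
        · exact h
        · simp only; omega
      exact hterm r (Finset.mem_range.2 (by omega)) p.1 p.2 (by omega)
    have hmain : PowerSeries.coeff 0 ((q r : Polynomial Kbar) : PowerSeries Kbar) *
        PowerSeries.coeff n ((⇑(PowerSeries.derivative Kbar))^[r] G) ∈ orZ K := by
      have e : PowerSeries.coeff 0 ((q r : Polynomial Kbar) : PowerSeries Kbar) *
          PowerSeries.coeff n ((⇑(PowerSeries.derivative Kbar))^[r] G)
          = -(∑ i ∈ Finset.range r, PowerSeries.coeff n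
              (((q i : Polynomial Kbar) : PowerSeries Kbar) *
                (⇑(PowerSeries.derivative Kbar))^[i] G))
            - ∑ p ∈ (Finset.HasAntidiagonal.antidiagonal n).erase (0, n),
              PowerSeries.coeff p.1 ((q r : Polynomial Kbar) : PowerSeries Kbar) *
                PowerSeries.coeff p.2 ((⇑(PowerSeries.derivative Kbar))^[r] G) := by
        linear_combination hcoef
      rw [e]
      exact (orZ K).sub_mem ((orZ K).neg_mem hlow) hrest
    rw [Polynomial.coeff_coe, or_coeff_iter] at hmain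
    have hasc : (((n + 1).ascFactorial r : ℕ) : Kbar)⁻¹ ∈ orZ K := by
      apply orZ_inv
      have h1 : (n + 1).ascFactorial r ∣ (n + r).factorial :=
        ⟨n.factorial, by rw [mul_comm]; exact (Nat.factorial_mul_ascFactorial n r).symm⟩
      exact h1.trans (Nat.factorial_dvd_factorial (le_max_right _ _))
    have hasc0 : (((n + 1).ascFactorial r : ℕ) : Kbar) ≠ 0 := by
      have : 0 < (n + 1).ascFactorial r := Nat.ascFactorial_pos _ _
      exact_mod_cast this.ne'
    have hfin := (orZ K).mul_mem (orZ_mono hMK hMi) ((orZ K).mul_mem hasc hmain)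
    have e : ((q r).coeff 0)⁻¹ * ((((n + 1).ascFactorial r : ℕ) : Kbar)⁻¹ *
        ((q r).coeff 0 * ((((n + 1).ascFactorial r : ℕ) : Kbar) *
          PowerSeries.coeff (n + r) G))) = PowerSeries.coeff (n + r) G := by
      field_simp
    rwa [e] at hfin

end Pool.H61.QF
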