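import Pool.Agent.H61.QF.LC

/-!
Module Tu (uses the statement of LC and `frac_lower`): the five-tuples.

Notation: `s w = ∑ fract (w μ_i)`. `w` is of class I if `s w < 1`; for every `w` prime to `d`,
`w` or `-w` is of class I.

PROOF of `tuple6`. `m ≥ 3`. Let `i1 ≠ i2` and let `rest = ∑_{i ≠ i1, i2} μ_i` (a nonempty sum). Put
`x = ![μ_{i1}, μ_{i2}, rest, -y, y - ∑ μ_i]`. For `w` of class I:
`fract (w rest) = ∑_{i ≠ i1,i2} fract (w μ_i)` (it is congruent to it and lies in `[0,1)`), and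
`fract (w (y - ∑ μ)) = 1 - s - fract (-(w y))` (congruent modulo 1 and in `(0,1)`). So
`∑ fract (w x_j) = 1` and all five are positive (each `fract (w μ_i) > 0` since `w μ_i` is not an
integer). For `w` of class II use `-w`. Applied to `w = 1` or `-1`, positivity shows that no `x_j` is
an integer. `five` gives `6 μ_{i1}`, `6 y` integers; `i1` is arbitrary.

PROOF of `tuple2`: the same with `x = ![μ_0, μ_1, -b, b - c, c - μ_0 - μ_1]`:
`fract (w (b - c)) = fract (-(w c)) - fract (-(w b))`,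
`fract (w (c - μ_0 - μ_1)) = 1 - s - fract (-(w c))`.

PROOF of `le_four`: let `w = 1` or `-1` be of class I. All the numbers are multiples of `1/6`:
`fract (w μ_i) ≥ 1/6`, so `s ≥ m/6`; `fract (-(w b)) ≥ 1/6`,
`fract (-(w c)) - fract (-(w b)) = fract (w (b - c)) ≥ 1/6`, so `1/3 ≤ 1 - s ≤ 1 - m/6`.
-/

set_option autoImplicit false

namespace Pool.H61.QF

private theorem tu_frac {a b : ℚ} (h0 : 0 ≤ b) (h1 : b < 1) (z : ℤ) (h : a - b = z) :
    Int.fract a = b := Int.fract_eq_iff.2 ⟨h0, h1, z, h⟩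

/-- `w μ` is not an integer -/
private theorem tu_nonint {x : ℚ} {d : ℕ} (hd : ∃ u : ℤ, (d : ℚ) * x = u)
    (hx : ∀ l : ℤ, x ≠ l) {w : ℤ} (hw : IsCoprime w (d : ℤ)) : 0 < Int.fract ((w : ℚ) * x) := by
  obtain ⟨u, hu⟩ := hd
  apply lt_of_le_of_ne (Int.fract_nonneg _)
  intro h
  have h2 : (w : ℚ) * x = ⌊(w : ℚ) * x⌋ := by
    have h3 := Int.floor_add_fract ((w : ℚ) * x)
    rw [← h, add_zero] at h3
    exact h3.symm
  obtain ⟨a, b, hab⟩ := hw
  apply hx (a * ⌊(w : ℚ) * x⌋ + b * u)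
  have h1 : (a : ℚ) * w + b * d = 1 := by exact_mod_cast hab
  push_cast
  rw [← h2, ← hu]
  linear_combination (-x) * h1

/-- the five numbers, from positivity and sum one in class I -/
private theorem tu_five (x : Fin 5 → ℚ) (d : ℕ) (hd : 0 < d)
    (hdx : ∀ j, ∃ u : ℤ, (d : ℚ) * x j = u) (I : ℤ → Prop)
    (hI : ∀ w : ℤ, IsCoprime w (d : ℤ) → I w ∨ I (-w))
    (H : ∀ w : ℤ, IsCoprime w (d : ℤ) → I w →
      (∀ j, 0 < Int.fract ((w : ℚ) * x j)) ∧ ∑ j, Int.fract ((w : ℚ) * x j) = 1) :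
    ∀ j, ∃ l : ℤ, 6 * x j = l := by
  have hneg : ∀ (w : ℤ) (j : Fin 5), ((-w : ℤ) : ℚ) * x j = -((w : ℚ) * x j) := by
    intro w j
    push_cast
    ring
  apply five x d hd hdx
  · intro j l hl
    have hz : ∀ w : ℤ, ¬ 0 < Int.fract ((w : ℚ) * x j) := by
      intro w h
      rw [hl] at h
      have h2 : (w : ℚ) * l = ((w * l : ℤ) : ℚ) := by push_cast; ring
      rw [h2, Int.fract_intCast] at h
      exact lt_irrefl _ h
    rcases hI 1 isCoprime_one_left with h | h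
    · exact hz 1 ((H 1 isCoprime_one_left h).1 j)
    · exact hz (-1) ((H (-1) isCoprime_one_left.neg_left h).1 j)
  · intro w hw
    rcases hI w hw with h | h
    · left
      exact (H w hw h).2
    · right
      have h2 := (H (-w) hw.neg_left h).2
      rw [← h2]
      exact Finset.sum_congr rfl fun j _ => by rw [hneg]

theorem tuple6 {m : ℕ} (μ : Fin m → ℚ) (hm : 3 ≤ m) (y : ℚ) (d : ℕ) (hd : 0 < d)
    (hμ : ∀ i, ∀ l : ℤ, μ i ≠ l) (hdμ : ∀ i, ∃ u : ℤ, (d : ℚ) * μ i = u)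
    (hdy : ∃ u : ℤ, (d : ℚ) * y = u)
    (h1 : ∀ w : ℤ, IsCoprime w (d : ℤ) →
      ∑ i, Int.fract ((w : ℚ) * μ i) < 1 ∨ ∑ i, Int.fract (-((w : ℚ) * μ i)) < 1)
    (h2 : ∀ w : ℤ, IsCoprime w (d : ℤ) → ∑ i, Int.fract ((w : ℚ) * μ i) < 1 →
      0 < Int.fract (-((w : ℚ) * y)) ∧
        Int.fract (-((w : ℚ) * y)) < 1 - ∑ i, Int.fract ((w : ℚ) * μ i)) :
    (∀ i, ∃ l : ℤ, 6 * μ i = l) ∧ ∃ l : ℤ, 6 * y = l := by
  have key : ∀ i1 i2 : Fin m, i1 ≠ i2 →
      (∃ l : ℤ, 6 * μ i1 = l) ∧ ∃ l : ℤ, 6 * y = l := by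
    intro i1 i2 hne
    set R : Finset (Fin m) := (Finset.univ.erase i1).erase i2 with hR
    have hi2 : i2 ∈ (Finset.univ : Finset (Fin m)).erase i1 :=
      Finset.mem_erase.2 ⟨hne.symm, Finset.mem_univ _⟩
    have hsplit : ∀ g : Fin m → ℚ, ∑ i, g i = g i1 + (g i2 + ∑ i ∈ R, g i) := by
      intro g
      rw [← Finset.add_sum_erase _ _ (Finset.mem_univ i1), ← Finset.add_sum_erase _ _ hi2]
    have hRne : R.Nonempty := by
      rw [← Finset.card_pos, hR, Finset.card_erase_of_mem hi2,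
        Finset.card_erase_of_mem (Finset.mem_univ i1), Finset.card_univ, Fintype.card_fin]
      omega
    choose uμ huμ using hdμ
    obtain ⟨uy, huy⟩ := hdy
    have hx := tu_five ![μ i1, μ i2, ∑ i ∈ R, μ i, -y, y - ∑ i, μ i] d hd (by
        intro j
        fin_cases j
        · exact ⟨uμ i1, huμ i1⟩
        · exact ⟨uμ i2, huμ i2⟩
        · refine ⟨∑ i ∈ R, uμ i, ?_⟩
          show (d : ℚ) * ∑ i ∈ R, μ i = _
          rw [Finset.mul_sum]
          push_cast
          exact Finset.sum_congr rfl fun i _ => huμ i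
        · refine ⟨-uy, ?_⟩
          show (d : ℚ) * (-y) = _
          push_cast
          rw [← huy]
          ring
        · refine ⟨uy - ∑ i, uμ i, ?_⟩
          show (d : ℚ) * (y - ∑ i, μ i) = _
          push_cast
          rw [← huy, mul_sub, Finset.mul_sum]
          congr 1
          exact Finset.sum_congr rfl fun i _ => huμ i)
      (fun w => ∑ i, Int.fract ((w : ℚ) * μ i) < 1) (by
        intro w hw
        rcases h1 w hw with h | h
        · exact Or.inl h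
        · right
          refine lt_of_eq_of_lt (Finset.sum_congr rfl fun i _ => ?_) h
          congr 1
          push_cast
          ring) (by
        intro w hw hs
        obtain ⟨h3, h4⟩ := h2 w hw hs
        have hpos : ∀ i, 0 < Int.fract ((w : ℚ) * μ i) := fun i =>
          tu_nonint ⟨uμ i, huμ i⟩ (hμ i) hw
        have hRpos : 0 < ∑ i ∈ R, Int.fract ((w : ℚ) * μ i) :=
          Finset.sum_pos (fun i _ => hpos i) hRne
        have hss := hsplit fun i => Int.fract ((w : ℚ) * μ i)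
        have p1 := hpos i1
        have p2 := hpos i2
        have hfr : Int.fract ((w : ℚ) * ∑ i ∈ R, μ i) = ∑ i ∈ R, Int.fract ((w : ℚ) * μ i) := by
          apply tu_frac hRpos.le (by linarith) (∑ i ∈ R, ⌊(w : ℚ) * μ i⌋)
          rw [Finset.mul_sum, ← Finset.sum_sub_distrib]
          push_cast
          refine Finset.sum_congr rfl fun i _ => ?_
          rw [Int.fract]
          ring
        have hfy : Int.fract ((w : ℚ) * (y - ∑ i, μ i))
            = 1 - ∑ i, Int.fract ((w : ℚ) * μ i) - Int.fract (-((w : ℚ) * y)) := by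
          apply tu_frac (by linarith) (by linarith)
            (-1 - ∑ i, ⌊(w : ℚ) * μ i⌋ - ⌊-((w : ℚ) * y)⌋)
          have e : ∑ i, Int.fract ((w : ℚ) * μ i)
              = (w : ℚ) * ∑ i, μ i - ∑ i, (⌊(w : ℚ) * μ i⌋ : ℚ) := by
            rw [Finset.mul_sum, ← Finset.sum_sub_distrib]
            exact Finset.sum_congr rfl fun i _ => rfl
          rw [e]
          push_cast
          rw [Int.fract]
          ring
        have h5 : Int.fract ((w : ℚ) * (-y)) = Int.fract (-((w : ℚ) * y)) := by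
          congr 1
          ring
        constructor
        · intro j
          fin_cases j
          · exact p1
          · exact p2
          · show 0 < Int.fract ((w : ℚ) * ∑ i ∈ R, μ i)
            rw [hfr]
            exact hRpos
          · show 0 < Int.fract ((w : ℚ) * (-y))
            rw [h5]
            exact h3
          · show 0 < Int.fract ((w : ℚ) * (y - ∑ i, μ i))
            rw [hfy]
            linarith
        · rw [Fin.sum_univ_five]
          show Int.fract ((w : ℚ) * μ i1) + Int.fract ((w : ℚ) * μ i2)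
            + Int.fract ((w : ℚ) * ∑ i ∈ R, μ i) + Int.fract ((w : ℚ) * (-y))
            + Int.fract ((w : ℚ) * (y - ∑ i, μ i)) = 1
          rw [hfr, hfy, h5, hss]
          ring)
    refine ⟨hx 0, ?_⟩
    obtain ⟨l, hl⟩ := hx 3
    have hl' : 6 * (-y) = (l : ℚ) := hl
    exact ⟨-l, by push_cast; rw [← hl']; ring⟩
  refine ⟨fun i => ?_, ?_⟩
  · obtain ⟨i2, hi2⟩ : ∃ i2 : Fin m, i ≠ i2 := by
      by_cases h : i = ⟨0, by omega⟩
      · refine ⟨⟨1, by omega⟩, ?_⟩
        rw [h]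
        simp [Fin.ext_iff]
      · exact ⟨⟨0, by omega⟩, h⟩
    exact (key i i2 hi2).1
  · exact (key ⟨0, by omega⟩ ⟨1, by omega⟩ (by simp [Fin.ext_iff])).2

theorem tuple2 (μ : Fin 2 → ℚ) (b c : ℚ) (d : ℕ) (hd : 0 < d)
    (hμ : ∀ i, ∀ l : ℤ, μ i ≠ l) (hdμ : ∀ i, ∃ u : ℤ, (d : ℚ) * μ i = u)
    (hdb : ∃ u : ℤ, (d : ℚ) * b = u) (hdc : ∃ u : ℤ, (d : ℚ) * c = u)
    (h1 : ∀ w : ℤ, IsCoprime w (d : ℤ) →
      ∑ i, Int.fract ((w : ℚ) * μ i) < 1 ∨ ∑ i, Int.fract (-((w : ℚ) * μ i)) < 1)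
    (h2 : ∀ w : ℤ, IsCoprime w (d : ℤ) → ∑ i, Int.fract ((w : ℚ) * μ i) < 1 →
      0 < Int.fract (-((w : ℚ) * b)) ∧
      Int.fract (-((w : ℚ) * b)) < Int.fract (-((w : ℚ) * c)) ∧
      Int.fract (-((w : ℚ) * c)) < 1 - ∑ i, Int.fract ((w : ℚ) * μ i)) :
    (∀ i, ∃ l : ℤ, 6 * μ i = l) ∧ (∃ l : ℤ, 6 * b = l) ∧ ∃ l : ℤ, 6 * c = l := by
  choose uμ huμ using hdμ
  obtain ⟨ub, hub⟩ := hdb
  obtain ⟨uc, huc⟩ := hdc
  have hx := tu_five ![μ 0, μ 1, -b, b - c, c - μ 0 - μ 1] d hd (by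
      intro j
      fin_cases j
      · exact ⟨uμ 0, huμ 0⟩
      · exact ⟨uμ 1, huμ 1⟩
      · refine ⟨-ub, ?_⟩
        show (d : ℚ) * (-b) = _
        push_cast
        rw [← hub]
        ring
      · refine ⟨ub - uc, ?_⟩
        show (d : ℚ) * (b - c) = _
        push_cast
        rw [← hub, ← huc]
        ring
      · refine ⟨uc - uμ 0 - uμ 1, ?_⟩
        show (d : ℚ) * (c - μ 0 - μ 1) = _
        push_cast
        rw [← huμ 0, ← huμ 1, ← huc]
        ring)
    (fun w => ∑ i, Int.fract ((w : ℚ) * μ i) < 1) (by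
      intro w hw
      rcases h1 w hw with h | h
      · exact Or.inl h
      · right
        refine lt_of_eq_of_lt (Finset.sum_congr rfl fun i _ => ?_) h
        congr 1
        push_cast
        ring) (by
      intro w hw hs
      obtain ⟨h3, h4, h5⟩ := h2 w hw hs
      have p1 := tu_nonint ⟨uμ 0, huμ 0⟩ (hμ 0) hw
      have p2 := tu_nonint ⟨uμ 1, huμ 1⟩ (hμ 1) hw
      rw [Fin.sum_univ_two] at hs h5
      have hb : Int.fract ((w : ℚ) * (-b)) = Int.fract (-((w : ℚ) * b)) := by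
        congr 1
        ring
      have q1 := Int.fract_lt_one (-((w : ℚ) * c))
      have hbc : Int.fract ((w : ℚ) * (b - c))
          = Int.fract (-((w : ℚ) * c)) - Int.fract (-((w : ℚ) * b)) := by
        apply tu_frac (by linarith) (by linarith) (⌊-((w : ℚ) * c)⌋ - ⌊-((w : ℚ) * b)⌋)
        rw [Int.fract, Int.fract]
        push_cast
        ring
      have hc : Int.fract ((w : ℚ) * (c - μ 0 - μ 1))
          = 1 - (Int.fract ((w : ℚ) * μ 0) + Int.fract ((w : ℚ) * μ 1))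
            - Int.fract (-((w : ℚ) * c)) := by
        apply tu_frac (by linarith) (by linarith)
          (-1 - ⌊(w : ℚ) * μ 0⌋ - ⌊(w : ℚ) * μ 1⌋ - ⌊-((w : ℚ) * c)⌋)
        rw [Int.fract, Int.fract, Int.fract]
        push_cast
        ring
      constructor
      · intro j
        fin_cases j
        · exact p1
        · exact p2
        · show 0 < Int.fract ((w : ℚ) * (-b))
          rw [hb]
          exact h3
        · show 0 < Int.fract ((w : ℚ) * (b - c))
          rw [hbc]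
          linarith
        · show 0 < Int.fract ((w : ℚ) * (c - μ 0 - μ 1))
          rw [hc]
          linarith
      · rw [Fin.sum_univ_five]
        show Int.fract ((w : ℚ) * μ 0) + Int.fract ((w : ℚ) * μ 1)
          + Int.fract ((w : ℚ) * (-b)) + Int.fract ((w : ℚ) * (b - c))
          + Int.fract ((w : ℚ) * (c - μ 0 - μ 1)) = 1
        rw [hb, hbc, hc]
        ring)
  have e0 : ∃ l : ℤ, 6 * μ 0 = l := hx 0
  have e1 : ∃ l : ℤ, 6 * μ 1 = l := hx 1
  obtain ⟨l2, hl2⟩ := hx 2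
  obtain ⟨l3, hl3⟩ := hx 3
  have hl2' : 6 * (-b) = (l2 : ℚ) := hl2
  have hl3' : 6 * (b - c) = (l3 : ℚ) := hl3
  refine ⟨?_, ⟨-l2, by push_cast; rw [← hl2']; ring⟩, ⟨-l2 - l3, ?_⟩⟩
  · intro i
    fin_cases i
    · exact e0
    · exact e1
  · push_cast
    rw [← hl2', ← hl3']
    ring

private theorem tu_sixth {x : ℚ} (h6 : ∃ l : ℤ, 6 * x = l) (h : 0 < x) : 1 / 6 ≤ x := by
  obtain ⟨l, hl⟩ := h6
  have h1 : (0 : ℚ) < l := by rw [← hl]; linarith
  have h2 : 0 < l := by exact_mod_cast h1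
  have h3 : (1 : ℚ) ≤ l := by exact_mod_cast h2
  rw [← hl] at h3
  linarith

private theorem tu_fract6 {x : ℚ} (h6 : ∃ l : ℤ, 6 * x = l) : ∃ l : ℤ, 6 * Int.fract x = l := by
  obtain ⟨l, hl⟩ := h6
  refine ⟨l - 6 * ⌊x⌋, ?_⟩
  rw [Int.fract]
  push_cast
  rw [← hl]
  ring

theorem le_four {m : ℕ} (μ : Fin m → ℚ) (b c : ℚ)
    (hμ : ∀ i, ∀ l : ℤ, μ i ≠ l) (h6μ : ∀ i, ∃ l : ℤ, 6 * μ i = l)
    (h6b : ∃ l : ℤ, 6 * b = l) (h6c : ∃ l : ℤ, 6 * c = l) (w : ℤ) (hw : w = 1 ∨ w = -1)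
    (h1 : 0 < Int.fract (-((w : ℚ) * b)))
    (h2 : Int.fract (-((w : ℚ) * b)) < Int.fract (-((w : ℚ) * c)))
    (h3 : Int.fract (-((w : ℚ) * c)) ≤ 1 - ∑ i, Int.fract ((w : ℚ) * μ i)) : m ≤ 4 := by
  have hmul : ∀ x : ℚ, (∃ l : ℤ, 6 * x = l) → ∃ l : ℤ, 6 * ((w : ℚ) * x) = l := by
    rintro x ⟨l, hl⟩
    exact ⟨w * l, by push_cast; rw [← hl]; ring⟩
  have hneg : ∀ x : ℚ, (∃ l : ℤ, 6 * x = l) → ∃ l : ℤ, 6 * (-x) = l := by
    rintro x ⟨l, hl⟩
    exact ⟨-l, by push_cast; rw [← hl]; ring⟩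
  have hi : ∀ i, 1 / 6 ≤ Int.fract ((w : ℚ) * μ i) := by
    intro i
    apply tu_sixth (tu_fract6 (hmul _ (h6μ i)))
    apply tu_nonint (d := 6) (by exact_mod_cast h6μ i) (hμ i)
    rcases hw with h | h
    · rw [h]
      exact isCoprime_one_left
    · rw [h]
      exact isCoprime_one_left.neg_left
  have hs : (m : ℚ) / 6 ≤ ∑ i, Int.fract ((w : ℚ) * μ i) := by
    calc (m : ℚ) / 6 = ∑ _i : Fin m, (1 / 6 : ℚ) := by simp; ring
      _ ≤ _ := Finset.sum_le_sum fun i _ => hi i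
  have hb := tu_fract6 (hneg _ (hmul _ h6b))
  have hc := tu_fract6 (hneg _ (hmul _ h6c))
  have hb1 := tu_sixth hb h1
  have hd : ∃ l : ℤ, 6 * (Int.fract (-((w : ℚ) * c)) - Int.fract (-((w : ℚ) * b))) = l := by
    obtain ⟨l, hl⟩ := hb
    obtain ⟨l', hl'⟩ := hc
    exact ⟨l' - l, by push_cast; rw [← hl, ← hl']; ring⟩
  have hd1 := tu_sixth hd (by linarith)
  have : (m : ℚ) ≤ 4 := by linarith
  exact_mod_cast this

end Pool.H61.QF
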