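import Pool.Agent.H61.QF.As
import Pool.Agent.H61.QF.Or
import Pool.Agent.H61.QF.Co
import Pool.Agent.H61.QF.Tu

/-!
Assembly.
-/

set_option autoImplicit false

namespace Pool.H61.QF

/-- A common denominator of finitely many rationals. -/
theorem common_den {ι : Type} [Fintype ι] (x : ι → ℚ) :
    ∃ d : ℕ, 0 < d ∧ ∀ j, ∃ u : ℤ, (d : ℚ) * x j = u := by
  classical
  refine ⟨∏ j, (x j).den, Finset.prod_pos fun j _ => (x j).pos, fun j => ?_⟩
  refine ⟨(∏ i ∈ Finset.univ.erase j, ((x i).den : ℤ)) * (x j).num, ?_⟩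
  have h : ((∏ i, (x i).den : ℕ) : ℚ)
      = (∏ i ∈ Finset.univ.erase j, ((x i).den : ℚ)) * ((x j).den : ℚ) := by
    push_cast
    rw [← Finset.prod_erase_mul _ _ (Finset.mem_univ j)]
  rw [h, mul_assoc, mul_comm ((x j).den : ℚ) (x j), Rat.mul_den_eq_num]
  push_cast
  ring

theorem main {k m r : ℕ} (b c : Fin k → ℚ) (μ : Fin m → ℚ) (a : Fin m → Kbar)
    (q : ℕ → Polynomial Kbar) (G : PowerSeries Kbar)
    (hk : 1 ≤ k)
    (hm : 3 ≤ m ∨ (m = 2 ∧ k = 1 ∧ ∀ j, ∀ l : ℤ, c j - ∑ i, μ i ≠ l))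
    (ha0 : ∀ i, a i ≠ 0) (hainj : Function.Injective a)
    (hμ : ∀ i, ∀ l : ℤ, μ i ≠ l)
    (hb : ∀ j, ∀ l : ℕ, b j ≠ -(l : ℚ)) (hc : ∀ j, ∀ l : ℤ, c j ≠ l)
    (hbc : ∀ i j, ∀ l : ℤ, b i - c j ≠ l)
    (hG : G ≠ 0)
    (hqa : ∀ i, (q r).eval (a i) ≠ 0)
    (hode : ∑ i ∈ Finset.range (r + 1), ((q i : Polynomial Kbar) : PowerSeries Kbar) *
      (⇑(PowerSeries.derivative Kbar))^[i] G = 0)
    (hG0 : (q r).eval 0 ≠ 0 ∨ Tame G)
    (hf : GloballyBounded (had (hyp b c) ((∏ i, binSer (μ i) (a i)) * G))) :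
    m ≤ 4 ∧ (∀ i, ∃ l : ℤ, 6 * μ i = l) ∧ (∀ j, ∃ l : ℤ, 6 * b j = l) ∧
      ∀ j, ∃ l : ℤ, 6 * c j = l := by
  classical
  have hGt : Tame G := by
    rcases hG0 with h | h
    · exact tame_of_ordinary q G h hode
    · exact h
  obtain ⟨d, hd, hdx⟩ := common_den (ι := (Fin k ⊕ Fin k) ⊕ Fin m)
    (Sum.elim (Sum.elim b c) μ)
  have hdb : ∀ j, ∃ u : ℤ, (d : ℚ) * b j = u := fun j => hdx (Sum.inl (Sum.inl j))
  have hdc : ∀ j, ∃ u : ℤ, (d : ℚ) * c j = u := fun j => hdx (Sum.inl (Sum.inr j))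
  have hdμ : ∀ i, ∃ u : ℤ, (d : ℚ) * μ i = u := fun i => hdx (Sum.inr i)
  have hP : ∀ v : ℤ, IsCoprime v (d : ℤ) → Cond b c μ v := fun v hv =>
    cond_of_gb b c μ a q G ha0 hainj hμ hb hc hG hGt hqa hode hf d hd hdb hdc hdμ v hv
  have hm2 : 2 ≤ m := by
    rcases hm with h | h
    · omega
    · omega
  have hcomb := comb b c μ d hd hk hm2 hμ hc hbc hdb hdc hdμ hP
  have h1 : ∀ w : ℤ, IsCoprime w (d : ℤ) →
      ∑ i, Int.fract ((w : ℚ) * μ i) < 1 ∨ ∑ i, Int.fract (-((w : ℚ) * μ i)) < 1 :=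
    fun w hw => (hcomb w hw).1
  have h2 := fun w hw => (hcomb w hw).2
  -- a class I multiplier among 1, -1
  obtain ⟨w0, hw0, hw0c, hw0s⟩ : ∃ w : ℤ, (w = 1 ∨ w = -1) ∧ IsCoprime w (d : ℤ) ∧
      ∑ i, Int.fract ((w : ℚ) * μ i) < 1 := by
    rcases h1 1 isCoprime_one_left with h | h
    · exact ⟨1, Or.inl rfl, isCoprime_one_left, h⟩
    · refine ⟨-1, Or.inr rfl, isCoprime_one_left.neg_left, ?_⟩
      have e : ∀ i, ((-1 : ℤ) : ℚ) * μ i = -(((1 : ℤ) : ℚ) * μ i) := fun i => by push_cast; ring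
      simpa only [e] using h
  obtain ⟨j0, hj1, hj2, hj3⟩ := h2 w0 hw0c hw0s
  -- the main claim
  have hall : (∀ i, ∃ l : ℤ, 6 * μ i = l) ∧ (∀ j, ∃ l : ℤ, 6 * b j = l) ∧
      ∀ j, ∃ l : ℤ, 6 * c j = l := by
    rcases hm with hm3 | ⟨hm', hk', hcμ⟩
    · have hbb : ∀ j, (∀ i, ∃ l : ℤ, 6 * μ i = l) ∧ ∃ l : ℤ, 6 * b j = l := by
        intro j
        refine tuple6 μ hm3 (b j) d hd hμ hdμ (hdb j) h1 ?_
        intro w hw hs
        obtain ⟨j1, h3, h4, h5⟩ := h2 w hw hs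
        exact ⟨(h3 j).1, lt_of_lt_of_le (h3 j).2 h5⟩
      have h6μ := (hbb ⟨0, hk⟩).1
      refine ⟨h6μ, fun j => (hbb j).2, fun j => ?_⟩
      by_cases hint : ∃ l : ℤ, c j - ∑ i, μ i = l
      · obtain ⟨l, hl⟩ := hint
        choose g hg using h6μ
        refine ⟨6 * l + ∑ i, g i, ?_⟩
        have : c j = l + ∑ i, μ i := by linarith
        rw [this, mul_add, Finset.mul_sum]
        push_cast
        rw [Finset.sum_congr rfl fun i _ => hg i]
      · push Not at hint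
        refine (tuple6 μ hm3 (c j) d hd hμ hdμ (hdc j) h1 ?_).2
        intro w hw hs
        obtain ⟨j1, h3, h4, h5⟩ := h2 w hw hs
        have hwc : ∀ l : ℤ, (w : ℚ) * c j ≠ l := by
          intro l hl
          obtain ⟨u, hu⟩ := hdc j
          obtain ⟨x, y, hxy⟩ := hw
          apply hc j (x * l + y * u)
          have hxy' : (x : ℚ) * w + y * d = 1 := by exact_mod_cast hxy
          push_cast
          rw [← hl, ← hu]
          linear_combination (-(c j)) * hxy'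
        have hwcs : ∀ l : ℤ, (w : ℚ) * (c j - ∑ i, μ i) ≠ l := by
          intro l hl
          obtain ⟨u, hu⟩ := hdc j
          choose g hg using hdμ
          obtain ⟨x, y, hxy⟩ := hw
          apply hint (x * l + y * (u - ∑ i, g i))
          have hxy' : (x : ℚ) * w + y * d = 1 := by exact_mod_cast hxy
          have hd' : (d : ℚ) * (c j - ∑ i, μ i) = u - ∑ i, (g i : ℚ) := by
            rw [mul_sub, hu, Finset.mul_sum, Finset.sum_congr rfl fun i _ => hg i]
          push_cast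
          rw [← hl, ← hd']
          linear_combination (-(c j - ∑ i, μ i)) * hxy'
        have hpos : 0 < Int.fract (-((w : ℚ) * c j)) := by
          rcases (Int.fract_nonneg (-((w : ℚ) * c j))).lt_or_eq with h | h
          · exact h
          · exfalso
            have := Int.fract_eq_iff.1 h.symm
            obtain ⟨-, -, z, hz⟩ := this
            apply hwc (-z)
            push_cast
            linarith
        refine ⟨hpos, lt_of_le_of_ne ((h4 j).trans h5) ?_⟩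
        intro heq
        -- then w (c - Σ μ) is an integer
        have hfl : ∀ x : ℚ, ∃ z : ℤ, x = z + Int.fract x := fun x =>
          ⟨⌊x⌋, (Int.floor_add_fract x).symm⟩
        obtain ⟨z, hz⟩ := hfl (-((w : ℚ) * c j))
        have hz2 : ∀ i, ∃ z : ℤ, (w : ℚ) * μ i = z + Int.fract ((w : ℚ) * μ i) := fun i => hfl _
        choose g hg using hz2
        apply hwcs (-z - 1 - ∑ i, g i)
        have hs2 : (w : ℚ) * ∑ i, μ i
            = ∑ i, (g i : ℚ) + ∑ i, Int.fract ((w : ℚ) * μ i) := by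
          rw [Finset.mul_sum, ← Finset.sum_add_distrib]
          exact Finset.sum_congr rfl fun i _ => hg i
        push_cast
        rw [mul_sub, hs2]
        rw [heq] at hz
        linarith
    · subst hm'
      subst hk'
      have hh := tuple2 μ (b 0) (c 0) d hd hμ hdμ (hdb 0) (hdc 0) h1 ?_
      · refine ⟨hh.1, fun j => ?_, fun j => ?_⟩
        · rw [Subsingleton.elim j 0]; exact hh.2.1
        · rw [Subsingleton.elim j 0]; exact hh.2.2
      · intro w hw hs
        obtain ⟨j1, h3, h4, h5⟩ := h2 w hw hs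
        have hj1 : j1 = 0 := Subsingleton.elim _ _
        subst hj1
        refine ⟨(h3 0).1, (h3 0).2, lt_of_le_of_ne h5 ?_⟩
        intro heq
        have hwcs : ∀ l : ℤ, (w : ℚ) * (c 0 - ∑ i, μ i) ≠ l := by
          intro l hl
          obtain ⟨u, hu⟩ := hdc 0
          choose g hg using hdμ
          obtain ⟨x, y, hxy⟩ := hw
          apply hcμ 0 (x * l + y * (u - ∑ i, g i))
          have hxy' : (x : ℚ) * w + y * d = 1 := by exact_mod_cast hxy
          have hd' : (d : ℚ) * (c 0 - ∑ i, μ i) = u - ∑ i, (g i : ℚ) := by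
            rw [mul_sub, hu, Finset.mul_sum, Finset.sum_congr rfl fun i _ => hg i]
          push_cast
          rw [← hl, ← hd']
          linear_combination (-(c 0 - ∑ i, μ i)) * hxy'
        have hfl : ∀ x : ℚ, ∃ z : ℤ, x = z + Int.fract x := fun x =>
          ⟨⌊x⌋, (Int.floor_add_fract x).symm⟩
        obtain ⟨z, hz⟩ := hfl (-((w : ℚ) * c 0))
        have hz2 : ∀ i, ∃ z : ℤ, (w : ℚ) * μ i = z + Int.fract ((w : ℚ) * μ i) := fun i => hfl _
        choose g hg using hz2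
        apply hwcs (-z - 1 - ∑ i, g i)
        have hs2 : (w : ℚ) * ∑ i, μ i
            = ∑ i, (g i : ℚ) + ∑ i, Int.fract ((w : ℚ) * μ i) := by
          rw [Finset.mul_sum, ← Finset.sum_add_distrib]
          exact Finset.sum_congr rfl fun i _ => hg i
        push_cast
        rw [mul_sub, hs2]
        rw [heq] at hz
        linarith
  refine ⟨?_, hall⟩
  obtain ⟨hA, hB, hC⟩ := hall
  exact le_four μ (b j0) (c j0) hμ hA (hB j0) (hC j0) w0 hw0 (hj1 j0).1 (hj1 j0).2 hj3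

end Pool.H61.QF
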