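import Mathlib

/-!
Module Mi (Mathlib only): minimal common denominators.

PROOFS.
* `min_denom`: let `d0` be the least positive natural number such that all `d0 x_j` are integers
  (`Nat.find`). The set of integers `z` with all `z x_j` integral is closed under subtraction, so
  `d0 ∣ d` (division with remainder and minimality). If a prime `p ∣ d0` divided all `u_j`, then
  `d0/p` would be a smaller common denominator. Lifting: for `w` prime to `d0` there is `w'` with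
  `w' ≡ w mod d0` and `w'` prime to `d` (`ZMod.unitsMap_surjective`, or take `w' = w + d0 * s`,
  `s` the product of the primes dividing `d` but not `w`); then `(w' - w) x_j` is an integer.
* `bad_prime`: if no prime `p` satisfies `p^2 ∣ d0`, then `d0` is squarefree; if moreover no
  prime `≥ 5` divides `d0`, its prime factors are in `{2, 3}`, so `d0 ∣ 6`.
* `frac_lower`: if `6 y` is an integer and `y` is not, then `fract y ≥ 1/6`.
-/

set_option autoImplicit false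

namespace Pool.H61.QF

theorem min_denom {ι : Type} [Fintype ι] (x : ι → ℚ) (d : ℕ) (hd : 0 < d)
    (hdx : ∀ j, ∃ u : ℤ, (d : ℚ) * x j = u) :
    ∃ (d0 : ℕ) (u : ι → ℤ), 0 < d0 ∧ (∀ j, (d0 : ℚ) * x j = u j) ∧
      (∀ p : ℕ, p.Prime → p ∣ d0 → ∃ j, ¬ (p : ℤ) ∣ u j) ∧
      (∀ w : ℤ, IsCoprime w (d0 : ℤ) → ∃ w' : ℤ, IsCoprime w' (d : ℤ) ∧
        ∀ j, Int.fract ((w' : ℚ) * x j) = Int.fract ((w : ℚ) * x j) ∧
          Int.fract (-((w' : ℚ) * x j)) = Int.fract (-((w : ℚ) * x j))) := by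
  classical
  have hex : ∃ k : ℕ, 0 < k ∧ ∀ j, ∃ u : ℤ, (k : ℚ) * x j = u := ⟨d, hd, hdx⟩
  obtain ⟨d0, hd0, hmin⟩ : ∃ d0 : ℕ, (0 < d0 ∧ ∀ j, ∃ u : ℤ, (d0 : ℚ) * x j = u) ∧
      ∀ k : ℕ, 0 < k → (∀ j, ∃ u : ℤ, (k : ℚ) * x j = u) → d0 ≤ k :=
    ⟨Nat.find hex, Nat.find_spec hex, fun k h1 h2 => Nat.find_min' hex ⟨h1, h2⟩⟩
  obtain ⟨hpos, hu⟩ := hd0
  choose u hu using hu
  have hdvd : d0 ∣ d := by
    rcases Nat.eq_zero_or_pos (d % d0) with h | h
    · exact Nat.dvd_of_mod_eq_zero h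
    · exfalso
      have h1 := hmin (d % d0) h (fun j => ?_)
      · exact absurd (Nat.mod_lt d hpos) (by omega)
      · obtain ⟨v, hv⟩ := hdx j
        obtain ⟨q, hq⟩ : ∃ q : ℕ, q = d / d0 := ⟨_, rfl⟩
        refine ⟨v - q * u j, ?_⟩
        have h2 : (d : ℚ) = (d0 : ℚ) * q + (d % d0 : ℕ) := by
          rw [hq]; exact_mod_cast (Nat.div_add_mod d d0).symm
        have h3 : ((d % d0 : ℕ) : ℚ) = d - (d0 : ℚ) * q := by rw [h2]; ring
        rw [h3]
        push_cast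
        rw [← hv, ← hu]; ring
  refine ⟨d0, u, hpos, hu, ?_, ?_⟩
  · intro p hp hpd
    by_contra hcon
    push Not at hcon
    obtain ⟨e, he⟩ := hpd
    have he0 : 0 < e := by
      rcases Nat.eq_zero_or_pos e with h | h
      · rw [h] at he; omega
      · exact h
    have h1 := hmin e he0 (fun j => ?_)
    · have h2 : 2 ≤ p := hp.two_le
      nlinarith
    · obtain ⟨v, hv⟩ := hcon j
      refine ⟨v, ?_⟩
      have h2 := hu j
      rw [hv, he] at h2
      push_cast at h2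
      have hp0 : (p : ℚ) ≠ 0 := by exact_mod_cast hp.ne_zero
      have h3 : (p : ℚ) * (e * x j) = p * v := by rw [← h2]; ring
      exact mul_left_cancel₀ hp0 h3
  · intro w hw
    have : NeZero d := ⟨hd.ne'⟩
    have h1 : IsUnit ((w : ℤ) : ZMod d0) :=
      (ZMod.coe_int_isUnit_iff_isCoprime w d0).mpr hw.symm
    obtain ⟨v, hv⟩ := ZMod.unitsMap_surjective hdvd h1.unit
    have h2 : (ZMod.castHom hdvd (ZMod d0)) (v : ZMod d) = ((w : ℤ) : ZMod d0) := by
      have h3 := congrArg Units.val hv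
      rw [IsUnit.unit_spec] at h3
      rw [← h3]; rfl
    obtain ⟨w', hw'⟩ := ZMod.intCast_surjective (v : ZMod d)
    have h4 : IsUnit ((w' : ℤ) : ZMod d) := by rw [hw']; exact v.isUnit
    have h5 : IsCoprime w' (d : ℤ) := ((ZMod.coe_int_isUnit_iff_isCoprime w' d).mp h4).symm
    have h6 : ((w' : ℤ) : ZMod d0) = ((w : ℤ) : ZMod d0) := by
      rw [← h2, ← hw', map_intCast]
    rw [ZMod.intCast_eq_intCast_iff_dvd_sub] at h6
    obtain ⟨s, hs⟩ := h6
    refine ⟨w', h5, fun j => ?_⟩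
    have h7 : (w : ℚ) * x j = (w' : ℚ) * x j + ((s * u j : ℤ) : ℚ) := by
      have h8 : ((w - w' : ℤ) : ℚ) = ((d0 * s : ℤ) : ℚ) := by rw [hs]
      push_cast at h8 ⊢
      rw [← hu]
      linear_combination (x j) * h8
    have h8 : -((w : ℚ) * x j) = -((w' : ℚ) * x j) + ((-(s * u j) : ℤ) : ℚ) := by
      rw [h7]; push_cast; ring
    constructor
    · rw [h7, Int.fract_add_intCast]
    · rw [h8, Int.fract_add_intCast]

theorem bad_prime (d0 : ℕ) (h : 0 < d0) :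
    d0 ∣ 6 ∨ ∃ p : ℕ, p.Prime ∧ p ∣ d0 ∧ (p ^ 2 ∣ d0 ∨ (5 ≤ p ∧ ¬ p ^ 2 ∣ d0)) := by
  by_cases h1 : ∃ p : ℕ, p.Prime ∧ p ^ 2 ∣ d0
  · obtain ⟨p, hp, h2⟩ := h1
    exact Or.inr ⟨p, hp, (Dvd.intro_left (p ^ 1) (by ring)).trans h2, Or.inl h2⟩
  push Not at h1
  by_cases h2 : ∃ p : ℕ, p.Prime ∧ p ∣ d0 ∧ 5 ≤ p
  · obtain ⟨p, hp, h3, h4⟩ := h2
    exact Or.inr ⟨p, hp, h3, Or.inr ⟨h4, h1 p hp⟩⟩
  push Not at h2
  left
  have hsq : Squarefree d0 := by
    rw [Nat.squarefree_iff_prime_squarefree]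
    intro p hp h3
    exact h1 p hp (by rwa [sq])
  have hsub : d0.primeFactors ⊆ ({2, 3} : Finset ℕ) := by
    intro p hp
    have hp' := Nat.prime_of_mem_primeFactors hp
    have h3 := h2 p hp' (Nat.dvd_of_mem_primeFactors hp)
    have h4 := hp'.two_le
    have h5 : p ≠ 4 := by
      rintro rfl
      exact absurd hp' (by norm_num)
    simp only [Finset.mem_insert, Finset.mem_singleton]
    omega
  calc d0 = ∏ p ∈ d0.primeFactors, p := (Nat.prod_primeFactors_of_squarefree hsq).symm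
    _ ∣ ∏ p ∈ ({2, 3} : Finset ℕ), p := Finset.prod_dvd_prod_of_subset _ _ _ hsub
    _ = 6 := by norm_num

theorem fract_neg' (y : ℚ) (hy : ∀ l : ℤ, y ≠ l) : Int.fract (-y) = 1 - Int.fract y := by
  refine Int.fract_neg ?_
  intro h
  exact hy ⌊y⌋ (by have := Int.self_sub_floor y; linarith)

theorem frac_lower (y : ℚ) (h6 : ∃ l : ℤ, 6 * y = l) (hy : ∀ l : ℤ, y ≠ l) :
    1 / 6 ≤ Int.fract y := by
  obtain ⟨l, hl⟩ := h6
  have h1 : 6 * Int.fract y = ((l - 6 * ⌊y⌋ : ℤ) : ℚ) := by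
    have := Int.self_sub_floor y
    push_cast
    linarith
  have h2 : 0 < Int.fract y := by
    refine lt_of_le_of_ne (Int.fract_nonneg y) fun h => hy ⌊y⌋ ?_
    have := Int.self_sub_floor y
    linarith
  have h3 : (0 : ℚ) < ((l - 6 * ⌊y⌋ : ℤ) : ℚ) := by rw [← h1]; linarith
  have h4 : 0 < l - 6 * ⌊y⌋ := by exact_mod_cast h3
  have h5 : (1 : ℚ) ≤ ((l - 6 * ⌊y⌋ : ℤ) : ℚ) := by exact_mod_cast h4
  linarith

end Pool.H61.QF
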