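import Pool.Agent.H61.QF.Defs

/-!
Module Po1 (Mathlib only, any field `k`): numerators of the derivatives of `T / E`.

Notation: `Q = ∏ (1 - C a_i⁻¹ X)`, `E = ∏ (1 - C a_i⁻¹ X)^(κ_i)`,
`R = ∑ κ_i (- a_i⁻¹) ∏_{l ≠ i} (1 - C a_l⁻¹ X)`, so that `Q E' = R E` (`Q_mul_deriv`).
`numP 0 = T`, `numP (i+1) = Q (numP i)' - (R + i Q') numP i`.

PROOFS.
* `Q_mul_deriv`: product rule (`Polynomial.derivative_prod` or induction on the number of
  factors); `derivative ((1 - C c X)^n) = n (1 - C c X)^(n-1) (- C c)`; multiply by `Q`.
* `Q_natDegree`, `R_natDegree`, `numP_natDegree`: degree counting.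
* `main congruence`: let `G` be a power series with `coeff n (E G) = coeff n T` for `n < L`. Then
  for all `i` and all `n` with `n + i < L`:
  `coeff n (E Q^i D^i G) = coeff n (numP i)`.
  Induction: write `E Q^i D^i G = numP i + Z` with `X^(L-i) ∣ Z`; apply `D` and multiply by `Q`:
  `Q D(E Q^i) D^i G + E Q^(i+1) D^(i+1) G = Q (numP i)' + Q D Z`, and
  `Q D(E Q^i) = (R + i Q') E Q^i`, hence
  `E Q^(i+1) D^(i+1) G = Q (numP i)' + Q DZ - (R + i Q') (numP i + Z) = numP (i+1) + (multiple of X^(L-i-1))`.
* `W_eq_zero`: `W = ∑ q_i Q^(r-i) numP i` agrees with `E Q^r ∑ q_i D^i G` in all degrees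
  `n + r < L`, and there the latter is `0` by the differential equation. The degree of `W` is
  `≤ natDegree T + r m + D < L - r`, so `W = 0`.
-/

set_option autoImplicit false

namespace Pool.H61.QF

open Polynomial

variable {k : Type} [Field k]

/-- `∏ (1 - X / a_i)`. -/
noncomputable def QP {m : ℕ} (a : Fin m → k) : Polynomial k :=
  ∏ i, (1 - C (a i)⁻¹ * X)

/-- `Q E' / E` for `E = ∏ (1 - X / a_i)^(κ_i)`. -/
noncomputable def RP {m : ℕ} (a : Fin m → k) (κ : Fin m → ℕ) : Polynomial k :=
  ∑ i, C ((κ i : k) * (-(a i)⁻¹)) * ∏ l ∈ Finset.univ.erase i, (1 - C (a l)⁻¹ * X)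

/-- Numerators of the derivatives of `T / E`. -/
noncomputable def numP {m : ℕ} (a : Fin m → k) (κ : Fin m → ℕ) (T : Polynomial k) :
    ℕ → Polynomial k
  | 0 => T
  | i + 1 => QP a * derivative (numP a κ T i)
      - (RP a κ + (i : Polynomial k) * derivative (QP a)) * numP a κ T i

theorem Q_mul_deriv {m : ℕ} (a : Fin m → k) (κ : Fin m → ℕ) :
    QP a * derivative (eulP a κ) = RP a κ * eulP a κ := by
  classical
  unfold eulP
  rw [Polynomial.derivative_prod_finset, Finset.mul_sum, RP, Finset.sum_mul]
  refine Finset.sum_congr rfl fun i _ => ?_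
  have h1 : QP a = (1 - C (a i)⁻¹ * X) * ∏ l ∈ Finset.univ.erase i, (1 - C (a l)⁻¹ * X) := by
    rw [QP]
    exact (Finset.mul_prod_erase Finset.univ (fun l => (1 - C (a l)⁻¹ * X))
      (Finset.mem_univ i)).symm
  have h2 : (∏ l, (1 - C (a l)⁻¹ * X) ^ (κ l))
      = (1 - C (a i)⁻¹ * X) ^ (κ i) * ∏ l ∈ Finset.univ.erase i, (1 - C (a l)⁻¹ * X) ^ (κ l) :=
    (Finset.mul_prod_erase Finset.univ (fun l => (1 - C (a l)⁻¹ * X) ^ (κ l))
      (Finset.mem_univ i)).symm
  have h3 : derivative ((1 - C (a i)⁻¹ * X : Polynomial k) ^ (κ i))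
      = C (κ i : k) * (1 - C (a i)⁻¹ * X) ^ (κ i - 1) * C (-(a i)⁻¹) := by
    rw [Polynomial.derivative_pow]
    congr 1
    simp
  rw [h1, h2, h3]
  rcases Nat.eq_zero_or_pos (κ i) with h0 | hpos
  · rw [h0]; simp
  · have h4 : (1 - C (a i)⁻¹ * X : Polynomial k) ^ (κ i)
        = (1 - C (a i)⁻¹ * X) * (1 - C (a i)⁻¹ * X) ^ (κ i - 1) := by
      rw [← pow_succ']
      congr 1
      omega
    rw [h4, C_mul]
    ring

private theorem natDegree_lin (c : k) : (1 - C c * X : Polynomial k).natDegree ≤ 1 := by
  refine (natDegree_sub_le _ _).trans (max_le (by simp) ?_)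
  refine natDegree_mul_le.trans ?_
  rw [natDegree_C, zero_add]
  exact natDegree_X_le

private theorem QP_natDegree {m : ℕ} (a : Fin m → k) : (QP a).natDegree ≤ m := by
  refine (natDegree_prod_le _ _).trans ?_
  calc ∑ i : Fin m, (1 - C (a i)⁻¹ * X : Polynomial k).natDegree ≤ ∑ _i : Fin m, 1 :=
        Finset.sum_le_sum fun i _ => natDegree_lin _
    _ = m := by simp

private theorem RP_natDegree {m : ℕ} (a : Fin m → k) (κ : Fin m → ℕ) :
    (RP a κ).natDegree ≤ m := by
  classical
  refine natDegree_sum_le_of_forall_le _ _ fun i _ => ?_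
  refine natDegree_mul_le.trans ?_
  rw [natDegree_C, zero_add]
  refine (natDegree_prod_le _ _).trans ?_
  calc ∑ l ∈ Finset.univ.erase i, (1 - C (a l)⁻¹ * X : Polynomial k).natDegree
      ≤ ∑ _l ∈ Finset.univ.erase i, 1 := Finset.sum_le_sum fun l _ => natDegree_lin _
    _ ≤ m := by simp

theorem numP_natDegree {m : ℕ} (a : Fin m → k) (κ : Fin m → ℕ) (T : Polynomial k) (i : ℕ) :
    (QP a).natDegree ≤ m ∧ (numP a κ T i).natDegree ≤ T.natDegree + i * m := by
  refine ⟨QP_natDegree a, ?_⟩
  induction i with
  | zero => simp [numP]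
  | succ i ih =>
    rw [numP]
    refine (natDegree_sub_le _ _).trans (max_le ?_ ?_)
    · refine natDegree_mul_le.trans ?_
      have h1 := natDegree_derivative_le (numP a κ T i)
      have h2 := QP_natDegree a
      rw [add_mul, one_mul]
      omega
    · refine natDegree_mul_le.trans ?_
      have h1 : (RP a κ + (i : Polynomial k) * derivative (QP a)).natDegree ≤ m := by
        refine (natDegree_add_le _ _).trans (max_le (RP_natDegree a κ) ?_)
        refine natDegree_mul_le.trans ?_
        rw [natDegree_natCast, zero_add]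
        exact (natDegree_derivative_le _).trans (by have := QP_natDegree a; omega)
      rw [add_mul, one_mul]
      omega

/-- If the coefficients `≤ n` of `A` vanish, so does the coefficient `n` of `B * A`. -/
private theorem coeff_mul_eq_zero (A B : PowerSeries k) (n : ℕ)
    (hA : ∀ j ≤ n, PowerSeries.coeff j A = 0) : PowerSeries.coeff n (B * A) = 0 := by
  rw [PowerSeries.coeff_mul]
  refine Finset.sum_eq_zero fun x hx => ?_
  rw [Finset.HasAntidiagonal.mem_antidiagonal] at hx
  rw [hA x.2 (by omega), mul_zero]

theorem congr_num {m : ℕ} (a : Fin m → k) (κ : Fin m → ℕ) (T : Polynomial k)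
    (G : PowerSeries k) (L : ℕ)
    (hEG : ∀ n < L, PowerSeries.coeff n (((eulP a κ : Polynomial k) : PowerSeries k) * G)
      = T.coeff n) (i : ℕ) :
    ∀ n, n + i < L → PowerSeries.coeff n
      (((eulP a κ * QP a ^ i : Polynomial k) : PowerSeries k) *
        (⇑(PowerSeries.derivative k))^[i] G) = (numP a κ T i).coeff n := by
  induction i with
  | zero =>
    intro n hn
    have := hEG n (by omega)
    simpa [numP] using this
  | succ i ih =>
    intro n hn
    set E : Polynomial k := eulP a κ with hE
    set Q : Polynomial k := QP a with hQ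
    set Gi : PowerSeries k := (⇑(PowerSeries.derivative k))^[i] G with hGi
    set Fi : PowerSeries k := ((E * Q ^ i : Polynomial k) : PowerSeries k) * Gi with hFi
    set Pi : PowerSeries k := ((numP a κ T i : Polynomial k) : PowerSeries k) with hPi
    have hZ : ∀ j, j + i < L → PowerSeries.coeff j (Fi - Pi) = 0 := by
      intro j hj
      rw [map_sub, ih j hj, hPi, Polynomial.coeff_coe, sub_self]
    -- the differential identity
    have hpoly : Q * derivative (E * Q ^ i)
        = (RP a κ + (i : Polynomial k) * derivative Q) * (E * Q ^ i) := by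
      have h1 := Q_mul_deriv a κ
      rw [← hQ, ← hE] at h1
      rw [Polynomial.derivative_mul, Polynomial.derivative_pow]
      rcases Nat.eq_zero_or_pos i with h0 | hpos
      · subst h0
        simp only [pow_zero, mul_one, Nat.cast_zero, C_0, zero_mul, mul_zero, add_zero]
        exact h1
      · have h4 : Q ^ i = Q * Q ^ (i - 1) := by
          rw [← pow_succ']
          congr 1
          omega
        have h5 : (C (i : k) : Polynomial k) = (i : Polynomial k) := by simp
        rw [h5, h4]
        linear_combination (Q * Q ^ (i - 1)) * h1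
    have hD : (PowerSeries.derivative k) Fi
        = ((derivative (E * Q ^ i) : Polynomial k) : PowerSeries k) * Gi
          + ((E * Q ^ i : Polynomial k) : PowerSeries k) * (PowerSeries.derivative k) Gi := by
      rw [hFi, Derivation.leibniz]
      rw [PowerSeries.derivative_coe]
      simp only [smul_eq_mul]
      ring
    have hnext : ((E * Q ^ (i + 1) : Polynomial k) : PowerSeries k) *
          (⇑(PowerSeries.derivative k))^[i + 1] G
        = (Q : PowerSeries k) * (PowerSeries.derivative k) Fi
          - ((RP a κ + (i : Polynomial k) * derivative Q : Polynomial k) : PowerSeries k) * Fi := by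
      rw [Function.iterate_succ_apply', ← hGi, hD, hFi]
      have h6 : ((Q * derivative (E * Q ^ i) : Polynomial k) : PowerSeries k)
          = (((RP a κ + (i : Polynomial k) * derivative Q) * (E * Q ^ i) : Polynomial k)
            : PowerSeries k) := by rw [hpoly]
      rw [Polynomial.coe_mul, Polynomial.coe_mul] at h6
      have h7 : ((E * Q ^ (i + 1) : Polynomial k) : PowerSeries k)
          = (Q : PowerSeries k) * ((E * Q ^ i : Polynomial k) : PowerSeries k) := by
        rw [← Polynomial.coe_mul]
        congr 1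
        ring
      rw [h7]
      linear_combination (-Gi) * h6
    have hnum : ((numP a κ T (i + 1) : Polynomial k) : PowerSeries k)
        = (Q : PowerSeries k) * (PowerSeries.derivative k) Pi
          - ((RP a κ + (i : Polynomial k) * derivative Q : Polynomial k) : PowerSeries k) * Pi := by
      rw [numP, ← hQ, hPi, PowerSeries.derivative_coe, Polynomial.coe_sub, Polynomial.coe_mul,
        Polynomial.coe_mul]
    rw [← Polynomial.coeff_coe (numP a κ T (i + 1)) n, hnum, hnext, ← sub_eq_zero, ← map_sub]
    have h8 : (Q : PowerSeries k) * (PowerSeries.derivative k) Fi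
          - ((RP a κ + (i : Polynomial k) * derivative Q : Polynomial k) : PowerSeries k) * Fi
          - ((Q : PowerSeries k) * (PowerSeries.derivative k) Pi
          - ((RP a κ + (i : Polynomial k) * derivative Q : Polynomial k) : PowerSeries k) * Pi)
        = (Q : PowerSeries k) * (PowerSeries.derivative k) (Fi - Pi)
          - ((RP a κ + (i : Polynomial k) * derivative Q : Polynomial k) : PowerSeries k)
            * (Fi - Pi) := by
      rw [map_sub]; ring
    rw [h8, map_sub, coeff_mul_eq_zero _ _ n, coeff_mul_eq_zero _ _ n, sub_zero]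
    · intro j hj
      exact hZ j (by omega)
    · intro j hj
      rw [PowerSeries.coeff_derivative, hZ (j + 1) (by omega), zero_mul]

/-- The combination `∑ q_i Q^(r-i) numP i`. -/
noncomputable def WP {m : ℕ} (a : Fin m → k) (κ : Fin m → ℕ) (T : Polynomial k) (r : ℕ)
    (q : ℕ → Polynomial k) : Polynomial k :=
  ∑ i ∈ Finset.range (r + 1), q i * QP a ^ (r - i) * numP a κ T i

theorem W_eq_zero {m r : ℕ} (a : Fin m → k) (κ : Fin m → ℕ) (q : ℕ → Polynomial k)
    (D : ℕ) (hD : ∀ i ≤ r, (q i).natDegree ≤ D) (T : Polynomial k) (G : PowerSeries k)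
    (n0 L : ℕ) (hdeg : T.natDegree < n0) (hL : n0 + r * m + D + r ≤ L)
    (hEG : ∀ n < L, PowerSeries.coeff n (((eulP a κ : Polynomial k) : PowerSeries k) * G)
      = T.coeff n)
    (hode : ∀ n, n + r < L → PowerSeries.coeff n
      (∑ i ∈ Finset.range (r + 1), ((q i : Polynomial k) : PowerSeries k) *
        (⇑(PowerSeries.derivative k))^[i] G) = 0) :
    WP a κ T r q = 0 := by
  ext n
  rw [Polynomial.coeff_zero]
  by_cases hn : n + r < L
  · -- compare with the power series
    have h1 : ∀ i ∈ Finset.range (r + 1),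
        (q i * QP a ^ (r - i) * numP a κ T i).coeff n
          = PowerSeries.coeff n (((q i * QP a ^ (r - i) : Polynomial k) : PowerSeries k) *
            (((eulP a κ * QP a ^ i : Polynomial k) : PowerSeries k) *
              (⇑(PowerSeries.derivative k))^[i] G)) := by
      intro i hi
      have hir : i ≤ r := by
        rw [Finset.mem_range] at hi; omega
      rw [← Polynomial.coeff_coe, Polynomial.coe_mul, ← sub_eq_zero, ← map_sub, ← mul_sub]
      refine coeff_mul_eq_zero _ _ n fun j hj => ?_
      rw [map_sub, Polynomial.coeff_coe, congr_num a κ T G L hEG i j (by omega), sub_self]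
    rw [WP, Polynomial.finsetSum_coeff, Finset.sum_congr rfl h1, ← map_sum]
    have h2 : ∑ i ∈ Finset.range (r + 1), ((q i * QP a ^ (r - i) : Polynomial k) : PowerSeries k) *
            (((eulP a κ * QP a ^ i : Polynomial k) : PowerSeries k) *
              (⇑(PowerSeries.derivative k))^[i] G)
        = ((eulP a κ * QP a ^ r : Polynomial k) : PowerSeries k) *
          ∑ i ∈ Finset.range (r + 1), ((q i : Polynomial k) : PowerSeries k) *
            (⇑(PowerSeries.derivative k))^[i] G := by
      rw [Finset.mul_sum]
      refine Finset.sum_congr rfl fun i hi => ?_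
      have hir : i ≤ r := by
        rw [Finset.mem_range] at hi; omega
      have h3 : QP a ^ r = QP a ^ (r - i) * QP a ^ i := by
        rw [← pow_add]; congr 1; omega
      rw [h3]
      simp only [Polynomial.coe_mul]
      ring
    rw [h2]
    refine coeff_mul_eq_zero _ _ n fun j hj => ?_
    exact hode j (by omega)
  · refine Polynomial.coeff_eq_zero_of_natDegree_lt ?_
    refine lt_of_le_of_lt (natDegree_sum_le_of_forall_le (n := T.natDegree + r * m + D) _ _
      fun i hi => ?_) (by omega)
    have hir : i ≤ r := by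
      rw [Finset.mem_range] at hi; omega
    obtain ⟨h4, h5⟩ := numP_natDegree a κ T i
    refine natDegree_mul_le.trans ?_
    have h6 : (q i * QP a ^ (r - i)).natDegree ≤ D + (r - i) * m := by
      refine natDegree_mul_le.trans ?_
      refine Nat.add_le_add (hD i hir) ?_
      refine natDegree_pow_le.trans ?_
      exact Nat.mul_le_mul_left _ h4
    have h7 : (r - i) * m + i * m = r * m := by
      rw [← add_mul]; congr 1; omega
    omega

end Pool.H61.QF
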