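import Pool.Agent.H61.QF.Defs

/-!
Module Rd1 (Mathlib only): elementary properties of the reduction maps `rho`, `redS`, `redP`.
All proofs are direct: `rho` is the ring homomorphism `φ` on the subring `LocInt p`;
coefficients of products are finite sums over the antidiagonal, coefficients of the derivative
are `(n+1) * coeff (n+1)`.
-/

set_option autoImplicit false

namespace Pool.H61.QF

variable {p : ℕ} [hp : Fact p.Prime] {k : Type} [Field k] (φ : LocInt p →+* k)

theorem rho_eq {x : Kbar} (hx : x ∈ LocInt p) : rho φ x = φ ⟨x, hx⟩ := by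
  unfold rho
  rw [dif_pos hx]

theorem rho_add {x y : Kbar} (hx : x ∈ LocInt p) (hy : y ∈ LocInt p) :
    rho φ (x + y) = rho φ x + rho φ y := by
  rw [rho_eq φ hx, rho_eq φ hy, rho_eq φ ((LocInt p).add_mem hx hy), ← map_add]
  rfl

theorem rho_sub {x y : Kbar} (hx : x ∈ LocInt p) (hy : y ∈ LocInt p) :
    rho φ (x - y) = rho φ x - rho φ y := by
  rw [rho_eq φ hx, rho_eq φ hy, rho_eq φ ((LocInt p).sub_mem hx hy), ← map_sub]
  rfl

theorem rho_mul {x y : Kbar} (hx : x ∈ LocInt p) (hy : y ∈ LocInt p) :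
    rho φ (x * y) = rho φ x * rho φ y := by
  rw [rho_eq φ hx, rho_eq φ hy, rho_eq φ ((LocInt p).mul_mem hx hy), ← map_mul]
  rfl

theorem rho_zero : rho φ (0 : Kbar) = 0 := by
  rw [rho_eq φ (LocInt p).zero_mem]
  exact map_zero φ

theorem rho_one : rho φ (1 : Kbar) = 1 := by
  rw [rho_eq φ (LocInt p).one_mem]
  exact map_one φ

theorem rho_natCast (n : ℕ) : rho φ ((n : ℕ) : Kbar) = (n : k) := by
  have h : ((n : ℕ) : Kbar) ∈ LocInt p := natCast_mem _ n
  rw [rho_eq φ h]
  have h2 : (⟨((n : ℕ) : Kbar), h⟩ : LocInt p) = (n : LocInt p) := Subtype.ext (by simp)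
  rw [h2, map_natCast]

theorem rho_pow {x : Kbar} (hx : x ∈ LocInt p) (n : ℕ) : rho φ (x ^ n) = rho φ x ^ n := by
  rw [rho_eq φ hx, rho_eq φ ((LocInt p).pow_mem hx n), ← map_pow]
  rfl

theorem rho_sum {ι : Type} (s : Finset ι) (f : ι → Kbar) (h : ∀ i ∈ s, f i ∈ LocInt p) :
    rho φ (∑ i ∈ s, f i) = ∑ i ∈ s, rho φ (f i) := by
  classical
  induction s using Finset.induction_on with
  | empty => simpa using rho_zero φ
  | insert a s ha ih =>
    have h1 : f a ∈ LocInt p := h a (Finset.mem_insert_self a s)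
    have h2 : ∀ i ∈ s, f i ∈ LocInt p := fun i hi => h i (Finset.mem_insert_of_mem hi)
    rw [Finset.sum_insert ha, Finset.sum_insert ha, rho_add φ h1 ((LocInt p).sum_mem h2), ih h2]

/-- If `x ≠ 0` and `x`, `x⁻¹` are both locally integral then the reduction is nonzero. -/
theorem rho_ne_zero {x : Kbar} (hx : x ∈ LocInt p) (hx' : x⁻¹ ∈ LocInt p) (h0 : x ≠ 0) :
    rho φ x ≠ 0 := by
  intro h
  have h1 := rho_mul φ hx hx'
  rw [mul_inv_cancel₀ h0, rho_one, h, zero_mul] at h1
  exact one_ne_zero h1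

theorem rho_inv {x : Kbar} (hx : x ∈ LocInt p) (hx' : x⁻¹ ∈ LocInt p) (h0 : x ≠ 0) :
    rho φ x⁻¹ = (rho φ x)⁻¹ := by
  have h1 := rho_mul φ hx hx'
  rw [mul_inv_cancel₀ h0, rho_one] at h1
  exact eq_inv_of_mul_eq_one_right h1.symm

theorem redP_coeff (F : Polynomial Kbar) (n : ℕ) :
    (redP φ F).coeff n = rho φ (F.coeff n) := by
  unfold redP
  rw [Polynomial.finsetSum_coeff]
  simp only [Polynomial.coeff_monomial]
  by_cases hn : n < F.natDegree + 1
  · rw [Finset.sum_eq_single n]
    · simp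
    · intro b _ hb
      rw [if_neg hb]
    · intro h
      exact absurd (Finset.mem_range.2 hn) h
  · have h0 : F.coeff n = 0 := Polynomial.coeff_eq_zero_of_natDegree_lt (by omega)
    rw [h0, rho_zero]
    apply Finset.sum_eq_zero
    intro b hb
    rw [if_neg]
    intro hbn
    rw [Finset.mem_range] at hb
    omega

theorem redP_natDegree_le (F : Polynomial Kbar) : (redP φ F).natDegree ≤ F.natDegree := by
  rw [Polynomial.natDegree_le_iff_coeff_eq_zero]
  intro n hn
  rw [redP_coeff, Polynomial.coeff_eq_zero_of_natDegree_lt hn, rho_zero]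

/-- Evaluation commutes with reduction. -/
theorem redP_eval (F : Polynomial Kbar) (hF : ∀ n, F.coeff n ∈ LocInt p) {x : Kbar}
    (hx : x ∈ LocInt p) : (redP φ F).eval (rho φ x) = rho φ (F.eval x) ∧ F.eval x ∈ LocInt p := by
  have h1 : ∀ i ∈ Finset.range (F.natDegree + 1), F.coeff i * x ^ i ∈ LocInt p :=
    fun i _ => (LocInt p).mul_mem (hF i) ((LocInt p).pow_mem hx i)
  constructor
  · rw [Polynomial.eval_eq_sum_range' (lt_of_le_of_lt (redP_natDegree_le φ F)
      (Nat.lt_succ_self _)) (rho φ x), Polynomial.eval_eq_sum_range, rho_sum φ _ _ h1]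
    apply Finset.sum_congr rfl
    intro i _
    rw [redP_coeff, rho_mul φ (hF i) ((LocInt p).pow_mem hx i), rho_pow φ hx]
  · rw [Polynomial.eval_eq_sum_range]
    exact (LocInt p).sum_mem h1

theorem coeff_mul_mem {L : ℕ} {F F' : PowerSeries Kbar}
    (h : ∀ n < L, PowerSeries.coeff n F ∈ LocInt p)
    (h' : ∀ n < L, PowerSeries.coeff n F' ∈ LocInt p) :
    ∀ n < L, PowerSeries.coeff n (F * F') ∈ LocInt p := by
  intro n hn
  rw [PowerSeries.coeff_mul]
  apply (LocInt p).sum_mem
  intro c hc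
  rw [Finset.HasAntidiagonal.mem_antidiagonal] at hc
  exact (LocInt p).mul_mem (h _ (by omega)) (h' _ (by omega))

theorem coeff_redS (F : PowerSeries Kbar) (n : ℕ) :
    PowerSeries.coeff n (redS φ F) = rho φ (PowerSeries.coeff n F) := by
  unfold redS
  rw [PowerSeries.coeff_mk]

theorem redS_mul {L : ℕ} {F F' : PowerSeries Kbar}
    (h : ∀ n < L, PowerSeries.coeff n F ∈ LocInt p)
    (h' : ∀ n < L, PowerSeries.coeff n F' ∈ LocInt p) :
    ∀ n < L, rho φ (PowerSeries.coeff n (F * F'))
      = PowerSeries.coeff n (redS φ F * redS φ F') := by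
  intro n hn
  rw [PowerSeries.coeff_mul, PowerSeries.coeff_mul, rho_sum]
  · apply Finset.sum_congr rfl
    intro c hc
    rw [Finset.HasAntidiagonal.mem_antidiagonal] at hc
    rw [rho_mul φ (h _ (by omega)) (h' _ (by omega)), coeff_redS, coeff_redS]
  · intro c hc
    rw [Finset.HasAntidiagonal.mem_antidiagonal] at hc
    exact (LocInt p).mul_mem (h _ (by omega)) (h' _ (by omega))

theorem redS_prod {L m : ℕ} (F : Fin m → PowerSeries Kbar)
    (h : ∀ i, ∀ n < L, PowerSeries.coeff n (F i) ∈ LocInt p) :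
    (∀ n < L, PowerSeries.coeff n (∏ i, F i) ∈ LocInt p) ∧
    ∀ n < L, rho φ (PowerSeries.coeff n (∏ i, F i))
      = PowerSeries.coeff n (∏ i, redS φ (F i)) := by
  induction m with
  | zero =>
    simp only [Finset.univ_eq_empty, Finset.prod_empty, PowerSeries.coeff_one]
    constructor
    · intro n _
      split_ifs
      · exact (LocInt p).one_mem
      · exact (LocInt p).zero_mem
    · intro n _
      split_ifs
      · exact rho_one φ
      · exact rho_zero φ
  | succ m ih =>
    obtain ⟨h1, h2⟩ := ih (fun i => F i.succ) (fun i => h i.succ)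
    rw [Fin.prod_univ_succ, Fin.prod_univ_succ]
    refine ⟨coeff_mul_mem (h 0) h1, ?_⟩
    intro n hn
    rw [redS_mul φ (h 0) h1 n hn, PowerSeries.coeff_mul, PowerSeries.coeff_mul]
    apply Finset.sum_congr rfl
    intro c hc
    rw [Finset.HasAntidiagonal.mem_antidiagonal] at hc
    rw [coeff_redS φ (∏ i : Fin m, F i.succ), h2 _ (by omega)]

theorem redS_deriv {L : ℕ} (F : PowerSeries Kbar)
    (h : ∀ n < L, PowerSeries.coeff n F ∈ LocInt p) (i : ℕ) :
    ∀ n, n + i < L →
      PowerSeries.coeff n ((⇑(PowerSeries.derivative Kbar))^[i] F) ∈ LocInt p ∧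
      rho φ (PowerSeries.coeff n ((⇑(PowerSeries.derivative Kbar))^[i] F))
        = PowerSeries.coeff n ((⇑(PowerSeries.derivative k))^[i] (redS φ F)) := by
  induction i with
  | zero =>
    intro n hn
    simp only [Function.iterate_zero, id_eq]
    exact ⟨h n (by omega), (coeff_redS φ F n).symm⟩
  | succ i ih =>
    intro n hn
    obtain ⟨h1, h2⟩ := ih (n + 1) (by omega)
    rw [Function.iterate_succ_apply', Function.iterate_succ_apply', PowerSeries.coeff_derivative,
      PowerSeries.coeff_derivative]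
    have h3 : ((n : Kbar) + 1) ∈ LocInt p := (LocInt p).add_mem (natCast_mem _ n)
      (LocInt p).one_mem
    refine ⟨(LocInt p).mul_mem h1 h3, ?_⟩
    rw [rho_mul φ h1 h3, h2, rho_add φ (natCast_mem _ n) (LocInt p).one_mem, rho_natCast, rho_one]

end Pool.H61.QF
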