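import Mathlib

/-!
Module Sh (Mathlib only): shifting a multiplier by multiples of `d/p`.

PROOF of `shift`. `e = d/p`, `W t = w + t e`, `T = {t ∈ range p | W t prime to d}`.
`0 ∈ T`. If `p^2 ∣ d`, every prime factor of `d` divides `e`, so `T = range p`. If not, `p` does
not divide `e`, every prime factor `≠ p` of `d` divides `e`, so `t ∈ T` iff `¬ p ∣ w + t e`, and
exactly one `t ∈ range p` violates this: `card T = p - 1`.
`(W t) x_j = w x_j + t u_j / p`. If `p ∣ u_j` the fractional part does not change. If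
`¬ p ∣ u_j`: let `y = fract (w x_j)`, `R0 = ⌊p y⌋`, `ρ_j = y - R0/p ∈ [0, 1/p)`, and
`R_j(t) = (R0 + t u_j) mod p`; then `fract (y + t u_j/p) = R_j(t)/p + ρ_j` and `R_j` is injective
on `range p`. If `p^2 ∣ d` and `ρ_j = 0`, then `p w x_j = p w u_j / d` is an integer, so
`d ∣ p w u_j`, so `p ∣ w u_j`, `p ∣ u_j`, contradiction. (For `p ∣ u_j` put `ρ_j = 0`, `R_j = id`.)

PROOF of `sum_distinct` etc.: the sum of `n` distinct natural numbers is at least
`0 + 1 + ... + (n-1)` (`Finset.sum_range_id_le...` or induction removing the maximum, which is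
`≥ n - 1`); the second follows by applying the first to `p - 1 - R t`.
-/

set_option autoImplicit false

namespace Pool.H61.QF

/-- Data of the shifts of the multiplier `w` by multiples of `d/p`. -/
structure SD {ι : Type} [Fintype ι] (x : ι → ℚ) (d p : ℕ) (u : ι → ℤ) (w : ℤ) where
  T : Finset ℕ
  W : ℕ → ℤ
  ρ : ι → ℚ
  R : ι → ℕ → ℕ
  zero_mem : 0 ∈ T
  W0 : W 0 = w
  cop : ∀ t ∈ T, IsCoprime (W t) (d : ℤ)
  card_sq : p ^ 2 ∣ d → T.card = p
  card_not_sq : ¬ p ^ 2 ∣ d → T.card = p - 1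
  fix : ∀ j, (p : ℤ) ∣ u j → ∀ t ∈ T,
    Int.fract ((W t : ℚ) * x j) = Int.fract ((w : ℚ) * x j)
  ρ_nonneg : ∀ j, 0 ≤ ρ j
  ρ_lt : ∀ j, ρ j < 1 / p
  ρ_pos : p ^ 2 ∣ d → ∀ j, ¬ (p : ℤ) ∣ u j → 0 < ρ j
  inj : ∀ j, ¬ (p : ℤ) ∣ u j → Set.InjOn (R j) T
  R_lt : ∀ j, ¬ (p : ℤ) ∣ u j → ∀ t ∈ T, R j t < p
  mov : ∀ j, ¬ (p : ℤ) ∣ u j → ∀ t ∈ T,
    Int.fract ((W t : ℚ) * x j) = (R j t : ℚ) / p + ρ j

theorem shift {ι : Type} [Fintype ι] (x : ι → ℚ) (d p : ℕ) (hd : 0 < d) (hp : p.Prime)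
    (hpd : p ∣ d) (u : ι → ℤ) (hu : ∀ j, (d : ℚ) * x j = u j) (w : ℤ)
    (hw : IsCoprime w (d : ℤ)) : Nonempty (SD x d p u w) := by
  classical
  obtain ⟨e, rfl⟩ := hpd
  have : Fact p.Prime := ⟨hp⟩
  have hp0 : (0 : ℚ) < p := by exact_mod_cast hp.pos
  have hpz : (0 : ℤ) < p := by exact_mod_cast hp.pos
  have hpe : (p : ℚ) ≠ 0 := hp0.ne'
  have hwp : IsCoprime w (p : ℤ) := by
    have : IsCoprime w ((p : ℤ) * (e : ℤ)) := by exact_mod_cast hw
    exact this.of_mul_right_left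
  have hwe : IsCoprime w (e : ℤ) := by
    have : IsCoprime w ((p : ℤ) * (e : ℤ)) := by exact_mod_cast hw
    exact this.of_mul_right_right
  have hpp : Prime (p : ℤ) := Nat.prime_iff_prime_int.1 hp
  -- coprimality with `e`
  have hWe : ∀ t : ℕ, IsCoprime (w + (t : ℤ) * (e : ℤ)) (e : ℤ) := by
    intro t
    exact hwe.add_mul_right_left (t : ℤ)
  have hcop : ∀ t : ℕ, IsCoprime (w + (t : ℤ) * (e : ℤ)) ((p * e : ℕ) : ℤ) ↔
      ¬ (p : ℤ) ∣ w + (t : ℤ) * (e : ℤ) := by
    intro t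
    constructor
    · intro h hdv
      have h1 : IsCoprime (w + (t : ℤ) * (e : ℤ)) ((p : ℤ) * (e : ℤ)) := by exact_mod_cast h
      have h2 := h1.of_mul_right_left
      have h3 : IsUnit (p : ℤ) := h2.isUnit_of_dvd' hdv (dvd_refl _)
      exact hpp.not_isUnit h3
    · intro h
      have h1 : IsCoprime (w + (t : ℤ) * (e : ℤ)) (p : ℤ) :=
        ((Prime.coprime_iff_not_dvd hpp).2 h).symm
      have h2 : IsCoprime (w + (t : ℤ) * (e : ℤ)) ((p : ℤ) * (e : ℤ)) := h1.mul_right (hWe t)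
      exact_mod_cast h2
  have hex : ∀ j, (e : ℚ) * x j = (u j : ℚ) / p := by
    intro j
    have h := hu j
    push_cast at h
    rw [eq_div_iff hpe, ← h]
    ring
  let T : Finset ℕ := (Finset.range p).filter
    (fun t => IsCoprime (w + (t : ℤ) * (e : ℤ)) ((p * e : ℕ) : ℤ))
  let y : ι → ℚ := fun j => Int.fract ((w : ℚ) * x j)
  let R0 : ι → ℤ := fun j => ⌊(p : ℚ) * y j⌋
  have hR0a : ∀ j, (R0 j : ℚ) ≤ (p : ℚ) * y j := fun j => Int.floor_le _
  have hR0b : ∀ j, (p : ℚ) * y j < (R0 j : ℚ) + 1 := fun j => Int.lt_floor_add_one _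
  have hρ0 : ∀ j, 0 ≤ y j - (R0 j : ℚ) / p := by
    intro j
    rw [sub_nonneg, div_le_iff₀ hp0]
    linarith [hR0a j]
  have hρ1 : ∀ j, y j - (R0 j : ℚ) / p < 1 / p := by
    intro j
    rw [sub_lt_iff_lt_add, ← add_div, lt_div_iff₀ hp0]
    linarith [hR0b j]
  have hRcast : ∀ j (t : ℕ), (((((R0 j + (t : ℤ) * u j) % (p : ℤ)).toNat : ℕ) : ℤ)) =
      (R0 j + (t : ℤ) * u j) % (p : ℤ) := by
    intro j t
    exact Int.toNat_of_nonneg (Int.emod_nonneg _ hpz.ne')
  refine ⟨{ T := T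
            W := fun t => w + (t : ℤ) * (e : ℤ)
            ρ := fun j => if (p : ℤ) ∣ u j then 0 else y j - (R0 j : ℚ) / p
            R := fun j t => ((R0 j + (t : ℤ) * u j) % (p : ℤ)).toNat
            zero_mem := ?_
            W0 := by simp
            cop := ?_
            card_sq := ?_
            card_not_sq := ?_
            fix := ?_
            ρ_nonneg := ?_
            ρ_lt := ?_
            ρ_pos := ?_
            inj := ?_
            R_lt := ?_
            mov := ?_ }⟩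
  · rw [Finset.mem_filter]
    refine ⟨Finset.mem_range.2 hp.pos, ?_⟩
    simpa using hw
  · intro t ht
    exact (Finset.mem_filter.1 ht).2
  · intro hsq
    have hpe' : (p : ℤ) ∣ (e : ℤ) := by
      obtain ⟨c, hc⟩ := hsq
      have : p * e = p * (p * c) := by rw [hc]; ring
      have h2 : e = p * c := Nat.eq_of_mul_eq_mul_left hp.pos this
      exact ⟨(c : ℤ), by rw [h2]; push_cast; ring⟩
    have : T = Finset.range p := by
      apply Finset.filter_true_of_mem
      intro t _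
      rw [hcop t]
      intro h
      have h1 : (p : ℤ) ∣ w := by
        have h2 := dvd_sub h (hpe'.mul_left (t : ℤ))
        simpa using h2
      exact hpp.not_isUnit (hwp.isUnit_of_dvd' h1 (dvd_refl _))
    rw [this, Finset.card_range]
  · intro hsq
    have hpe' : ¬ p ∣ e := by
      rintro ⟨c, hc⟩
      exact hsq ⟨c, by rw [hc]; ring⟩
    have he0 : (e : ZMod p) ≠ 0 := by
      intro h
      exact hpe' ((ZMod.natCast_eq_zero_iff e p).1 h)
    set t0 : ℕ := ((-(w : ZMod p)) * (e : ZMod p)⁻¹).val with ht0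
    have ht0lt : t0 < p := ZMod.val_lt _
    have ht0c : ((t0 : ℕ) : ZMod p) = (-(w : ZMod p)) * (e : ZMod p)⁻¹ := by
      rw [ht0, ZMod.natCast_val, ZMod.cast_id]
    have key : ∀ t : ℕ, t < p → ((p : ℤ) ∣ w + (t : ℤ) * (e : ℤ) ↔ t = t0) := by
      intro t ht
      rw [← ZMod.intCast_zmod_eq_zero_iff_dvd]
      push_cast
      constructor
      · intro h
        have h1 : (t : ZMod p) = (-(w : ZMod p)) * (e : ZMod p)⁻¹ := by
          rw [eq_mul_inv_iff_mul_eq₀ he0]
          linear_combination h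
        have h2 := congrArg ZMod.val h1
        rw [ZMod.val_cast_of_lt ht] at h2
        exact h2
      · intro h
        rw [h, ht0c]
        field_simp
        ring
    have : T = (Finset.range p).erase t0 := by
      ext t
      simp only [T, Finset.mem_filter, Finset.mem_erase, Finset.mem_range]
      constructor
      · rintro ⟨h1, h2⟩
        refine ⟨?_, h1⟩
        rw [hcop t] at h2
        intro h3
        exact h2 ((key t h1).2 h3)
      · rintro ⟨h1, h2⟩
        refine ⟨h2, ?_⟩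
        rw [hcop t]
        intro h3
        exact h1 ((key t h2).1 h3)
    rw [this, Finset.card_erase_of_mem (Finset.mem_range.2 ht0lt), Finset.card_range]
  · intro j hj t _
    obtain ⟨c, hc⟩ := hj
    have h1 : (((w + (t : ℤ) * (e : ℤ) : ℤ)) : ℚ) * x j = (w : ℚ) * x j + ((t * c : ℤ) : ℚ) := by
      push_cast
      have := hex j
      rw [hc] at this
      push_cast at this
      rw [mul_div_cancel_left₀ _ hpe] at this
      linear_combination (t : ℚ) * this
    rw [h1, Int.fract_add_intCast]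
  · intro j
    split_ifs
    · exact le_refl _
    · exact hρ0 j
  · intro j
    split_ifs
    · positivity
    · exact hρ1 j
  · intro hsq j hj
    rw [if_neg hj]
    refine lt_of_le_of_ne (hρ0 j) ?_
    intro h0
    apply hj
    obtain ⟨c, hc⟩ := hsq
    have hec : e = p * c := by
      have : p * e = p * (p * c) := by rw [hc]; ring
      exact Nat.eq_of_mul_eq_mul_left hp.pos this
    -- `p y = R0`
    have h1 : (p : ℚ) * y j = R0 j := by
      have h2 : y j = (R0 j : ℚ) / p := by linarith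
      rw [h2]
      field_simp
    have h3 : (p : ℚ) * ((w : ℚ) * x j) = ((R0 j + p * ⌊(w : ℚ) * x j⌋ : ℤ) : ℚ) := by
      have h4 : (w : ℚ) * x j = ⌊(w : ℚ) * x j⌋ + y j := (Int.floor_add_fract _).symm
      push_cast
      rw [← h1]
      linear_combination (p : ℚ) * h4
    have h5 : (w : ℚ) * (u j : ℚ) = (((R0 j + p * ⌊(w : ℚ) * x j⌋) * (p * c) : ℤ) : ℚ) := by
      have h6 := hu j
      push_cast at h6
      rw [← h6]
      rw [hec]
      push_cast at h3 ⊢
      linear_combination ((p : ℚ) * c) * h3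
    have h7 : w * u j = (R0 j + p * ⌊(w : ℚ) * x j⌋) * (p * c) := by exact_mod_cast h5
    have h8 : (p : ℤ) ∣ w * u j := by
      rw [h7]
      exact ⟨(R0 j + p * ⌊(w : ℚ) * x j⌋) * c, by ring⟩
    rcases hpp.dvd_or_dvd h8 with h9 | h9
    · exact absurd (hwp.isUnit_of_dvd' h9 (dvd_refl _)) hpp.not_isUnit
    · exact h9
  · intro j hj t1 h1 t2 h2 h12
    have h1' : t1 < p := Finset.mem_range.1 (Finset.mem_filter.1 h1).1
    have h2' : t2 < p := Finset.mem_range.1 (Finset.mem_filter.1 h2).1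
    have h3 : (R0 j + (t1 : ℤ) * u j) % (p : ℤ) = (R0 j + (t2 : ℤ) * u j) % (p : ℤ) := by
      rw [← hRcast j t1, ← hRcast j t2]
      exact_mod_cast h12
    have h4 : (p : ℤ) ∣ ((t2 : ℤ) - t1) * u j := by
      have h5 : (R0 j + (t1 : ℤ) * u j) ≡ (R0 j + (t2 : ℤ) * u j) [ZMOD (p : ℤ)] := h3
      have h6 := Int.modEq_iff_dvd.1 h5
      have h7 : (R0 j + (t2 : ℤ) * u j) - (R0 j + (t1 : ℤ) * u j) = ((t2 : ℤ) - t1) * u j := by
        ring
      rwa [h7] at h6
    have h5 : (p : ℤ) ∣ (t2 : ℤ) - t1 := by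
      rcases hpp.dvd_or_dvd h4 with h6 | h6
      · exact h6
      · exact absurd h6 hj
    have h6 : (t2 : ℤ) - t1 = 0 := by
      apply Int.eq_zero_of_abs_lt_dvd h5
      rw [abs_lt]
      constructor <;> omega
    omega
  · intro j hj t _
    have h := Int.emod_lt_of_pos (R0 j + (t : ℤ) * u j) hpz
    have h2 := hRcast j t
    zify
    rw [h2]
    exact h
  · intro j hj t _
    rw [if_neg hj, Int.fract_eq_iff]
    have hr := hRcast j t
    have hr' : ((((R0 j + (t : ℤ) * u j) % (p : ℤ)).toNat : ℕ) : ℚ) =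
        (((R0 j + (t : ℤ) * u j) % (p : ℤ) : ℤ) : ℚ) := by
      exact_mod_cast hr
    rw [hr']
    have hr0 : (0 : ℚ) ≤ (((R0 j + (t : ℤ) * u j) % (p : ℤ) : ℤ) : ℚ) := by
      exact_mod_cast Int.emod_nonneg _ hpz.ne'
    have hr1 : (((R0 j + (t : ℤ) * u j) % (p : ℤ) : ℤ) : ℚ) ≤ p - 1 := by
      have := Int.emod_lt_of_pos (R0 j + (t : ℤ) * u j) hpz
      have h2 : (R0 j + (t : ℤ) * u j) % (p : ℤ) ≤ p - 1 := by omega
      exact_mod_cast h2
    refine ⟨?_, ?_, ?_⟩
    · have := hρ0 j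
      positivity
    · have h1 := hρ1 j
      have h2 : (((R0 j + (t : ℤ) * u j) % (p : ℤ) : ℤ) : ℚ) / p ≤ (p - 1) / p := by
        gcongr
      have h3 : ((p : ℚ) - 1) / p + 1 / p = 1 := by field_simp; ring
      linarith
    · refine ⟨⌊(w : ℚ) * x j⌋ + (R0 j + (t : ℤ) * u j) / (p : ℤ), ?_⟩
      have h4 : (w : ℚ) * x j = ⌊(w : ℚ) * x j⌋ + y j := (Int.floor_add_fract _).symm
      have h5 : (p : ℤ) * ((R0 j + (t : ℤ) * u j) / (p : ℤ)) +
          (R0 j + (t : ℤ) * u j) % (p : ℤ) = R0 j + (t : ℤ) * u j :=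
        Int.mul_ediv_add_emod _ _
      have h6 : (p : ℚ) * (((R0 j + (t : ℤ) * u j) / (p : ℤ) : ℤ) : ℚ) +
          (((R0 j + (t : ℤ) * u j) % (p : ℤ) : ℤ) : ℚ) = R0 j + (t : ℚ) * u j := by
        exact_mod_cast h5
      have h7 := hex j
      push_cast
      have h8 : (((R0 j + (t : ℤ) * u j) % (p : ℤ) : ℤ) : ℚ) =
        R0 j + (t : ℚ) * u j - (p : ℚ) * (((R0 j + (t : ℤ) * u j) / (p : ℤ) : ℤ) : ℚ) := by
        linarith
      rw [h8]
      have h9 : (e : ℚ) * x j * p = u j := by rw [h7]; field_simp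
      field_simp
      linear_combination (p : ℚ) * h4 + (t : ℚ) * h9

theorem sum_ge_aux (A : Finset ℕ) : ((A.card : ℚ) * (A.card - 1)) / 2 ≤ ∑ t ∈ A, (t : ℚ) := by
  induction A using Finset.induction_on_max with
  | empty => simp
  | insert a s hs ih =>
    have ha : a ∉ s := fun h => lt_irrefl a (hs a h)
    rw [Finset.card_insert_of_notMem ha, Finset.sum_insert ha]
    have h1 : s.card ≤ a := by
      have : s ⊆ Finset.range a := fun b hb => Finset.mem_range.2 (hs b hb)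
      simpa using Finset.card_le_card this
    have h2 : (s.card : ℚ) ≤ a := by exact_mod_cast h1
    push_cast
    linarith

theorem sum_distinct (S : Finset ℕ) (R : ℕ → ℕ) (h : Set.InjOn R S) :
    ((S.card : ℚ) * (S.card - 1)) / 2 ≤ ∑ t ∈ S, (R t : ℚ) := by
  classical
  have h1 := sum_ge_aux (S.image R)
  rw [Finset.card_image_of_injOn h, Finset.sum_image h] at h1
  exact h1

theorem sum_distinct' (S : Finset ℕ) (R : ℕ → ℕ) (h : Set.InjOn R S) (p : ℕ)
    (hR : ∀ t ∈ S, R t < p) :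
    ((S.card : ℚ) * (S.card - 1)) / 2 ≤ ∑ t ∈ S, ((p : ℚ) - 1 - R t) := by
  have h1 : Set.InjOn (fun t => p - 1 - R t) S := by
    intro a ha b hb hab
    apply h ha hb
    have ha' := hR a ha
    have hb' := hR b hb
    simp only at hab
    omega
  refine (sum_distinct S _ h1).trans (le_of_eq ?_)
  apply Finset.sum_congr rfl
  intro t ht
  have ht' := hR t ht
  have : p - 1 - R t + R t + 1 = p := by omega
  have h2 : ((p - 1 - R t : ℕ) : ℚ) + R t + 1 = p := by exact_mod_cast this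
  linarith

theorem exists_large (S : Finset ℕ) (R : ℕ → ℕ) (h : Set.InjOn R S) (hS : S.Nonempty) :
    ∃ t ∈ S, S.card - 1 ≤ R t := by
  classical
  by_contra hc
  push Not at hc
  have h1 : S.image R ⊆ Finset.range (S.card - 1) := by
    intro b hb
    obtain ⟨t, ht, rfl⟩ := Finset.mem_image.1 hb
    exact Finset.mem_range.2 (hc t ht)
  have h2 := Finset.card_le_card h1
  rw [Finset.card_image_of_injOn h, Finset.card_range] at h2
  have h3 := hS.card_pos
  omega

end Pool.H61.QF
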